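import Pool.Agent.H71.MT.Same

set_option autoImplicit false

/-!
# Counting: some pattern of removed incidences defeats a given first-order transduction
-/

noncomputable section

namespace Pool.Agent.H71.MT

variable {N J : ℕ} {β : Type} {g m Q L ρ : ℕ}

theorem rare_card {T : Type} [Finite T] (S : Sys N J β) (c : Fin (N + N) → T) (Q : ℕ) (k : β) :
    (Rare S c Q k).ncard ≤ Q * Nat.card T := by
  classical
  have := Fintype.ofFinite T
  let f : Fin J → T := fun w => c (Fin.natAdd N (S.b k w))
  have h1 : (Rare S c Q k).ncard = (Rare S c Q k).toFinset.card := by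
    rw [Set.ncard_eq_toFinset_card']
  rw [h1]
  refine (Finset.card_le_mul_card_image (f := f) _ Q ?_).trans
    (Nat.mul_le_mul_left Q ?_)
  · intro t ht
    obtain ⟨w, hw, rfl⟩ := Finset.mem_image.1 ht
    rw [Set.mem_toFinset] at hw
    have hw' : {w' | f w' = f w}.ncard ≤ Q := hw
    rw [Set.ncard_eq_toFinset_card'] at hw'
    refine (Finset.card_le_card ?_).trans hw'
    intro w' hw2
    rw [Finset.mem_filter] at hw2
    rw [Set.mem_toFinset]
    exact hw2.2
  · rw [Nat.card_eq_fintype_card]
    exact Finset.card_le_univ _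

theorem onPath_card [Fintype β] {S : Sys N J β} (hS : S.Nice g) (π : Fin N → Fin (N + N))
    (hρ : ρ ≤ g) : ∑ k, (OnPath S π ρ k).ncard ≤ ρ * Fintype.card β := by
  classical
  let F : β → Finset (Sym2 (Fin (N + N) ⊕ β)) := fun k₀ =>
    if h : ∃ p : (bip S.mem).Walk (.inl (π (S.x k₀))) (.inl (π (S.y k₀))), p.IsPath ∧
      p.length ≤ ρ then h.choose.edges.toFinset else ∅
  have hF : ∀ k₀, (F k₀).card ≤ ρ := by
    intro k₀
    by_cases h : ∃ p : (bip S.mem).Walk (.inl (π (S.x k₀))) (.inl (π (S.y k₀))), p.IsPath ∧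
      p.length ≤ ρ
    · simp only [F, dif_pos h]
      refine (List.toFinset_card_le _).trans ?_
      rw [SimpleGraph.Walk.length_edges]
      exact h.choose_spec.2
    · simp only [F, dif_neg h, Finset.card_empty]
      exact Nat.zero_le _
  have h1 : ∑ k, (OnPath S π ρ k).ncard =
      ((Finset.univ : Finset β).sigma (fun k => (OnPath S π ρ k).toFinset)).card := by
    rw [Finset.card_sigma]
    refine Finset.sum_congr rfl (fun k _ => ?_)
    rw [Set.ncard_eq_toFinset_card']
  have h2 : ((Finset.univ : Finset β).sigma (fun k => (OnPath S π ρ k).toFinset)).card ≤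
      ((Finset.univ : Finset β).biUnion F).card := by
    refine Finset.card_le_card_of_injOn
      (fun kw => s(.inl (Fin.natAdd N (S.b kw.1 kw.2)), .inr kw.1)) ?_ ?_
    · rintro ⟨k, w⟩ hkw
      rw [Finset.mem_coe, Finset.mem_sigma, Set.mem_toFinset] at hkw
      obtain ⟨k₀, p, hp, hl, he⟩ := hkw.2
      rw [Finset.mem_coe, Finset.mem_biUnion]
      refine ⟨k₀, Finset.mem_univ _, ?_⟩
      have h : ∃ p : (bip S.mem).Walk (.inl (π (S.x k₀))) (.inl (π (S.y k₀))), p.IsPath ∧
        p.length ≤ ρ := ⟨p, hp, hl⟩
      simp only [F, dif_pos h]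
      have hpe : h.choose = p := hS.lu _ _ _ _ h.choose_spec.1 hp (h.choose_spec.2.trans hρ)
        (hl.trans hρ)
      rw [hpe, List.mem_toFinset]
      exact he
    · rintro ⟨k, w⟩ _ ⟨k', w'⟩ _ h
      simp only [Sym2.eq_iff, Sum.inl.injEq, Sum.inr.injEq, reduceCtorEq,
        and_false, or_false] at h
      obtain ⟨h3, rfl⟩ := h
      rw [hS.inj k (Fin.natAdd_injective N N h3)]
  rw [h1]
  refine h2.trans ?_
  refine (Finset.card_biUnion_le_card_mul _ _ ρ (fun k _ => hF k)).trans ?_
  rw [Finset.card_univ, mul_comm]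

/-- the data attached to a bad pattern -/
abbrev Dat (N m Q q : ℕ) : Type :=
  (Fin m → Set (Fin (N + N))) × (Fin (N + N) → Ty (Option (Set (Fin m))) Q (lev q)) ×
    ((j : Fin q) → Ty (Option (Set (Fin m))) Q (lev j) → Fin (Q + 1) → Prop) ×
    (Fin N → Fin (N + N))

/-- the active elements -/
def Active {q : ℕ} (S : Sys N J β) (d : Dat N m Q q) (k : β) : Set (Fin J) :=
  Rare S d.2.1 Q k ∪ OnPath S d.2.2.2 (rho q) k

theorem active_sum [Fintype β] {S : Sys N J β} (hS : S.Nice g) {q : ℕ} (hq : rho q ≤ g)
    (d : Dat N m Q q) : ∑ k, (Active S d k).ncard ≤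
      (Q * Nat.card (Ty (Option (Set (Fin m))) Q (lev q)) + rho q) * Fintype.card β := by
  calc ∑ k, (Active S d k).ncard ≤ ∑ k, ((Rare S d.2.1 Q k).ncard +
        (OnPath S d.2.2.2 (rho q) k).ncard) := Finset.sum_le_sum (fun k _ => Set.ncard_union_le _ _)
    _ = ∑ k, (Rare S d.2.1 Q k).ncard + ∑ k, (OnPath S d.2.2.2 (rho q) k).ncard :=
        Finset.sum_add_distrib
    _ ≤ ∑ _k : β, Q * Nat.card (Ty (Option (Set (Fin m))) Q (lev q)) +
        rho q * Fintype.card β :=
        Nat.add_le_add (Finset.sum_le_sum (fun k _ => rare_card S _ Q k))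
          (onPath_card hS _ hq)
    _ = _ := by
        rw [Finset.sum_const, Finset.card_univ, smul_eq_mul]
        ring

open Classical in
theorem bad_card [Fintype β] {S : Sys N J β} (hS : S.Nice g) (hg : 4 ≤ g) (η : Fml m)
    (hη : IsFO η) {q : ℕ} (hq : rank η ≤ q) (hqg : rho q ≤ g) (hQ : siz q (rho q + 1) ≤ Q)
    (hJ : 0 < J)
    (hJ' : 4 * (Q * Nat.card (Ty (Option (Set (Fin m))) Q (lev q)) + rho q) ≤ J) :
    (((Finset.univ : Finset ((β → Fin J) × (β → Bool))).filter
      (fun ω => ∃ P π, Real S η ω.1 ω.2 P π)).card : ℝ) ≤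
      Nat.card (Dat N m Q q) * ((J : ℝ) * (4 / 3)) ^ Fintype.card β := by
  have : Fintype (Dat N m Q q) := Fintype.ofFinite _
  set Bad := (Finset.univ : Finset ((β → Fin J) × (β → Bool))).filter
      (fun ω => ∃ P π, Real S η ω.1 ω.2 P π) with hBad
  have hch : ∀ ω : (β → Fin J) × (β → Bool), ∃ Pπ : (Fin m → Set (Fin (N + N))) ×
      (Fin N → Fin (N + N)), ω ∈ Bad → Real S η ω.1 ω.2 Pπ.1 Pπ.2 := by
    intro ω
    by_cases h : ω ∈ Bad
    · obtain ⟨P, π, h'⟩ := (Finset.mem_filter.1 h).2
      exact ⟨(P, π), fun _ => h'⟩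
    · by_cases hne : Nonempty (Fin N → Fin (N + N))
      · exact ⟨(fun _ => ∅, hne.some), fun h' => absurd h' h⟩
      · exact absurd ⟨Fin.castAdd N⟩ hne
  choose w hw using hch
  let dat : (β → Fin J) × (β → Bool) → Dat N m Q q := fun ω =>
    ((w ω).1, fun v => tau (bip (S.pres ω.1 ω.2)) (colOf (w ω).1) Q (lev q) (.inl v),
      fun j t n => Scat (bip (S.pres ω.1 ω.2)) (colOf (w ω).1) Q (lev j) (rho j) n t, (w ω).2)
  let box : Dat N m Q q → Finset (β → Fin J × Bool) := fun d =>
    Fintype.piFinset (fun k => (Finset.univ : Finset (Fin J × Bool)).filter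
      (fun p => p.1 ∈ Active S d k ∨ p.2 = true))
  let f : (β → Fin J) × (β → Bool) → (Σ _ : Dat N m Q q, β → Fin J × Bool) := fun ω =>
    ⟨dat ω, fun k => (ω.1 k, if ω.1 k ∈ Active S (dat ω) k then ω.2 k else true)⟩
  have h1 : Bad.card ≤ ((Finset.univ : Finset (Dat N m Q q)).sigma box).card := by
    refine Finset.card_le_card_of_injOn f ?_ ?_
    · intro ω _
      rw [Finset.mem_coe, Finset.mem_sigma]
      refine ⟨Finset.mem_univ _, ?_⟩
      rw [Fintype.mem_piFinset]
      intro k
      rw [Finset.mem_filter]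
      refine ⟨Finset.mem_univ _, ?_⟩
      by_cases h : ω.1 k ∈ Active S (dat ω) k
      · exact Or.inl h
      · exact Or.inr (if_neg h)
    · rintro ⟨W, ε⟩ hω ⟨W', ε'⟩ hω' hff
      have hR := hw _ hω
      have hR' := hw _ hω'
      have h2 : dat (W, ε) = dat (W', ε') := congrArg Sigma.fst hff
      have h3 : (fun k => (W k, if W k ∈ Active S (dat (W, ε)) k then ε k else true)) =
          (fun k => (W' k, if W' k ∈ Active S (dat (W', ε')) k then ε' k else true)) := by
        have h4 := hff
        simp only [f] at h4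
        rw [Sigma.mk.injEq] at h4
        exact eq_of_heq h4.2
      have hWW : W = W' := by
        funext k
        exact congrArg Prod.fst (congrFun h3 k)
      subst hWW
      have hP : (w (W, ε)).1 = (w (W, ε')).1 :=
        congrArg (fun d : Dat N m Q q => d.1) h2
      have hc : (fun v => tau (bip (S.pres W ε)) (colOf (w (W, ε)).1) Q (lev q) (.inl v)) =
        (fun v => tau (bip (S.pres W ε')) (colOf (w (W, ε')).1) Q (lev q) (.inl v)) :=
        congrArg (fun d : Dat N m Q q => d.2.1) h2
      have hgl : (fun (j : Fin q) t (n : Fin (Q + 1)) =>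
          Scat (bip (S.pres W ε)) (colOf (w (W, ε)).1) Q (lev j) (rho j) n t) =
          (fun (j : Fin q) t (n : Fin (Q + 1)) =>
          Scat (bip (S.pres W ε')) (colOf (w (W, ε')).1) Q (lev j) (rho j) n t) :=
        congrArg (fun d : Dat N m Q q => d.2.2.1) h2
      have hπ : (w (W, ε)).2 = (w (W, ε')).2 := congrArg (fun d : Dat N m Q q => d.2.2.2) h2
      have hact : ∀ k, W k ∈ Active S (dat (W, ε)) k → ε k = ε' k := by
        intro k hk
        have h5 := congrArg Prod.snd (congrFun h3 k)
        simp only at h5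
        rw [if_pos hk, if_pos (h2 ▸ hk)] at h5
        exact h5
      rw [← hP, ← hπ] at hR'
      rw [← hP] at hc hgl
      have hglob : Glob (bip (S.pres W ε)) (bip (S.pres W ε')) (colOf (w (W, ε)).1)
          (colOf (w (W, ε)).1) Q q := by
        intro j hj t n hn
        have h6 := congrFun (congrFun (congrFun hgl ⟨j, hj⟩) t) ⟨n, by omega⟩
        simp only at h6
        rw [h6]
      have hact1 : ∀ k, (W k ∈ Rare S
          (fun v => tau (bip (S.pres W ε)) (colOf (w (W, ε)).1) Q (lev q) (.inl v)) Q k
          ∨ W k ∈ OnPath S (w (W, ε)).2 (rho q) k) → ε k = ε' k := fun k hk => hact k hk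
      have hact2 : ∀ k, (W k ∈ Rare S
          (fun v => tau (bip (S.pres W ε')) (colOf (w (W, ε)).1) Q (lev q) (.inl v)) Q k
          ∨ W k ∈ OnPath S (w (W, ε)).2 (rho q) k) → ε' k = ε k := by
        intro k hk
        rw [← hc] at hk
        exact (hact1 k hk).symm
      have hεε : ε = ε' := by
        funext k
        cases hk : ε k with
        | false =>
          cases hk' : ε' k with
          | false => rfl
          | true =>
            exfalso
            exact same_eps hS hg η hη hq hqg hQ hR' hR (fun v => (congrFun hc v).symm)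
              hglob.symm hact2 k hk' hk
        | true =>
          cases hk' : ε' k with
          | false =>
            exfalso
            exact same_eps hS hg η hη hq hqg hQ hR hR' (fun v => congrFun hc v)
              hglob hact1 k hk hk'
          | true => rfl
      rw [hεε]
  have hJr : (0 : ℝ) < J := by exact_mod_cast hJ
  have h4 : ∀ d : Dat N m Q q, ((box d).card : ℝ) ≤ ((J : ℝ) * (4 / 3)) ^ Fintype.card β := by
    intro d
    have h5 : ∀ k, (((Finset.univ : Finset (Fin J × Bool)).filter
        (fun p => p.1 ∈ Active S d k ∨ p.2 = true)).card : ℝ) ≤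
        (J : ℝ) * Real.exp ((Active S d k).ncard / J) := by
      intro k
      have h6 : ((Finset.univ : Finset (Fin J × Bool)).filter
        (fun p => p.1 ∈ Active S d k ∨ p.2 = true)).card ≤ J + (Active S d k).ncard := by
        have h7 : (Finset.univ : Finset (Fin J × Bool)).filter
            (fun p => p.1 ∈ Active S d k ∨ p.2 = true) ⊆
            ((Finset.univ : Finset (Fin J)).image (fun w => (w, true))) ∪
              ((Active S d k).toFinset.image (fun w => (w, false))) := by
          rintro ⟨w, b⟩ hwb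
          rw [Finset.mem_filter] at hwb
          rw [Finset.mem_union, Finset.mem_image, Finset.mem_image]
          cases b with
          | true => exact Or.inl ⟨w, Finset.mem_univ _, rfl⟩
          | false =>
            refine Or.inr ⟨w, ?_, rfl⟩
            rw [Set.mem_toFinset]
            simpa using hwb.2
        refine (Finset.card_le_card h7).trans ((Finset.card_union_le _ _).trans ?_)
        refine Nat.add_le_add (Finset.card_image_le.trans (by simp)) (Finset.card_image_le.trans ?_)
        rw [Set.ncard_eq_toFinset_card']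
      have h8 : (((Finset.univ : Finset (Fin J × Bool)).filter
        (fun p => p.1 ∈ Active S d k ∨ p.2 = true)).card : ℝ) ≤ J + (Active S d k).ncard := by
        exact_mod_cast h6
      refine h8.trans ?_
      have h9 := Real.add_one_le_exp (((Active S d k).ncard : ℝ) / J)
      calc (J : ℝ) + (Active S d k).ncard = J * ((Active S d k).ncard / J + 1) := by
            field_simp
            ring
        _ ≤ _ := mul_le_mul_of_nonneg_left h9 hJr.le
    have h10 : ((box d).card : ℝ) = ∏ k, (((Finset.univ : Finset (Fin J × Bool)).filter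
        (fun p => p.1 ∈ Active S d k ∨ p.2 = true)).card : ℝ) := by
      simp only [box, Fintype.card_piFinset]
      push_cast
      rfl
    rw [h10]
    calc ∏ k, (((Finset.univ : Finset (Fin J × Bool)).filter
        (fun p => p.1 ∈ Active S d k ∨ p.2 = true)).card : ℝ)
        ≤ ∏ k : β, (J : ℝ) * Real.exp ((Active S d k).ncard / J) :=
          Finset.prod_le_prod (fun k _ => Nat.cast_nonneg _) (fun k _ => h5 k)
      _ = (J : ℝ) ^ Fintype.card β * Real.exp (∑ k, ((Active S d k).ncard : ℝ) / J) := by
          rw [Finset.prod_mul_distrib, Finset.prod_const, Finset.card_univ, Real.exp_sum]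
      _ ≤ (J : ℝ) ^ Fintype.card β * (4 / 3) ^ Fintype.card β := by
          refine mul_le_mul_of_nonneg_left ?_ (pow_nonneg hJr.le _)
          have h11 : (∑ k, ((Active S d k).ncard : ℝ) / J) ≤ (Fintype.card β : ℝ) * (1 / 4) := by
            rw [← Finset.sum_div, div_le_iff₀ hJr]
            have h12 := active_sum hS hqg d
            have h13 : 4 * ∑ k, (Active S d k).ncard ≤ Fintype.card β * J := by
              calc 4 * ∑ k, (Active S d k).ncard ≤ 4 * ((Q *
                    Nat.card (Ty (Option (Set (Fin m))) Q (lev q)) + rho q) * Fintype.card β) :=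
                    Nat.mul_le_mul_left 4 h12
                _ = Fintype.card β * (4 * (Q *
                    Nat.card (Ty (Option (Set (Fin m))) Q (lev q)) + rho q)) := by ring
                _ ≤ _ := Nat.mul_le_mul_left _ hJ'
            have h14 : (4 : ℝ) * ∑ k, ((Active S d k).ncard : ℝ) ≤ Fintype.card β * J := by
              exact_mod_cast h13
            linarith
          calc Real.exp (∑ k, ((Active S d k).ncard : ℝ) / J)
              ≤ Real.exp ((Fintype.card β : ℝ) * (1 / 4)) := Real.exp_le_exp.2 h11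
            _ = Real.exp (1 / 4) ^ Fintype.card β := by rw [← Real.exp_nat_mul]
            _ ≤ _ := by
                refine pow_le_pow_left₀ (Real.exp_pos _).le ?_ _
                have h15 := Real.add_one_le_exp (-(1 / 4 : ℝ))
                rw [Real.exp_neg] at h15
                have h16 := Real.exp_pos (1 / 4 : ℝ)
                have h17 : (3 / 4 : ℝ) ≤ (Real.exp (1 / 4))⁻¹ := by linarith
                rw [le_inv_comm₀ (by norm_num) h16] at h17
                linarith [show ((3 / 4 : ℝ))⁻¹ = 4 / 3 by norm_num]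
      _ = _ := by rw [mul_pow]
  calc (Bad.card : ℝ) ≤ (((Finset.univ : Finset (Dat N m Q q)).sigma box).card : ℝ) := by
        exact_mod_cast h1
    _ = ∑ d : Dat N m Q q, ((box d).card : ℝ) := by
        rw [Finset.card_sigma]
        push_cast
        rfl
    _ ≤ ∑ _d : Dat N m Q q, ((J : ℝ) * (4 / 3)) ^ Fintype.card β :=
        Finset.sum_le_sum (fun d _ => h4 d)
    _ = _ := by
        rw [Finset.sum_const, Finset.card_univ, nsmul_eq_mul, Nat.card_eq_fintype_card]

end Pool.Agent.H71.MT
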