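import Pool.Agent.H71.MT.Alpha

set_option autoImplicit false

/-!
# Counting: the final estimate
-/

noncomputable section

namespace Pool.Agent.H71.MT

variable {N J : ℕ} {β : Type} {g m Q L ρ : ℕ}

theorem Sys.Nice.mono {S : Sys N J β} {g g' : ℕ} (h : S.Nice g) (hg : g' ≤ g) : S.Nice g' :=
  ⟨h.ne, h.inj, h.lu.mono hg⟩

theorem dat_card (m Q q : ℕ) : ∃ c : ℕ, ∀ s : ℕ, 1 ≤ s →
    Nat.card (Dat (2 ^ s) m Q q) ≤ 2 ^ (c * s * 2 ^ s) := by
  obtain ⟨K, hK⟩ : ∃ K, Nat.card (Ty (Option (Set (Fin m))) Q (lev q)) = K := ⟨_, rfl⟩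
  obtain ⟨c₁, hc₁⟩ : ∃ c₁, Nat.card ((j : Fin q) → Ty (Option (Set (Fin m))) Q (lev j) →
    Fin (Q + 1) → Prop) = c₁ := ⟨_, rfl⟩
  refine ⟨2 * m + 2 * K + c₁ + 2, fun s hs => ?_⟩
  have hN : 1 ≤ 2 ^ s := Nat.one_le_two_pow
  have h1 : Nat.card (Dat (2 ^ s) m Q q) = (2 ^ (2 ^ s + 2 ^ s)) ^ m *
      (K ^ (2 ^ s + 2 ^ s) * (c₁ * (2 ^ s + 2 ^ s) ^ 2 ^ s)) := by
    rw [Nat.card_prod, Nat.card_prod, Nat.card_prod, hc₁, Nat.card_fun, Nat.card_fun,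
      Nat.card_fun, hK]
    simp
  rw [h1]
  have h2 : K ≤ 2 ^ K := Nat.lt_two_pow_self.le
  have h3 : c₁ ≤ 2 ^ c₁ := Nat.lt_two_pow_self.le
  have h4 : (2 ^ s + 2 ^ s : ℕ) = 2 ^ (s + 1) := by rw [pow_succ]; ring
  calc (2 ^ (2 ^ s + 2 ^ s)) ^ m * (K ^ (2 ^ s + 2 ^ s) * (c₁ * (2 ^ s + 2 ^ s) ^ 2 ^ s))
      ≤ (2 ^ (2 ^ s + 2 ^ s)) ^ m * ((2 ^ K) ^ (2 ^ s + 2 ^ s) *
        (2 ^ c₁ * (2 ^ (s + 1)) ^ 2 ^ s)) := by
        refine Nat.mul_le_mul_left _ (Nat.mul_le_mul (Nat.pow_le_pow_left h2 _)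
          (Nat.mul_le_mul h3 ?_))
        rw [h4]
    _ = 2 ^ ((2 ^ s + 2 ^ s) * m + (K * (2 ^ s + 2 ^ s) + (c₁ + (s + 1) * 2 ^ s))) := by
        rw [← pow_mul, ← pow_mul, ← pow_mul, ← pow_add, ← pow_add, ← pow_add]
    _ ≤ _ := by
        refine Nat.pow_le_pow_right (by norm_num) ?_
        have h5 : 2 ^ s ≤ s * 2 ^ s := Nat.le_mul_of_pos_left _ (by omega)
        have h6 : c₁ ≤ c₁ * (s * 2 ^ s) := Nat.le_mul_of_pos_right _ (by positivity)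
        have h7 : m * 2 ^ s ≤ m * (s * 2 ^ s) := Nat.mul_le_mul_left _ h5
        have h8 : K * 2 ^ s ≤ K * (s * 2 ^ s) := Nat.mul_le_mul_left _ h5
        calc (2 ^ s + 2 ^ s) * m + (K * (2 ^ s + 2 ^ s) + (c₁ + (s + 1) * 2 ^ s))
            = 2 * (m * 2 ^ s) + 2 * (K * 2 ^ s) + c₁ + s * 2 ^ s + 2 ^ s := by ring
          _ ≤ 2 * (m * (s * 2 ^ s)) + 2 * (K * (s * 2 ^ s)) + c₁ * (s * 2 ^ s) + s * 2 ^ s
              + s * 2 ^ s := by omega
          _ = _ := by ring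

open Classical in
theorem heavy_card [Fintype β] : 2 ^ Fintype.card β ≤
    2 * ((Finset.univ : Finset (β → Bool)).filter
      (fun ε => Fintype.card β ≤ 2 * {k | ε k = true}.ncard)).card := by
  set Hv := (Finset.univ : Finset (β → Bool)).filter
      (fun ε => Fintype.card β ≤ 2 * {k | ε k = true}.ncard) with hHv
  have h1 : (Finset.univ : Finset (β → Bool)) ⊆ Hv ∪ Hv.image (fun ε k => !(ε k)) := by
    intro ε _
    rw [Finset.mem_union]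
    by_cases h : ε ∈ Hv
    · exact Or.inl h
    · right
      rw [Finset.mem_image]
      refine ⟨fun k => !(ε k), ?_, by funext k; simp⟩
      rw [hHv, Finset.mem_filter] at h ⊢
      refine ⟨Finset.mem_univ _, ?_⟩
      have h2 : ¬ Fintype.card β ≤ 2 * {k | ε k = true}.ncard :=
        fun h' => h ⟨Finset.mem_univ _, h'⟩
      have h3 : {k | (!(ε k)) = true} = {k | ε k = true}ᶜ := by
        ext k
        simp
      rw [h3, Set.ncard_compl, Nat.card_eq_fintype_card]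
      omega
  have h2 := (Finset.card_le_card h1).trans (Finset.card_union_le _ _)
  have h3 := Finset.card_image_le (s := Hv) (f := fun ε k => !(ε k))
  rw [Finset.card_univ, Fintype.card_fun, Fintype.card_bool] at h2
  omega

/-- For every edge formula there is a pattern whose output is not produced. -/
theorem alpha (η : Fml m) (hη : IsFO η) : ∃ J C g : ℕ, 0 < J ∧ Even J ∧ 4 ≤ g ∧
    ∀ s : ℕ, 1 ≤ s → ∀ (β : Type) [Fintype β] (S : Sys (2 ^ s) J β), S.Nice g →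
      C * s * 2 ^ s ≤ Fintype.card β → ∃ (W : β → Fin J) (ε : β → Bool),
        (¬ ∃ P π, Real S η W ε P π) ∧ Fintype.card β ≤ 2 * {k | ε k = true}.ncard := by
  classical
  obtain ⟨q, hq⟩ : ∃ q, rank η = q := ⟨_, rfl⟩
  obtain ⟨Q, hQ⟩ : ∃ Q, siz q (rho q + 1) = Q := ⟨_, rfl⟩
  obtain ⟨κ, hκ⟩ : ∃ κ, Q * Nat.card (Ty (Option (Set (Fin m))) Q (lev q)) + rho q = κ := ⟨_, rfl⟩
  have hρ := two_le_rho q
  obtain ⟨c, hc⟩ := dat_card m Q q
  refine ⟨4 * κ, 2 * (c + 1), max 4 (rho q), by omega, ⟨2 * κ, by ring⟩, le_max_left _ _, ?_⟩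
  intro s hs β _ S hS hM
  by_contra hcon
  push Not at hcon
  have hJ : 0 < 4 * κ := by omega
  have hbad := bad_card (hS.mono (le_refl _)) (le_max_left _ _) η hη hq.le (le_max_right _ _)
    hQ.le hJ (by rw [hκ])
  set Bad := (Finset.univ : Finset ((β → Fin (4 * κ)) × (β → Bool))).filter
      (fun ω => ∃ P π, Real S η ω.1 ω.2 P π) with hBad
  set Hv := (Finset.univ : Finset (β → Bool)).filter
      (fun ε => Fintype.card β ≤ 2 * {k | ε k = true}.ncard) with hHv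
  have h1 : (Finset.univ : Finset (β → Fin (4 * κ))) ×ˢ Hv ⊆ Bad := by
    rintro ⟨W, ε⟩ hWε
    rw [Finset.mem_product, hHv, Finset.mem_filter] at hWε
    rw [hBad, Finset.mem_filter]
    refine ⟨Finset.mem_univ _, ?_⟩
    by_contra hno
    have h2 := hcon W ε (fun P π h => hno ⟨P, π, h⟩)
    have h3 : Fintype.card β ≤ 2 * {k | ε k = true}.ncard := hWε.2.2
    omega
  have h2 := Finset.card_le_card h1
  rw [Finset.card_product, Finset.card_univ, Fintype.card_fun, Fintype.card_fin] at h2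
  have h3 := heavy_card (β := β)
  rw [← hHv] at h3
  set M := Fintype.card β with hMdef
  have h4 : (4 * κ) ^ M * 2 ^ M ≤ 2 * Bad.card := by
    calc (4 * κ) ^ M * 2 ^ M ≤ (4 * κ) ^ M * (2 * Hv.card) := Nat.mul_le_mul_left _ h3
      _ = 2 * ((4 * κ) ^ M * Hv.card) := by ring
      _ ≤ _ := Nat.mul_le_mul_left 2 h2
  have hcard := hc s hs
  set R := c * s * 2 ^ s with hR
  have h5 : (((4 * κ : ℕ) : ℝ)) ^ M * 2 ^ M ≤ 2 * (2 ^ R * (((4 * κ : ℕ) : ℝ) * (4 / 3)) ^ M) := by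
    have h6 : (((4 * κ : ℕ) : ℝ)) ^ M * 2 ^ M ≤ 2 * (Bad.card : ℝ) := by exact_mod_cast h4
    refine h6.trans (mul_le_mul_of_nonneg_left ?_ (by norm_num))
    refine hbad.trans (mul_le_mul_of_nonneg_right ?_ (by positivity))
    exact_mod_cast hcard
  have hJr : (0 : ℝ) < ((4 * κ : ℕ) : ℝ) := by exact_mod_cast hJ
  rw [mul_pow] at h5
  have h6 : (2 : ℝ) ^ M ≤ 2 * (2 ^ R * (4 / 3) ^ M) := by
    have h7 : (((4 * κ : ℕ) : ℝ)) ^ M * 2 ^ M ≤
        (((4 * κ : ℕ) : ℝ)) ^ M * (2 * (2 ^ R * (4 / 3) ^ M)) := by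
      calc _ ≤ _ := h5
        _ = _ := by ring
    exact le_of_mul_le_mul_left h7 (pow_pos hJr _)
  have h8 : (3 / 2 : ℝ) ^ M ≤ 2 ^ (R + 1) := by
    have h9 : (2 : ℝ) ^ M = (3 / 2) ^ M * (4 / 3) ^ M := by
      rw [← mul_pow]
      norm_num
    rw [h9] at h6
    have h10 : (3 / 2 : ℝ) ^ M * (4 / 3) ^ M ≤ 2 ^ (R + 1) * (4 / 3) ^ M := by
      calc _ ≤ _ := h6
        _ = _ := by ring
    exact le_of_mul_le_mul_right h10 (by positivity)
  -- but `M` is large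
  have h11 : 2 * (R + 1) ≤ M := by
    have h12 : 1 ≤ s * 2 ^ s := Nat.one_le_iff_ne_zero.2 (by positivity)
    calc 2 * (R + 1) ≤ 2 * (c * s * 2 ^ s + s * 2 ^ s) := by rw [hR]; omega
      _ = 2 * (c + 1) * s * 2 ^ s := by ring
      _ ≤ M := hM
  have h12 : (3 / 2 : ℝ) ^ (2 * (R + 1)) ≤ (3 / 2) ^ M :=
    pow_le_pow_right₀ (by norm_num) h11
  rw [pow_mul] at h12
  have h13 : (2 : ℝ) ^ (R + 1) < ((3 / 2) ^ 2) ^ (R + 1) :=
    pow_lt_pow_left₀ (by norm_num) (by norm_num) (by omega)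
  linarith

end Pool.Agent.H71.MT
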