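import Pool.Agent.H71.MT.Sys

set_option autoImplicit false

/-!
# Existence of dense block systems of large girth
-/

noncomputable section

namespace Pool.Agent.H71.MT

variable {U U' : Type} {g : ℕ}

theorem LU.of_hom {I : SimpleGraph U} {I' : SimpleGraph U'} (f : I →g I')
    (hf : Function.Injective f) (hLU : LU I' g) : LU I g := by
  intro x y p q hp hq hpl hql
  have h1 : p.map f = q.map f := by
    refine hLU _ _ _ _ (hp.map hf)
      (hq.map hf) ?_ ?_
    · simpa using hpl
    · simpa using hql
  exact SimpleGraph.Walk.map_injective_of_injective hf x y h1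

theorem avoid_transfer {I I' : SimpleGraph U} {c : U}
    (hI : ∀ a b, I'.Adj a b → a ≠ c → b ≠ c → I.Adj a b) {x y : U} (p : I'.Walk x y)
    (hc : c ∉ p.support) : ∀ e ∈ p.edges, e ∈ I.edgeSet := by
  intro e he
  have he' := SimpleGraph.Walk.edges_subset_edgeSet p he
  induction e using Sym2.ind with
  | _ a b =>
    rw [SimpleGraph.mem_edgeSet] at he' ⊢
    refine hI a b he' ?_ ?_
    · rintro rfl
      exact hc (p.fst_mem_support_of_mem_edges he)
    · rintro rfl
      exact hc (p.snd_mem_support_of_mem_edges he)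

theorem avoid_eq {I I' : SimpleGraph U} {c : U} (hLU : LU I g)
    (hI : ∀ a b, I'.Adj a b → a ≠ c → b ≠ c → I.Adj a b) {x y : U} (p q : I'.Walk x y)
    (hp : p.IsPath) (hq : q.IsPath) (hpl : p.length ≤ g) (hql : q.length ≤ g)
    (hcp : c ∉ p.support) (hcq : c ∉ q.support) : p = q := by
  have h1 := hLU _ _ (p.transfer I (avoid_transfer hI p hcp)) (q.transfer I
    (avoid_transfer hI q hcq)) (hp.transfer _) (hq.transfer _)
    (by rwa [SimpleGraph.Walk.length_transfer]) (by rwa [SimpleGraph.Walk.length_transfer])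
  apply SimpleGraph.Walk.ext_support
  rw [← SimpleGraph.Walk.support_transfer p (avoid_transfer hI p hcp), h1,
    SimpleGraph.Walk.support_transfer]

theorem LU.add {I I' : SimpleGraph U} {c : U} (hLU : LU I g)
    (hI : ∀ a b, I'.Adj a b → a ≠ c → b ≠ c → I.Adj a b)
    (hfar : ∀ a b, I'.Adj c a → I'.Adj c b → a ≠ b → ∀ w : I.Walk a b, 2 * g < w.length) :
    LU I' g := by
  classical
  -- paths starting at `c`
  have hA : ∀ (y : U) (r r' : I'.Walk c y), r.IsPath → r'.IsPath → r.length ≤ g →
      r'.length ≤ g → r = r' := by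
    intro y r r' hr hr' hl hl'
    by_cases hy : c = y
    · subst hy
      rw [SimpleGraph.Walk.isPath_iff_nil] at hr hr'
      rw [← SimpleGraph.Walk.eq_nil_iff_nil] at hr hr'
      rw [hr, hr']
    · obtain ⟨b, hb, r₁, h1, h2, rfl⟩ := path_head r hr hy
      obtain ⟨b', hb', r₁', h1', h2', rfl⟩ := path_head r' hr' hy
      rw [SimpleGraph.Walk.length_cons] at hl hl'
      have hbb : b = b' := by
        by_contra hne
        have := hfar b b' hb hb' hne ((r₁.transfer I (avoid_transfer hI r₁ h2)).append
          (r₁'.transfer I (avoid_transfer hI r₁' h2')).reverse)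
        rw [SimpleGraph.Walk.length_append, SimpleGraph.Walk.length_reverse,
          SimpleGraph.Walk.length_transfer, SimpleGraph.Walk.length_transfer] at this
        omega
      subst hbb
      rw [avoid_eq hLU hI r₁ r₁' h1 h1' (by omega) (by omega) h2 h2']
  -- one path through `c` and the other one not
  have hB : ∀ (x y : U) (p q : I'.Walk x y), p.IsPath → p.length ≤ g →
      q.length ≤ g → c ∈ p.support → c ∉ q.support → False := by
    intro x y p q hp hpl hql hcp hcq
    have hxc : c ≠ x := fun h => hcq (by rw [h]; exact q.start_mem_support)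
    have hyc : c ≠ y := fun h => hcq (by rw [h]; exact q.end_mem_support)
    have hspec := p.take_spec hcp
    have h1 := (hp.takeUntil hcp).reverse
    have h2 := hp.dropUntil hcp
    obtain ⟨a, ha, p₁, h3, h4, h5⟩ := path_head _ h1 hxc
    obtain ⟨b, hb, p₂, h6, h7, h8⟩ := path_head _ h2 hyc
    have hlen : (p.takeUntil c hcp).length + (p.dropUntil c hcp).length = p.length := by
      rw [← SimpleGraph.Walk.length_append, hspec]
    have h9 := congrArg SimpleGraph.Walk.length h5
    have h10 := congrArg SimpleGraph.Walk.length h8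
    rw [SimpleGraph.Walk.length_reverse, SimpleGraph.Walk.length_cons] at h9
    rw [SimpleGraph.Walk.length_cons] at h10
    have hab : a ≠ b := by
      rintro rfl
      have h11 : p = (SimpleGraph.Walk.cons ha p₁).reverse.append
          (SimpleGraph.Walk.cons hb p₂) := by
        rw [← h5, ← h8, SimpleGraph.Walk.reverse_reverse, hspec]
      have h12 := hp.support_nodup
      rw [h11, SimpleGraph.Walk.support_append, List.nodup_append'] at h12
      have h13 : a ∈ (SimpleGraph.Walk.cons ha p₁).reverse.support := by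
        rw [SimpleGraph.Walk.support_reverse, List.mem_reverse]
        simp
      have h14 : a ∈ (SimpleGraph.Walk.cons hb p₂).support.tail := by simp
      exact List.disjoint_left.1 h12.2.2 h13 h14
    have := hfar a b ha hb hab ((p₁.transfer I (avoid_transfer hI p₁ h4)).append
      ((q.transfer I (avoid_transfer hI q hcq)).append
        (p₂.transfer I (avoid_transfer hI p₂ h7)).reverse))
    rw [SimpleGraph.Walk.length_append, SimpleGraph.Walk.length_append,
      SimpleGraph.Walk.length_reverse, SimpleGraph.Walk.length_transfer,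
      SimpleGraph.Walk.length_transfer, SimpleGraph.Walk.length_transfer] at this
    omega
  intro x y p q hp hq hpl hql
  by_cases hcp : c ∈ p.support
  · by_cases hcq : c ∈ q.support
    · have hl1 := p.length_takeUntil_le_length hcp
      have hl2 := q.length_takeUntil_le_length hcq
      have hl3 := p.length_dropUntil_le_length hcp
      have hl4 := q.length_dropUntil_le_length hcq
      have h1 := hA x _ _ (hp.takeUntil hcp).reverse (hq.takeUntil hcq).reverse
        (by rw [SimpleGraph.Walk.length_reverse]; omega)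
        (by rw [SimpleGraph.Walk.length_reverse]; omega)
      have h2 := hA y _ _ (hp.dropUntil hcp) (hq.dropUntil hcq) (by omega) (by omega)
      have h3 : p.takeUntil c hcp = q.takeUntil c hcq := by
        rw [← SimpleGraph.Walk.reverse_reverse (p.takeUntil c hcp), h1,
          SimpleGraph.Walk.reverse_reverse]
      rw [← p.take_spec hcp, ← q.take_spec hcq, h3, h2]
    · exact (hB x y p q hp hpl hql hcp hcq).elim
  · by_cases hcq : c ∈ q.support
    · exact (hB x y q p hq hql hpl hcq hcp).elim
    · exact avoid_eq hLU hI p q hp hq hpl hql hcp hcq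

theorem ball_card {I : SimpleGraph U} {d : ℕ}
    (hdeg : ∀ u, ∃ F : Finset U, F.card ≤ d ∧ ∀ z, I.Adj u z → z ∈ F) (v : U) (r : ℕ) :
    ∃ F : Finset U, F.card ≤ (d + 1) ^ r ∧ ∀ z, Rch I {v} r z → z ∈ F := by
  classical
  induction r with
  | zero =>
    refine ⟨{v}, by simp, fun z hz => ?_⟩
    rw [Rch.zero] at hz
    simpa using hz
  | succ r ih =>
    obtain ⟨F, hF1, hF2⟩ := ih
    choose nb hnb1 hnb2 using hdeg
    refine ⟨F ∪ F.biUnion nb, ?_, fun z hz => ?_⟩
    · refine (Finset.card_union_le _ _).trans ?_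
      have h1 := Finset.card_biUnion_le_card_mul F nb d (fun x _ => hnb1 x)
      have h2 : F.card * (d + 1) ≤ (d + 1) ^ r * (d + 1) := Nat.mul_le_mul_right _ hF1
      rw [pow_succ]
      rw [mul_add, mul_one] at h2
      omega
    · rcases hz.succ with h | ⟨y, hy, hyz⟩
      · exact Finset.mem_union_left _ (hF2 z h)
      · exact Finset.mem_union_right _ (Finset.mem_biUnion.2 ⟨y, hF2 y hy, hnb2 y z hyz⟩)

theorem choose_far {K V : Type} [Fintype K] {near : V → V → Prop} (hsymm : ∀ v w, near v w → near w v)
    {b : ℕ} (hnear : ∀ v, ∃ F : Finset V, F.card ≤ b ∧ ∀ z, near v z → z ∈ F) (T : K → Finset V)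
    (hT : ∀ i, Fintype.card K * b < (T i).card) : ∃ f : K → V, (∀ i, f i ∈ T i) ∧
      ∀ i j, i ≠ j → ¬ near (f i) (f j) := by
  classical
  choose F hF1 hF2 using hnear
  have key : ∀ s : Finset K, ∃ f : K → V, (∀ i ∈ s, f i ∈ T i) ∧
      ∀ i ∈ s, ∀ j ∈ s, i ≠ j → ¬ near (f i) (f j) := by
    intro s
    induction s using Finset.induction_on with
    | empty =>
      by_cases hK : Nonempty K
      · obtain ⟨v, _⟩ := Finset.card_pos.1 (lt_of_le_of_lt (Nat.zero_le _) (hT hK.some))
        exact ⟨fun _ => v, by simp, by simp⟩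
      · exact ⟨fun i => absurd ⟨i⟩ hK, by simp, by simp⟩
    | insert i s hi ih =>
      obtain ⟨f, hf1, hf2⟩ := ih
      have h1 : (s.biUnion (fun j => F (f j))).card < (T i).card := by
        refine lt_of_le_of_lt (Finset.card_biUnion_le_card_mul _ _ b (fun j _ => hF1 _)) ?_
        exact lt_of_le_of_lt (Nat.mul_le_mul_right b (Finset.card_le_univ s)) (hT i)
      obtain ⟨v, hv1, hv2⟩ := Finset.exists_mem_notMem_of_card_lt_card h1
      have hv3 : ∀ j ∈ s, ¬ near (f j) v := fun j hj h =>
        hv2 (Finset.mem_biUnion.2 ⟨j, hj, hF2 _ _ h⟩)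
      refine ⟨Function.update f i v, ?_, ?_⟩
      · intro j hj
        by_cases hji : j = i
        · subst hji
          rw [Function.update_self]
          exact hv1
        · rw [Function.update_of_ne hji]
          exact hf1 j (Finset.mem_of_mem_insert_of_ne hj hji)
      · intro j hj k hk hjk
        by_cases hji : j = i
        · subst hji
          have hki : k ≠ j := fun h => hjk h.symm
          rw [Function.update_self, Function.update_of_ne hki]
          exact fun h => hv3 k (Finset.mem_of_mem_insert_of_ne hk hki) (hsymm _ _ h)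
        · by_cases hki : k = i
          · subst hki
            rw [Function.update_self, Function.update_of_ne hji]
            exact hv3 j (Finset.mem_of_mem_insert_of_ne hj hji)
          · rw [Function.update_of_ne hji, Function.update_of_ne hki]
            exact hf2 j (Finset.mem_of_mem_insert_of_ne hj hji) k
              (Finset.mem_of_mem_insert_of_ne hk hki) hjk
  obtain ⟨f, hf1, hf2⟩ := key Finset.univ
  exact ⟨f, fun i => hf1 i (Finset.mem_univ i), fun i j => hf2 i (Finset.mem_univ i) j
    (Finset.mem_univ j)⟩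

theorem growth (a k : ℕ) : ∃ s₀, ∀ s ≥ s₀, a * s ^ k < 2 ^ s := by
  have h := tendsto_pow_const_div_const_pow_of_one_lt k (by norm_num : (1 : ℝ) < 2)
  have h1 : ∀ᶠ n : ℕ in Filter.atTop, (n : ℝ) ^ k / 2 ^ n < 1 / (a + 1) :=
    h.eventually_lt_const (by positivity)
  obtain ⟨s₀, hs₀⟩ := Filter.eventually_atTop.1 h1
  refine ⟨s₀, fun s hs => ?_⟩
  have h2 := hs₀ s hs
  have h3 : (0 : ℝ) < 2 ^ s := by positivity
  rw [div_lt_div_iff₀ h3 (by positivity), one_mul] at h2
  have h4 : (a : ℝ) * s ^ k ≤ (s : ℝ) ^ k * (a + 1) := by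
    have : (0 : ℝ) ≤ (s : ℝ) ^ k := by positivity
    nlinarith
  exact_mod_cast lt_of_le_of_lt h4 h2

variable {N J : ℕ}

/-- the incidence relation of the first `M` blocks -/
def rel (S : Sys N J ℕ) (M : ℕ) (v : Fin (N + N)) (k : ℕ) : Prop := k < M ∧ S.mem v k

open Classical in
theorem mem_card {β : Type} (S : Sys N J β) (k : β) :
    ((Finset.univ : Finset (Fin (N + N))).filter (fun v => S.mem v k)).card ≤ J + 2 := by
  have h : (Finset.univ : Finset (Fin (N + N))).filter (fun v => S.mem v k) ⊆
      {Fin.castAdd N (S.x k), Fin.castAdd N (S.y k)} ∪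
        (Finset.univ : Finset (Fin J)).image (fun j => Fin.natAdd N (S.b k j)) := by
    intro v hv
    rw [Finset.mem_filter] at hv
    rw [Finset.mem_union, Finset.mem_insert, Finset.mem_singleton, Finset.mem_image]
    rcases hv.2 with h | h | ⟨j, h⟩
    · exact Or.inl (Or.inl h)
    · exact Or.inl (Or.inr h)
    · exact Or.inr ⟨j, Finset.mem_univ _, h.symm⟩
  refine (Finset.card_le_card h).trans ((Finset.card_union_le _ _).trans ?_)
  have h1 := Finset.card_le_two (a := Fin.castAdd N (S.x k)) (b := Fin.castAdd N (S.y k))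
  have h2 := Finset.card_image_le (s := (Finset.univ : Finset (Fin J)))
    (f := fun j => Fin.natAdd N (S.b k j))
  rw [Finset.card_univ, Fintype.card_fin] at h2
  omega

open Classical in
/-- the degree of a point -/
def deg (S : Sys N J ℕ) (M : ℕ) (v : Fin (N + N)) : ℕ :=
  ((Finset.range M).filter (fun k => S.mem v k)).card

open Classical in
theorem sat_card (S : Sys N J ℕ) (M Δ : ℕ) :
    ((Finset.univ : Finset (Fin (N + N))).filter (fun v => Δ ≤ deg S M v)).card * Δ ≤
      M * (J + 2) := by
  calc ((Finset.univ : Finset (Fin (N + N))).filter (fun v => Δ ≤ deg S M v)).card * Δ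
      = ∑ _v ∈ (Finset.univ : Finset (Fin (N + N))).filter (fun v => Δ ≤ deg S M v), Δ := by
        rw [Finset.sum_const, smul_eq_mul]
    _ ≤ ∑ v ∈ (Finset.univ : Finset (Fin (N + N))).filter (fun v => Δ ≤ deg S M v),
        deg S M v := Finset.sum_le_sum (fun v hv => (Finset.mem_filter.1 hv).2)
    _ ≤ ∑ v : Fin (N + N), deg S M v :=
        Finset.sum_le_sum_of_subset (Finset.filter_subset _ _)
    _ = ∑ k ∈ Finset.range M,
        ((Finset.univ : Finset (Fin (N + N))).filter (fun v => S.mem v k)).card := by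
        simp only [deg, Finset.card_filter]
        exact Finset.sum_comm
    _ ≤ ∑ _k ∈ Finset.range M, (J + 2) := Finset.sum_le_sum (fun k _ => mem_card S k)
    _ = _ := by rw [Finset.sum_const, Finset.card_range, smul_eq_mul]

theorem build_step {Δ b : ℕ} (S : Sys N J ℕ) (M : ℕ) (hne : ∀ k < M, S.x k ≠ S.y k)
    (hinj : ∀ k < M, Function.Injective (S.b k)) (hLU : LU (bip (rel S M)) g)
    (hdeg : ∀ v, deg S M v ≤ Δ)
    (hb : (Δ + (J + 2) + 1) ^ (2 * g) ≤ b) (hN : 2 * ((J + 2) * b) < N)
    (hM : 2 * (M * (J + 2)) ≤ Δ * N) (hΔ : 0 < Δ) :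
    ∃ S' : Sys N J ℕ, (∀ k < M + 1, S'.x k ≠ S'.y k) ∧
      (∀ k < M + 1, Function.Injective (S'.b k)) ∧ LU (bip (rel S' (M + 1))) g ∧
      ∀ v, deg S' (M + 1) v ≤ Δ := by
  classical
  let near : Fin (N + N) → Fin (N + N) → Prop := fun v w =>
    ∃ p : (bip (rel S M)).Walk (.inl v) (.inl w), p.length ≤ 2 * g
  have hsymm : ∀ v w, near v w → near w v := fun v w ⟨p, hp⟩ =>
    ⟨p.reverse, by rwa [SimpleGraph.Walk.length_reverse]⟩
  have hdeg' : ∀ u : Fin (N + N) ⊕ ℕ, ∃ F : Finset (Fin (N + N) ⊕ ℕ), F.card ≤ Δ + (J + 2) ∧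
      ∀ z, (bip (rel S M)).Adj u z → z ∈ F := by
    rintro (v | k)
    · refine ⟨((Finset.range M).filter (fun k => S.mem v k)).image Sum.inr, ?_, ?_⟩
      · exact Finset.card_image_le.trans ((hdeg v).trans (Nat.le_add_right _ _))
      · rintro (v' | k') h
        · exact absurd h (fun h => h)
        · rw [bip_lr] at h
          exact Finset.mem_image.2 ⟨k', Finset.mem_filter.2 ⟨Finset.mem_range.2 h.1, h.2⟩, rfl⟩
    · refine ⟨((Finset.univ : Finset (Fin (N + N))).filter (fun v => S.mem v k)).image Sum.inl,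
        ?_, ?_⟩
      · exact Finset.card_image_le.trans ((mem_card S k).trans (Nat.le_add_left _ _))
      · rintro (v' | k') h
        · rw [bip_rl] at h
          exact Finset.mem_image.2 ⟨v', Finset.mem_filter.2 ⟨Finset.mem_univ _, h.2⟩, rfl⟩
        · exact absurd h (fun h => h)
  have hnear : ∀ v, ∃ F : Finset (Fin (N + N)), F.card ≤ b ∧ ∀ z, near v z → z ∈ F := by
    intro v
    obtain ⟨F, hF1, hF2⟩ := ball_card hdeg' (.inl v) (2 * g)
    refine ⟨(Finset.univ : Finset (Fin (N + N))).filter (fun z => Sum.inl z ∈ F), ?_, ?_⟩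
    · refine le_trans ?_ (hF1.trans hb)
      refine Finset.card_le_card_of_injOn Sum.inl ?_ Sum.inl_injective.injOn
      intro z hz
      exact (Finset.mem_filter.1 hz).2
    · rintro z ⟨p, hp⟩
      exact Finset.mem_filter.2 ⟨Finset.mem_univ _, hF2 _ ⟨_, rfl, p, hp⟩⟩
  -- the targets
  set Sat' := (Finset.univ : Finset (Fin (N + N))).filter (fun v => Δ ≤ deg S M v) with hSat
  have hsat : 2 * Sat'.card ≤ N := by
    have h1 := sat_card S M Δ
    rw [← hSat] at h1
    have h2 : (2 * Sat'.card) * Δ ≤ N * Δ := by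
      calc (2 * Sat'.card) * Δ = 2 * (Sat'.card * Δ) := by ring
        _ ≤ 2 * (M * (J + 2)) := Nat.mul_le_mul_left 2 h1
        _ ≤ Δ * N := hM
        _ = N * Δ := mul_comm _ _
    exact Nat.le_of_mul_le_mul_right h2 hΔ
  let T : Bool ⊕ Fin J → Finset (Fin (N + N)) := fun i =>
    match i with
    | .inl _ => (Finset.univ.image (Fin.castAdd N)) \ Sat'
    | .inr _ => (Finset.univ.image (Fin.natAdd N)) \ Sat'
  have hT : ∀ i, Fintype.card (Bool ⊕ Fin J) * b < (T i).card := by
    have hcard : Fintype.card (Bool ⊕ Fin J) = J + 2 := by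
      rw [Fintype.card_sum, Fintype.card_bool, Fintype.card_fin, add_comm]
    rw [hcard]
    have h3 : ∀ e : Fin N → Fin (N + N), Function.Injective e →
        (J + 2) * b < ((Finset.univ.image e) \ Sat').card := by
      intro e he
      have h1 := Finset.le_card_sdiff Sat' (Finset.univ.image e)
      rw [Finset.card_image_of_injective _ he, Finset.card_univ, Fintype.card_fin] at h1
      omega
    rintro (i | i)
    · exact h3 _ (Fin.castAdd_injective N N)
    · exact h3 _ (Fin.natAdd_injective N N)
  obtain ⟨f, hf1, hf2⟩ := choose_far hsymm hnear T hT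
  have hfA : ∀ i : Bool, ∃ a : Fin N, f (.inl i) = Fin.castAdd N a ∧ deg S M (f (.inl i)) < Δ := by
    intro i
    have h := hf1 (.inl i)
    change f (.inl i) ∈ (Finset.univ.image (Fin.castAdd N)) \ Sat' at h
    rw [Finset.mem_sdiff, Finset.mem_image, hSat, Finset.mem_filter] at h
    obtain ⟨⟨a, _, ha⟩, h2⟩ := h
    refine ⟨a, ha.symm, ?_⟩
    by_contra h3
    exact h2 ⟨Finset.mem_univ _, by omega⟩
  have hfB : ∀ i : Fin J, ∃ a : Fin N, f (.inr i) = Fin.natAdd N a ∧ deg S M (f (.inr i)) < Δ := by
    intro i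
    have h := hf1 (.inr i)
    change f (.inr i) ∈ (Finset.univ.image (Fin.natAdd N)) \ Sat' at h
    rw [Finset.mem_sdiff, Finset.mem_image, hSat, Finset.mem_filter] at h
    obtain ⟨⟨a, _, ha⟩, h2⟩ := h
    refine ⟨a, ha.symm, ?_⟩
    by_contra h3
    exact h2 ⟨Finset.mem_univ _, by omega⟩
  choose a ha1 ha2 using hfA
  choose c hc1 hc2 using hfB
  have hdiff : ∀ i j, i ≠ j → f i ≠ f j := by
    intro i j hij h
    apply hf2 i j hij
    rw [h]
    exact ⟨SimpleGraph.Walk.nil, Nat.zero_le _⟩
  let S' : Sys N J ℕ :=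
    { x := fun k => if k = M then a true else S.x k
      y := fun k => if k = M then a false else S.y k
      b := fun k => if k = M then c else S.b k }
  have hS'M : ∀ v, S'.mem v M ↔ ∃ i, v = f i := by
    intro v
    simp only [Sys.mem, S', if_true]
    constructor
    · rintro (h | h | ⟨j, h⟩)
      · exact ⟨.inl true, by rw [h, ha1]⟩
      · exact ⟨.inl false, by rw [h, ha1]⟩
      · exact ⟨.inr j, by rw [h, hc1]⟩
    · rintro ⟨i | j, h⟩
      · cases i
        · exact Or.inr (Or.inl (by rw [h, ha1]))
        · exact Or.inl (by rw [h, ha1])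
      · exact Or.inr (Or.inr ⟨j, by rw [h, hc1]⟩)
  have hS'k : ∀ k < M, ∀ v, S'.mem v k ↔ S.mem v k := by
    intro k hk v
    have : k ≠ M := by omega
    simp only [Sys.mem, S', if_neg this]
  refine ⟨S', ?_, ?_, ?_, ?_⟩
  · intro k hk
    by_cases h : k = M
    · simp only [S', if_pos h]
      intro h2
      apply hdiff (.inl true) (.inl false) (by simp)
      rw [ha1, ha1, h2]
    · simp only [S', if_neg h]
      exact hne k (by omega)
  · intro k hk
    by_cases h : k = M
    · simp only [S', if_pos h]
      intro i j hij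
      by_contra hne
      apply hdiff (.inr i) (.inr j) (by simpa using hne)
      rw [hc1, hc1, hij]
    · simp only [S', if_neg h]
      exact hinj k (by omega)
  · refine LU.add (I := bip (rel S M)) (c := .inr M) hLU ?_ ?_
    · have h1 : ∀ v k, rel S' (M + 1) v k → k ≠ M → rel S M v k := by
        intro v k hk hkM
        have h2 : k < M := by have := hk.1; omega
        exact ⟨h2, (hS'k k h2 v).1 hk.2⟩
      rintro (v | k) (v' | k') h h2 h3
      · exact h
      · exact h1 v k' h (fun h' => h3 (by rw [h']))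
      · exact h1 v' k h (fun h' => h2 (by rw [h']))
      · exact h
    · have h1 : ∀ z, (bip (rel S' (M + 1))).Adj (.inr M) z → ∃ i, z = .inl (f i) := by
        rintro (v | k) h
        · rw [bip_rl] at h
          obtain ⟨i, hi⟩ := (hS'M v).1 h.2
          exact ⟨i, by rw [hi]⟩
        · exact absurd h (fun h => h)
      intro z z' hz hz' hzz w
      obtain ⟨i, rfl⟩ := h1 z hz
      obtain ⟨j, rfl⟩ := h1 z' hz'
      by_contra hlt
      exact hf2 i j (fun h => hzz (by rw [h])) ⟨w, by omega⟩
  · intro v
    have h1 : (Finset.range (M + 1)).filter (fun k => S'.mem v k) ⊆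
        ((Finset.range M).filter (fun k => S.mem v k)) ∪
          (if ∃ i, v = f i then {M} else ∅) := by
      intro k hk
      rw [Finset.mem_filter, Finset.mem_range] at hk
      rw [Finset.mem_union]
      by_cases h : k = M
      · right
        subst h
        rw [if_pos ((hS'M v).1 hk.2)]
        exact Finset.mem_singleton_self k
      · left
        have h2 : k < M := by omega
        exact Finset.mem_filter.2 ⟨Finset.mem_range.2 h2, (hS'k k h2 v).1 hk.2⟩
    have h2 := (Finset.card_le_card h1).trans (Finset.card_union_le _ _)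
    change (Finset.filter (fun k => S'.mem v k) (Finset.range (M + 1))).card ≤ Δ
    have h3 := hdeg v
    by_cases h : ∃ i, v = f i
    · rw [if_pos h, Finset.card_singleton] at h2
      obtain ⟨i, rfl⟩ := h
      have h4 : deg S M (f i) < Δ := by
        cases i with
        | inl i => exact ha2 i
        | inr i => exact hc2 i
      have h5 : deg S M (f i) = (Finset.filter (fun k => S.mem (f i) k) (Finset.range M)).card :=
        rfl
      omega
    · rw [if_neg h, Finset.card_empty] at h2
      have h5 : deg S M v = (Finset.filter (fun k => S.mem v k) (Finset.range M)).card := rfl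
      omega

/-- Existence of dense systems of large girth. -/
theorem build (J C g : ℕ) : ∃ s₀, ∀ s ≥ s₀, ∃ (β : Type) (_ : Fintype β) (S : Sys (2 ^ s) J β),
    S.Nice g ∧ C * s * 2 ^ s ≤ Fintype.card β := by
  set c := (2 * (C + 1) * (J + 2) + (J + 2) + 1) with hc
  obtain ⟨s₀, hs₀⟩ := growth (2 * ((J + 2) * c ^ (2 * g))) (2 * g)
  refine ⟨max 1 s₀, fun s hs => ?_⟩
  have hs1 : 1 ≤ s := (le_max_left _ _).trans hs
  have hs2 := hs₀ s ((le_max_right _ _).trans hs)
  have hN : 1 ≤ 2 ^ s := Nat.one_le_two_pow
  set N := 2 ^ s with hNdef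
  set Δ := 2 * (C + 1) * (J + 2) * s with hΔ
  have hΔ0 : 0 < Δ := by positivity
  have hΔc : Δ + (J + 2) + 1 ≤ c * s := by
    rw [hΔ, hc, add_mul, add_mul, one_mul]
    have : (J + 2) ≤ (J + 2) * s := Nat.le_mul_of_pos_right _ (by omega)
    omega
  have hb : 2 * ((J + 2) * (c * s) ^ (2 * g)) < N := by
    calc 2 * ((J + 2) * (c * s) ^ (2 * g)) = 2 * ((J + 2) * c ^ (2 * g)) * s ^ (2 * g) := by
          rw [mul_pow]; ring
      _ < N := hs2
  have key : ∀ M ≤ C * s * N, ∃ S : Sys N J ℕ, (∀ k < M, S.x k ≠ S.y k) ∧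
      (∀ k < M, Function.Injective (S.b k)) ∧ LU (bip (rel S M)) g ∧ ∀ v, deg S M v ≤ Δ := by
    intro M
    induction M with
    | zero =>
      intro _
      have z : Fin N := ⟨0, by omega⟩
      refine ⟨⟨fun _ => z, fun _ => z, fun _ _ => z⟩, by simp, by simp, ?_, ?_⟩
      · intro x y p q hp hq _ _
        have hno : ∀ (x y : Fin (N + N) ⊕ ℕ), ¬ (bip (rel
            (⟨fun _ => z, fun _ => z, fun _ _ => z⟩ : Sys N J ℕ) 0)).Adj x y := by
          rintro (v | k) (v' | k') h
          · exact h
          · exact absurd h.1 (Nat.not_lt_zero _)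
          · exact absurd h.1 (Nat.not_lt_zero _)
          · exact h
        cases p with
        | nil =>
          cases q with
          | nil => rfl
          | cons h _ => exact absurd h (hno _ _)
        | cons h _ => exact absurd h (hno _ _)
      · intro v
        simp [deg]
    | succ M ih =>
      intro hM
      obtain ⟨S, h1, h2, h3, h4⟩ := ih (by omega)
      refine build_step (b := (c * s) ^ (2 * g)) S M h1 h2 h3 h4
        (Nat.pow_le_pow_left hΔc _) hb ?_ hΔ0
      calc 2 * (M * (J + 2)) ≤ 2 * ((C * s * N) * (J + 2)) :=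
            Nat.mul_le_mul_left _ (Nat.mul_le_mul_right _ (by omega))
        _ ≤ 2 * (((C + 1) * s * N) * (J + 2)) := by
            refine Nat.mul_le_mul_left _ (Nat.mul_le_mul_right _ (Nat.mul_le_mul_right _
              (Nat.mul_le_mul_right _ (by omega))))
        _ = Δ * N := by rw [hΔ]; ring
  obtain ⟨S, h1, h2, h3, _⟩ := key (C * s * N) le_rfl
  refine ⟨Fin (C * s * N), inferInstance,
    ⟨fun k => S.x k, fun k => S.y k, fun k => S.b k⟩, ⟨fun k => h1 k k.2, fun k => h2 k k.2, ?_⟩,
    by rw [Fintype.card_fin]⟩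
  let φ : (bip (Sys.mem (⟨fun k => S.x k, fun k => S.y k, fun k => S.b k⟩ :
      Sys N J (Fin (C * s * N))))) →g (bip (rel S (C * s * N))) :=
    { toFun := Sum.map id Fin.val
      map_rel' := by
        rintro (v | k) (v' | k') h
        · exact h
        · exact ⟨k'.2, h⟩
        · exact ⟨k.2, h⟩
        · exact h }
  refine LU.of_hom φ ?_ h3
  exact Function.Injective.sumMap Function.injective_id Fin.val_injective

end Pool.Agent.H71.MT
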