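import Mathlib

set_option autoImplicit false

/-!
# First-order logic with modulo-counting quantifiers, and transductions of graph classes
-/

namespace Pool.Agent.H71.MT

/-- Formulas of first-order logic with modulo-counting quantifiers, over one binary relation and
`m` unary predicates; variables are natural numbers. -/
inductive Fml (m : ℕ) : Type
  | eq : ℕ → ℕ → Fml m
  | edge : ℕ → ℕ → Fml m
  | col : Fin m → ℕ → Fml m
  | neg : Fml m → Fml m
  | conj : Fml m → Fml m → Fml m
  | ex : ℕ → Fml m → Fml m
  | modEx : ℕ → ℕ → ℕ → Fml m → Fml m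

/-- Satisfaction in the graph `G` with the unary predicates `P`, under the assignment `v`.
`modEx a b i φ` says that the number of witnesses for the variable `i` is `a` modulo `b`. -/
def Sat {m : ℕ} {V : Type} (G : SimpleGraph V) (P : Fin m → Set V) : Fml m → (ℕ → V) → Prop
  | .eq i j, v => v i = v j
  | .edge i j, v => G.Adj (v i) (v j)
  | .col k i, v => v i ∈ P k
  | .neg φ, v => ¬ Sat G P φ v
  | .conj φ ψ, v => Sat G P φ v ∧ Sat G P ψ v
  | .ex i φ, v => ∃ x, Sat G P φ (Function.update v i x)
  | .modEx a b i φ, v => {x | Sat G P φ (Function.update v i x)}.ncard ≡ a [MOD b]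

/-- First-order formulas: no modulo-counting quantifiers. -/
def IsFO {m : ℕ} : Fml m → Prop
  | .eq _ _ => True
  | .edge _ _ => True
  | .col _ _ => True
  | .neg φ => IsFO φ
  | .conj φ ψ => IsFO φ ∧ IsFO ψ
  | .ex _ φ => IsFO φ
  | .modEx _ _ _ _ => False

/-- Formulas of FO+MOD: the modulo-counting quantifiers `a mod b` satisfy `a < b`. -/
def IsFOMod {m : ℕ} : Fml m → Prop
  | .eq _ _ => True
  | .edge _ _ => True
  | .col _ _ => True
  | .neg φ => IsFOMod φ
  | .conj φ ψ => IsFOMod φ ∧ IsFOMod ψ
  | .ex _ φ => IsFOMod φ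
  | .modEx a b _ φ => a < b ∧ IsFOMod φ

/-- A transduction: a number of colours, a formula for the vertices and a formula for the edges. -/
structure Transd where
  m : ℕ
  ν : Fml m
  η : Fml m

/-- The assignment sending the variable `0` to `x` and all other variables to `y`. -/
def asg {V : Type} (x y : V) : ℕ → V := fun i => if i = 0 then x else y

/-- The output of the transduction `T` on the graph `G` coloured by `P`. -/
def Transd.out {V : Type} (T : Transd) (G : SimpleGraph V) (P : Fin T.m → Set V) :
    SimpleGraph {v : V // Sat G P T.ν (asg v v)} where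
  Adj u v := u ≠ v ∧ Sat G P T.η (asg u.1 v.1) ∧ Sat G P T.η (asg v.1 u.1)
  symm := ⟨fun _ _ h => ⟨h.1.symm, h.2.2, h.2.1⟩⟩
  loopless := ⟨fun _ h => h.1 rfl⟩

/-- A class of finite graphs. -/
abbrev GraphClass : Type := Set (Σ n : ℕ, SimpleGraph (Fin n))

/-- `T` produces (up to isomorphism) every graph of the class `D` from some coloured graph of the
class `C`. -/
def Transd.Produces (T : Transd) (C D : GraphClass) : Prop :=
  ∀ H ∈ D, ∃ G ∈ C, ∃ P : Fin T.m → Set (Fin G.1), Nonempty (H.2 ≃g T.out G.2 P)

end Pool.Agent.H71.MT
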