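import Pool.Agent.H71.MT.Types

set_option autoImplicit false

/-!
# The back-and-forth argument
-/

noncomputable section

namespace Pool.Agent.H71.MT

variable {U U' C : Type} {ι κ : Type} {I : SimpleGraph U} {I' : SimpleGraph U'} {col : U → C}
  {col' : U' → C} {Q : ℕ} {ρ L g : ℕ}

/-- positions obtained from a base position by adding vertices at distance at most `D` -/
structure GoodPos (I : SimpleGraph U) (I' : SimpleGraph U') (col : U → C)
    (col' : U' → C) (Q : ℕ) (a₀ : ι → U) (b₀ : ι → U') (D : ℕ) (ρ L : ℕ) {κ : Type}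
    (a : κ → U) (b : κ → U') (δ : κ → ℕ) : Prop where
  pos : Pos I I' col col' Q a b δ ρ L
  base : ∀ i, ∃ k, a k = a₀ i ∧ b k = b₀ i
  spec : ∀ k n, Rch I (Set.range a₀) n (a k) ↔ δ k ≤ n
  rch' : ∀ k, Rch I' (Set.range b₀) (δ k) (b k)
  δ_le : ∀ k, δ k ≤ D

theorem GoodPos.init {a₀ : ι → U} {b₀ : ι → U'} {D : ℕ}
    (h : Pos I I' col col' Q a₀ b₀ (fun _ => 0) ρ L) :
    GoodPos I I' col col' Q a₀ b₀ D ρ L a₀ b₀ (fun _ => 0) :=
  ⟨h, fun i => ⟨i, rfl, rfl⟩,
    fun k n => ⟨fun _ => Nat.zero_le _, fun _ => Rch.of_mem n (Set.mem_range_self k)⟩,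
    fun k => Rch.of_mem 0 (Set.mem_range_self k), fun _ => Nat.zero_le _⟩

theorem ext_reach [Finite U] [Finite U'] {a₀ : ι → U} {b₀ : ι → U'} {D : ℕ}
    (hLU : LU I g) (hLU' : LU I' g) (hg : ρ ≤ g) (hρ : 2 + 2 * D ≤ ρ) (hL : D ≤ L) (d : ℕ) :
    d ≤ D → ∀ z, Rch I (Set.range a₀) d z → ∀ {κ : Type} [Finite κ] (a : κ → U) (b : κ → U')
      (δ : κ → ℕ), GoodPos I I' col col' Q a₀ b₀ D ρ L a b δ → Nat.card κ + d + 1 ≤ Q →
    ∃ (κ' : Type) (_ : Finite κ') (a' : κ' → U) (b' : κ' → U') (δ' : κ' → ℕ) (e : κ → κ'),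
      GoodPos I I' col col' Q a₀ b₀ D ρ L a' b' δ' ∧ (∀ k, a' (e k) = a k ∧ b' (e k) = b k) ∧
      (∃ k', a' k' = z) ∧ Nat.card κ' ≤ Nat.card κ + d := by
  induction d with
  | zero =>
    intro _ z hz κ _ a b δ hG hQ
    obtain ⟨i, rfl⟩ := Rch.zero.1 hz
    obtain ⟨k, hk, _⟩ := hG.base i
    exact ⟨κ, inferInstance, a, b, δ, id, hG, fun k => ⟨rfl, rfl⟩, ⟨k, hk⟩, by omega⟩
  | succ d ih =>
    intro hd z hz κ _ a b δ hG hQ
    by_cases hzd : Rch I (Set.range a₀) d z
    · obtain ⟨κ', h1, a', b', δ', e, h2, h3, h4, h5⟩ := ih (by omega) z hzd a b δ hG (by omega)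
      exact ⟨κ', h1, a', b', δ', e, h2, h3, h4, by omega⟩
    · rcases hz.succ with h | ⟨y, hy, hyz⟩
      · exact absurd h hzd
      obtain ⟨κ', h1, a', b', δ', e, h2, h3, ⟨k₁, hk₁⟩, h5⟩ := ih (by omega) y hy a b δ hG (by omega)
      by_cases hex : ∃ k, a' k = z
      · exact ⟨κ', h1, a', b', δ', e, h2, h3, hex, by omega⟩
      push Not at hex
      have hδ : δ' k₁ ≤ d := (h2.spec k₁ d).1 (by rw [hk₁]; exact hy)
      have hadj : I.Adj (a' k₁) z := by rw [hk₁]; exact hyz
      have hr1 : Rch I (Set.range a₀) (δ' k₁) (a' k₁) := (h2.spec k₁ _).2 le_rfl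
      obtain ⟨y', hy', hpos⟩ := h2.pos.step hLU hLU' hg (by omega) h2.δ_le hρ (by omega)
        hex hadj (by omega) (fun k hk => (h2.spec k _).1 (hr1.adj hk))
      refine ⟨Option κ', inferInstance, _, _, _, fun k => some (e k),
        ⟨hpos, ?_, ?_, ?_, ?_⟩, fun k => h3 k, ⟨none, rfl⟩, ?_⟩
      · intro i
        obtain ⟨k, hk⟩ := h2.base i
        exact ⟨some k, hk⟩
      · intro o n
        cases o with
        | none =>
          constructor
          · intro h
            by_contra hcon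
            have h6 : ¬ δ' k₁ + 1 ≤ n := hcon
            exact hzd (h.mono (by omega))
          · intro h
            have h6 : δ' k₁ + 1 ≤ n := h
            exact (hr1.adj hadj).mono h6
        | some k => exact h2.spec k n
      · intro o
        cases o with
        | none => exact (h2.rch' k₁).adj hy'
        | some k => exact h2.rch' k
      · intro o
        cases o with
        | none =>
          change δ' k₁ + 1 ≤ D
          omega
        | some k => exact h2.δ_le k
      · rw [Finite.card_option]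
        omega

theorem ext_many [Finite U] [Finite U'] {a₀ : ι → U} {b₀ : ι → U'} {D : ℕ}
    (hLU : LU I g) (hLU' : LU I' g) (hg : ρ ≤ g) (hρ : 2 + 2 * D ≤ ρ) (hL : D ≤ L)
    (Y : Finset U) : (∀ z ∈ Y, Rch I (Set.range a₀) D z) →
      ∀ {κ : Type} [Finite κ] (a : κ → U) (b : κ → U')
      (δ : κ → ℕ), GoodPos I I' col col' Q a₀ b₀ D ρ L a b δ → Nat.card κ + Y.card * D + 1 ≤ Q →
    ∃ (κ' : Type) (_ : Finite κ') (a' : κ' → U) (b' : κ' → U') (δ' : κ' → ℕ),
      GoodPos I I' col col' Q a₀ b₀ D ρ L a' b' δ' ∧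
      (∀ z ∈ Y, ∃ k', a' k' = z) ∧ (∀ k, ∃ k', a' k' = a k) ∧
      Nat.card κ' ≤ Nat.card κ + Y.card * D := by
  classical
  induction Y using Finset.induction_on with
  | empty =>
    intro _ κ _ a b δ hG hQ
    exact ⟨κ, inferInstance, a, b, δ, hG, fun z hz => absurd hz (Finset.notMem_empty z),
      fun k => ⟨k, rfl⟩, by omega⟩
  | insert y Y hy ih =>
    intro hY κ _ a b δ hG hQ
    rw [Finset.card_insert_of_notMem hy, add_mul, one_mul] at hQ ⊢
    obtain ⟨κ', h1, a', b', δ', h2, h3, h4, h5⟩ := ih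
      (fun z hz => hY z (Finset.mem_insert_of_mem hz)) a b δ hG (by omega)
    obtain ⟨κ'', h1'', a'', b'', δ'', e, h2'', h3'', h4'', h5''⟩ :=
      ext_reach hLU hLU' hg hρ hL D le_rfl y (hY y (Finset.mem_insert_self y Y)) a' b' δ' h2
        (by omega)
    refine ⟨κ'', h1'', a'', b'', δ'', h2'', ?_, ?_, by omega⟩
    · intro z hz
      rcases Finset.mem_insert.1 hz with rfl | hz
      · exact h4''
      · obtain ⟨k', hk'⟩ := h3 z hz
        exact ⟨e k', by rw [(h3'' k').1, hk']⟩
    · intro k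
      obtain ⟨k', hk'⟩ := h4 k
      exact ⟨e k', by rw [(h3'' k').1, hk']⟩

theorem Pos.map_walk {a : κ → U} {b : κ → U'} {δ : κ → ℕ} (h : Pos I I' col col' Q a b δ ρ L)
    {x y : U} (w : I.Walk x y) : (∀ z ∈ w.support, ∃ k, a k = z) → ∀ i j, a i = x → a j = y →
    ∃ w' : I'.Walk (b i) (b j), w'.length = w.length := by
  induction w with
  | nil =>
    intro _ i j hi hj
    have : b i = b j := (h.eq_iff i j).1 (by rw [hi, hj])
    rw [this]
    exact ⟨SimpleGraph.Walk.nil, rfl⟩
  | cons hadj p ih =>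
    intro hs i j hi hj
    rename_i u v w'
    obtain ⟨k, hk⟩ := hs v (by simp)
    obtain ⟨q, hq⟩ := ih (fun z hz => hs z (by simp [hz])) k j hk hj
    have h1 : I'.Adj (b i) (b k) := (h.adj_iff i k).1 (by rw [hi, hk]; exact hadj)
    exact ⟨SimpleGraph.Walk.cons h1 q, by simp [hq]⟩

/-- there is a scattered set of size `n` of vertices of type `t` -/
def Scat (I : SimpleGraph U) (col : U → C) (Q l r n : ℕ) (t : Ty C Q l) : Prop :=
  ∃ Y : Finset U, Y.card = n ∧ (∀ y ∈ Y, tau I col Q l y = t) ∧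
    ∀ y ∈ Y, ∀ z ∈ Y, y ≠ z → ∀ w : I.Walk y z, 2 * r < w.length

theorem far_case [Finite U] [Finite U'] [Finite ι] {a : ι → U} {b : ι → U'} {r l : ℕ}
    (h : Pos I I' col col' Q a b (fun _ => 0) ρ L) (hLU : LU I g) (hLU' : LU I' g) (hg : ρ ≤ g)
    (hρ : 2 + 4 * r ≤ ρ) (hL : l + r ≤ L) (hQ : Nat.card ι + Nat.card ι * r + 1 ≤ Q)
    (hglob : ∀ (t : Ty C Q l) (n : ℕ), n ≤ Q → (Scat I col Q l r n t ↔ Scat I' col' Q l r n t))
    (x : U) (hx : ¬ Rch I (Set.range a) (3 * r) x) :
    ∃ y' : U', tau I col Q l x = tau I' col' Q l y' ∧ ¬ Rch I' (Set.range b) r y' := by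
  classical
  by_contra hcon
  push Not at hcon
  set t := tau I col Q l x with ht
  -- maximal scattered sets
  have hs1 : ¬ Scat I' col' Q l r (Nat.card ι + 1) t := by
    rintro ⟨Y, hY1, hY2, hY3⟩
    have hr : ∀ y ∈ Y, ∃ i, ∃ w : I'.Walk (b i) y, w.length ≤ r := by
      intro y hy
      obtain ⟨s, ⟨i, rfl⟩, w, hw⟩ := hcon y (hY2 y hy).symm
      exact ⟨i, w, hw⟩
    have hne : Nonempty ι := by
      have hpos : 0 < Y.card := by omega
      obtain ⟨y, hy⟩ := Finset.card_pos.1 hpos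
      exact ⟨(hr y hy).choose⟩
    choose! f hf using hr
    have hinj : Set.InjOn f Y := by
      intro y hy z hz hyz
      by_contra hne
      obtain ⟨w1, hw1⟩ := hf y hy
      have hfz := hf z hz
      rw [← hyz] at hfz
      obtain ⟨w2, hw2⟩ := hfz
      have := hY3 y hy z hz hne (w1.reverse.append w2)
      rw [SimpleGraph.Walk.length_append, SimpleGraph.Walk.length_reverse] at this
      omega
    have hle : Y.card ≤ Nat.card ι := by
      have := Set.ncard_le_card (f '' (Y : Set U'))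
      rw [hinj.ncard_image, Set.ncard_coe_finset] at this
      exact this
    omega
  have hs0 : Scat I' col' Q l r 0 t := ⟨∅, rfl, by simp, by simp⟩
  obtain ⟨n, hn1, hn2, hn3⟩ : ∃ n ≤ Nat.card ι, Scat I' col' Q l r n t ∧
      ¬ Scat I' col' Q l r (n + 1) t := by
    have hex : ∃ n, ¬ Scat I' col' Q l r (n + 1) t := ⟨_, hs1⟩
    refine ⟨Nat.find hex, Nat.find_min' hex hs1, ?_, Nat.find_spec hex⟩
    rcases Nat.eq_zero_or_pos (Nat.find hex) with h0 | h0
    · rw [h0]; exact hs0
    · have := Nat.find_min hex (m := Nat.find hex - 1) (by omega)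
      rw [not_not] at this
      rwa [Nat.sub_add_cancel h0] at this
  have hn3' : ¬ Scat I col Q l r (n + 1) t := by
    rw [hglob t (n + 1) (by
      have : Nat.card ι * r ≥ 0 := Nat.zero_le _
      omega)]
    exact hn3
  obtain ⟨Y', hY1, hY2, hY3⟩ := hn2
  have hQ2 : Nat.card ι + Y'.card * r + 1 ≤ Q := by
    rw [hY1]
    have : n * r ≤ Nat.card ι * r := Nat.mul_le_mul_right r hn1
    omega
  obtain ⟨κ, _, b', a', δ', hG, hG2, _, _⟩ := ext_many (D := r) hLU' hLU hg (by omega) (by omega) Y'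
    (fun z hz => hcon z (hY2 z hz).symm) b a (fun _ => 0) (GoodPos.init h.symm) hQ2
  rcases Y'.eq_empty_or_nonempty with hY0 | hY0
  · apply hn3'
    refine ⟨{x}, ?_, ?_, ?_⟩
    · rw [← hY1, hY0]; simp
    · intro y hy
      rw [Finset.mem_singleton.1 hy]
    · intro y hy z hz hne
      exact absurd ((Finset.mem_singleton.1 hy).trans (Finset.mem_singleton.1 hz).symm) hne
  have hneκ : Nonempty κ := by
    obtain ⟨y, hy⟩ := hY0
    exact ⟨(hG2 y hy).choose⟩
  choose! f hf using hG2
  have hinj : ∀ y ∈ Y', ∀ z ∈ Y', a' (f y) = a' (f z) → y = z := by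
    intro y hy z hz hyz
    rw [← hf y hy, ← hf z hz]
    exact (hG.pos.eq_iff _ _).2 hyz
  have hfar : ∀ y ∈ Y', ∀ w : I.Walk x (a' (f y)), 2 * r < w.length := by
    intro y hy w
    by_contra hlt
    apply hx
    have h1 := (hG.rch' (f y)).mono (hG.δ_le (f y))
    refine (h1.walk w.reverse).mono ?_
    rw [SimpleGraph.Walk.length_reverse]
    omega
  apply hn3'
  refine ⟨insert x (Y'.image (fun y => a' (f y))), ?_, ?_, ?_⟩
  · rw [Finset.card_insert_of_notMem, Finset.card_image_of_injOn]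
    · rw [hY1]
    · intro y hy z hz hyz
      exact hinj y hy z hz hyz
    · intro hxY
      obtain ⟨y, hy, hyx⟩ := Finset.mem_image.1 hxY
      have := hfar y hy ((SimpleGraph.Walk.nil : I.Walk x x).copy rfl hyx.symm)
      simp at this
  · intro z hz
    rcases Finset.mem_insert.1 hz with rfl | hz
    · rfl
    · obtain ⟨y, hy, rfl⟩ := Finset.mem_image.1 hz
      have h1 := hG.pos.ty (f y)
      have h2 := hG.δ_le (f y)
      have h3 : tau I' col' Q l (b' (f y)) = tau I col Q l (a' (f y)) :=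
        tau_mono (by omega) h1
      rw [← h3, hf y hy]
      exact hY2 y hy
  · have key : ∀ y ∈ Y', ∀ z ∈ Y', y ≠ z → ∀ w : I.Walk (a' (f y)) (a' (f z)),
        2 * r < w.length := by
      intro y hy z hz hne w
      by_contra hlt
      have hb1 := w.length_bypass_le_length
      have h2 := hG.δ_le (f y)
      have h3 := hG.δ_le (f z)
      obtain ⟨w', hw'⟩ := hG.pos.symm.map_walk w.bypass
        (hG.pos.cl' (f y) (f z) w.bypass w.bypass_isPath (by omega)) (f y) (f z) rfl rfl
      have h4 := hY3 y hy z hz hne (w'.copy (hf y hy) (hf z hz))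
      rw [SimpleGraph.Walk.length_copy] at h4
      omega
    intro y hy z hz hne w
    rcases Finset.mem_insert.1 hy with rfl | hy
    · rcases Finset.mem_insert.1 hz with rfl | hz
      · exact absurd rfl hne
      · obtain ⟨z', hz', rfl⟩ := Finset.mem_image.1 hz
        exact hfar z' hz' w
    · obtain ⟨y', hy', rfl⟩ := Finset.mem_image.1 hy
      rcases Finset.mem_insert.1 hz with rfl | hz
      · have := hfar y' hy' w.reverse
        rwa [SimpleGraph.Walk.length_reverse] at this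
      · obtain ⟨z', hz', rfl⟩ := Finset.mem_image.1 hz
        exact key y' hy' z' hz' (fun h => hne (by rw [h])) w

/-! ### The game for formulas -/

/-- radii -/
def rho : ℕ → ℕ
  | 0 => 2
  | k + 1 => 7 * rho k

/-- levels -/
def lev : ℕ → ℕ
  | 0 => 0
  | k + 1 => lev k + 3 * rho k

/-- sizes -/
def siz : ℕ → ℕ → ℕ
  | 0, s => s
  | k + 1, s => max (s + s * rho k + 3 * rho k + 1) (siz k (s + 3 * rho k + 1))

theorem two_le_rho (k : ℕ) : 2 ≤ rho k := by
  induction k with
  | zero => exact le_rfl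
  | succ k ih => rw [rho]; omega

theorem siz_mono (k : ℕ) : ∀ {s s' : ℕ}, s ≤ s' → siz k s ≤ siz k s' := by
  induction k with
  | zero => intro s s' h; exact h
  | succ k ih =>
    intro s s' h
    rw [siz, siz]
    refine max_le_max ?_ (ih (by omega))
    have := Nat.mul_le_mul_right (rho k) h
    omega

variable {V V' B B' : Type} {m : ℕ}

/-- the graph on `V` defined by an incidence graph -/
def graphOf (I : SimpleGraph (V ⊕ B)) : SimpleGraph V where
  Adj x y := x ≠ y ∧ ∃ β, I.Adj (.inl x) (.inr β) ∧ I.Adj (.inl y) (.inr β)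
  symm := ⟨fun _ _ h => ⟨h.1.symm, h.2.imp fun _ hβ => ⟨hβ.2, hβ.1⟩⟩⟩
  loopless := ⟨fun _ h => h.1 rfl⟩

/-- the colouring of the incidence graph -/
def colOf (P : Fin m → Set V) : V ⊕ B → Option (Set (Fin m))
  | .inl x => some {k | x ∈ P k}
  | .inr _ => none

/-- quantifier rank -/
def rank : Fml m → ℕ
  | .eq _ _ => 0
  | .edge _ _ => 0
  | .col _ _ => 0
  | .neg φ => rank φ
  | .conj φ ψ => max (rank φ) (rank ψ)
  | .ex _ φ => rank φ + 1
  | .modEx _ _ _ _ => 0

/-- agreement on scattered sets -/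
def Glob (I : SimpleGraph U) (I' : SimpleGraph U') (col : U → C) (col' : U' → C)
    (Q k : ℕ) : Prop :=
  ∀ j < k, ∀ (t : Ty C Q (lev j)) (n : ℕ), n ≤ Q →
    (Scat I col Q (lev j) (rho j) n t ↔ Scat I' col' Q (lev j) (rho j) n t)

theorem Glob.symm {k : ℕ} (h : Glob I I' col col' Q k) : Glob I' I col' col Q k :=
  fun j hj t n hn => (h j hj t n hn).symm

theorem Pos.addFar {a : ι → U} {b : ι → U'} (h : Pos I I' col col' Q a b (fun _ => 0) ρ L)
    {r l : ℕ} (hr : r ≤ ρ) (hl : l ≤ L) (hr1 : 1 ≤ r) {x : U} {y' : U'}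
    (hx : ¬ Rch I (Set.range a) r x) (hy : ¬ Rch I' (Set.range b) r y')
    (hxy : tau I col Q l x = tau I' col' Q l y') :
    Pos I I' col col' Q (fun o : Option ι => o.elim x a) (fun o => o.elim y' b)
      (fun _ => 0) r l := by
  have hax : ∀ k, a k ≠ x := fun k hk => hx (Rch.of_mem r ⟨k, hk⟩)
  have hby : ∀ k, b k ≠ y' := fun k hk => hy (Rch.of_mem r ⟨k, hk⟩)
  have haj : ∀ k, ¬ I.Adj (a k) x := fun k hk =>
    hx (((Rch.of_mem 0 (Set.mem_range_self k)).adj hk).mono (by omega))
  have hbj : ∀ k, ¬ I'.Adj (b k) y' := fun k hk =>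
    hy (((Rch.of_mem 0 (Set.mem_range_self k)).adj hk).mono (by omega))
  have cl : ∀ {W : Type} {J : SimpleGraph W} {c : ι → W} {z : W}
      (_ : Clo J c (fun _ => 0) ρ) (_ : ¬ Rch J (Set.range c) r z),
      Clo J (fun o : Option ι => o.elim z c) (fun _ => 0) r := by
    intro W J c z h1 h2
    have k1 : ∀ (p : J.Walk z z), p.IsPath → ∀ v ∈ p.support, v = z := by
      intro p hp v hv
      have h1 : p = SimpleGraph.Walk.nil := SimpleGraph.Walk.isPath_iff_eq_nil.1 hp
      rw [h1] at hv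
      simpa using hv
    have k2 : ∀ k (p : J.Walk (c k) z), ¬ p.length ≤ r := fun k p hp => h2 ⟨_, ⟨k, rfl⟩, p, hp⟩
    have k3 : ∀ k (p : J.Walk z (c k)), ¬ p.length ≤ r := fun k p hp =>
      k2 k p.reverse (by rw [SimpleGraph.Walk.length_reverse]; exact hp)
    have k4 : ∀ k k' (p : J.Walk (c k) (c k')), p.IsPath → p.length ≤ r → ∀ v ∈ p.support,
        ∃ o : Option ι, o.elim z c = v := by
      intro k k' p hp hl v hv
      obtain ⟨k'', hk''⟩ := h1 k k' p hp (by simp only [add_zero]; omega) v hv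
      exact ⟨some k'', hk''⟩
    intro o1 o2 p hp hlen v hv
    cases o1 with
    | none =>
      cases o2 with
      | none => exact ⟨none, (k1 p hp v hv).symm⟩
      | some k => exact absurd hlen (k3 k p)
    | some k =>
      cases o2 with
      | none => exact absurd hlen (k2 k p)
      | some k' => exact k4 k k' p hp hlen v hv
  refine ⟨?_, ?_, ?_, cl h.cl hx, cl h.cl' hy⟩
  · intro o1 o2
    cases o1 with
    | none =>
      cases o2 with
      | none => exact ⟨fun _ => rfl, fun _ => rfl⟩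
      | some k => exact ⟨fun h => absurd h.symm (hax k), fun h => absurd h.symm (hby k)⟩
    | some k =>
      cases o2 with
      | none => exact ⟨fun h => absurd h (hax k), fun h => absurd h (hby k)⟩
      | some k' => exact h.eq_iff k k'
  · intro o1 o2
    cases o1 with
    | none =>
      cases o2 with
      | none => exact ⟨fun h => absurd h (I.loopless.irrefl _), fun h => absurd h (I'.loopless.irrefl _)⟩
      | some k => exact ⟨fun h => absurd h.symm (haj k), fun h => absurd h.symm (hbj k)⟩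
    | some k =>
      cases o2 with
      | none => exact ⟨fun h => absurd h (haj k), fun h => absurd h (hbj k)⟩
      | some k' => exact h.adj_iff k k'
  · intro o
    cases o with
    | none => exact hxy
    | some k => exact tau_mono (by simpa using hl) (h.ty k)

theorem col_eq {P : Fin m → Set V} {P' : Fin m → Set V'} {x : V} {z : V' ⊕ B'}
    (h : (colOf P (.inl x : V ⊕ B)) = colOf P' z) : ∃ x', z = .inl x' := by
  cases z with
  | inl x' => exact ⟨x', rfl⟩
  | inr β => simp [colOf] at h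

theorem forth [Finite V] [Finite V'] [Finite B] [Finite B'] [Finite ι]
    {I : SimpleGraph (V ⊕ B)} {I' : SimpleGraph (V' ⊕ B')} {P : Fin m → Set V}
    {P' : Fin m → Set V'} {k : ℕ} {a : ι → V ⊕ B} {b : ι → V' ⊕ B'}
    (h : Pos I I' (colOf P) (colOf P') Q a b (fun _ => 0) (rho (k + 1)) (lev (k + 1)))
    (hLU : LU I g) (hLU' : LU I' g) (hg : rho (k + 1) ≤ g)
    (hQ : siz (k + 1) (Nat.card ι) ≤ Q) (hglob : Glob I I' (colOf P) (colOf P') Q (k + 1))
    (x : V) :
    ∃ (κ : Type) (_ : Finite κ) (a' : κ → V ⊕ B) (b' : κ → V' ⊕ B') (e : ι → κ) (k₀ : κ)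
      (x' : V'), Pos I I' (colOf P) (colOf P') Q a' b' (fun _ => 0) (rho k) (lev k) ∧
      siz k (Nat.card κ) ≤ Q ∧ (∀ i, a' (e i) = a i ∧ b' (e i) = b i) ∧
      a' k₀ = .inl x ∧ b' k₀ = .inl x' := by
  have h2 := two_le_rho k
  have hr : rho (k + 1) = 7 * rho k := rfl
  have hl : lev (k + 1) = lev k + 3 * rho k := rfl
  have hs : siz (k + 1) (Nat.card ι) = max (Nat.card ι + Nat.card ι * rho k + 3 * rho k + 1)
    (siz k (Nat.card ι + 3 * rho k + 1)) := rfl
  rw [hs] at hQ
  have hQ1 := (le_max_left _ _).trans hQ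
  have hQ2 := (le_max_right _ _).trans hQ
  by_cases hx : Rch I (Set.range a) (3 * rho k) (.inl x)
  · obtain ⟨κ, hκ, a', b', δ', e, h3, h4, ⟨k₀, hk₀⟩, h6⟩ :=
      ext_reach (D := 3 * rho k) hLU hLU' hg (by omega) (by omega) (3 * rho k) le_rfl _ hx a b
        (fun _ => 0) (GoodPos.init h) (by omega)
    have hpos := h3.pos.relax (ρ' := rho k) (L' := lev k) h3.δ_le (by omega) (by omega)
    have hty := tau_mono (Nat.zero_le _) (hpos.ty k₀)
    rw [hk₀] at hty
    obtain ⟨x', hx'⟩ := col_eq (B := B) hty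
    exact ⟨κ, hκ, a', b', e, k₀, x', hpos, (siz_mono k (by omega)).trans hQ2, h4, hk₀, hx'⟩
  · obtain ⟨y', hy1, hy2⟩ := far_case (r := rho k) (l := lev k) h hLU hLU' hg (by omega)
      (by omega) (by omega) (fun t n hn => hglob k (by omega) t n hn) (.inl x) hx
    have hpos := h.addFar (r := rho k) (l := lev k) (by omega) (by omega) (by omega)
      (fun h' => hx (h'.mono (by omega))) hy2 hy1
    have hty := tau_mono (Nat.zero_le _) hy1
    obtain ⟨x', hx'⟩ := col_eq (B := B) hty
    refine ⟨Option ι, inferInstance, _, _, some, none, x', hpos, ?_, fun i => ⟨rfl, rfl⟩, rfl,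
      hx'⟩
    rw [Finite.card_option]
    exact (siz_mono k (by omega)).trans hQ2

theorem ef [Finite V] [Finite V'] [Finite B] [Finite B']
    {I : SimpleGraph (V ⊕ B)} {I' : SimpleGraph (V' ⊕ B')} {P : Fin m → Set V}
    {P' : Fin m → Set V'} (hLU : LU I g) (hLU' : LU I' g) (φ : Fml m) (hφ : IsFO φ) :
    ∀ k, rank φ ≤ k → rho k ≤ g → Glob I I' (colOf P) (colOf P') Q k →
    ∀ {ι : Type} [Finite ι] (a : ι → V ⊕ B) (b : ι → V' ⊕ B'),
      Pos I I' (colOf P) (colOf P') Q a b (fun _ => 0) (rho k) (lev k) →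
      siz k (Nat.card ι) ≤ Q → ∀ (v : ℕ → V) (v' : ℕ → V') (s : ℕ → ι),
      (∀ n, a (s n) = .inl (v n)) → (∀ n, b (s n) = .inl (v' n)) →
      (Sat (graphOf I) P φ v ↔ Sat (graphOf I') P' φ v') := by
  induction φ with
  | eq i j =>
    intro k _ _ _ ι _ a b h _ v v' s hv hv'
    have := h.eq_iff (s i) (s j)
    rw [hv, hv, hv', hv', Sum.inl.injEq, Sum.inl.injEq] at this
    exact this
  | edge i j =>
    intro k _ hg _ ι _ a b h _ v v' s hv hv'
    have h2 := two_le_rho k
    have heq := h.eq_iff (s i) (s j)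
    rw [hv, hv, hv', hv', Sum.inl.injEq, Sum.inl.injEq] at heq
    -- one direction, for general structures
    have dir : ∀ {W W' D D' : Type} {J : SimpleGraph (W ⊕ D)} {J' : SimpleGraph (W' ⊕ D')}
        {R : Fin m → Set W} {R' : Fin m → Set W'} {c : ι → W ⊕ D} {c' : ι → W' ⊕ D'}
        (_ : Pos J J' (colOf R) (colOf R') Q c c' (fun _ => 0) (rho k) (lev k)) {x y : W}
        {x' y' : W'} {i j : ι} (_ : c i = .inl x) (_ : c j = .inl y) (_ : c' i = .inl x')
        (_ : c' j = .inl y'), x ≠ y → (∃ β, J.Adj (.inl x) (.inr β) ∧ J.Adj (.inl y) (.inr β)) →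
        ∃ β, J'.Adj (.inl x') (.inr β) ∧ J'.Adj (.inl y') (.inr β) := by
      intro W W' D D' J J' R R' c c' hp x y x' y' i j h3 h4 h5 h6 hne ⟨β, h7, h8⟩
      let w : J.Walk (.inl x) (.inl y) :=
        SimpleGraph.Walk.cons h7 (SimpleGraph.Walk.cons h8.symm SimpleGraph.Walk.nil)
      have hw : w.IsPath := by
        rw [SimpleGraph.Walk.cons_isPath_iff, SimpleGraph.Walk.cons_isPath_iff]
        refine ⟨⟨SimpleGraph.Walk.IsPath.nil, ?_⟩, ?_⟩
        · simp
        · simpa using hne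
      have hcl := hp.cl i j (w.copy h3.symm h4.symm) (by
        rw [SimpleGraph.Walk.isPath_copy]; exact hw) (by
        rw [SimpleGraph.Walk.length_copy]
        change 2 + 0 + 0 ≤ _
        omega) (.inr β) (by
          rw [SimpleGraph.Walk.support_copy]
          simp [w])
      obtain ⟨k', hk'⟩ := hcl
      have hty := tau_mono (Nat.zero_le _) (hp.ty k')
      rw [hk'] at hty
      have hβ : ∃ β', c' k' = .inr β' := by
        cases hc : c' k' with
        | inl z =>
          rw [hc] at hty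
          have : (none : Option (Set (Fin m))) = some {k | z ∈ R' k} := hty
          simp at this
        | inr β' => exact ⟨β', rfl⟩
      obtain ⟨β', hβ'⟩ := hβ
      refine ⟨β', ?_, ?_⟩
      · rw [← h5, ← hβ', ← hp.adj_iff, h3, hk']; exact h7
      · rw [← h6, ← hβ', ← hp.adj_iff, h4, hk']; exact h8
    constructor
    · rintro ⟨h3, h4⟩
      exact ⟨fun h' => h3 (heq.2 h'), dir h (hv i) (hv j) (hv' i) (hv' j) h3 h4⟩
    · rintro ⟨h3, h4⟩
      exact ⟨fun h' => h3 (heq.1 h'), dir h.symm (hv' i) (hv' j) (hv i) (hv j) h3 h4⟩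
  | col c i =>
    intro k _ _ _ ι _ a b h _ v v' s hv hv'
    have hty := tau_mono (Nat.zero_le _) (h.ty (s i))
    rw [hv, hv'] at hty
    have h1 : (some {k | v i ∈ P k} : Option (Set (Fin m))) = some {k | v' i ∈ P' k} := hty
    rw [Option.some.injEq] at h1
    have h2 : c ∈ {k | v i ∈ P k} ↔ c ∈ {k | v' i ∈ P' k} := by rw [h1]
    exact h2
  | neg φ ih =>
    intro k hk hg hglob ι _ a b h hQ v v' s hv hv'
    exact not_congr (ih hφ k hk hg hglob a b h hQ v v' s hv hv')
  | conj φ ψ ih1 ih2 =>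
    intro k hk hg hglob ι _ a b h hQ v v' s hv hv'
    exact and_congr (ih1 hφ.1 k ((le_max_left _ _).trans hk) hg hglob a b h hQ v v' s hv hv')
      (ih2 hφ.2 k ((le_max_right _ _).trans hk) hg hglob a b h hQ v v' s hv hv')
  | ex i φ ih =>
    intro k hk hg hglob ι _ a b h hQ v v' s hv hv'
    have hk0 : rank φ + 1 ≤ k := hk
    obtain ⟨k, rfl⟩ : ∃ k', k = k' + 1 := ⟨k - 1, by omega⟩
    have h2 := two_le_rho k
    have hr : rho (k + 1) = 7 * rho k := rfl
    have hglob' : Glob I I' (colOf P) (colOf P') Q k := fun j hj => hglob j (by omega)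
    constructor
    · rintro ⟨x, hx⟩
      obtain ⟨κ, hκ, a', b', e, k₀, x', hpos, hQ', he, h3, h4⟩ :=
        forth h hLU hLU' hg hQ hglob x
      refine ⟨x', ?_⟩
      refine (ih hφ k (by omega) (by omega) hglob' a' b' hpos hQ' (Function.update v i x)
        (Function.update v' i x') (fun n => if n = i then k₀ else e (s n)) ?_ ?_).1 hx
      · intro n
        by_cases hn : n = i
        · subst hn; simp [h3]
        · simp [hn, (he (s n)).1, hv n]
      · intro n
        by_cases hn : n = i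
        · subst hn; simp [h4]
        · simp [hn, (he (s n)).2, hv' n]
    · rintro ⟨x', hx'⟩
      obtain ⟨κ, hκ, b', a', e, k₀, x, hpos, hQ', he, h3, h4⟩ :=
        forth h.symm hLU' hLU hg hQ hglob.symm x'
      refine ⟨x, ?_⟩
      refine (ih hφ k (by omega) (by omega) hglob' a' b' hpos.symm hQ' (Function.update v i x)
        (Function.update v' i x') (fun n => if n = i then k₀ else e (s n)) ?_ ?_).2 hx'
      · intro n
        by_cases hn : n = i
        · subst hn; simp [h4]
        · simp [hn, (he (s n)).2, hv n]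
      · intro n
        by_cases hn : n = i
        · subst hn; simp [h3]
        · simp [hn, (he (s n)).1, hv' n]
  | modEx _ _ _ _ _ => exact absurd hφ id

end Pool.Agent.H71.MT
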