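import Pool.Agent.H71.MT.Sep

set_option autoImplicit false

/-!
# First-order transductions of locally tree-like graphs
-/

noncomputable section

namespace Pool.Agent.H71.MT

variable {U C : Type} {I : SimpleGraph U} {col : U → C} {Q ρ L g : ℕ}

/-- the type of classes -/
abbrev Cls (C : Type) (Q ρ L : ℕ) : Type :=
  Ty C Q L × Option (Fin (ρ + 1) × (Fin (ρ + 1) → Ty C Q L))

open Classical in
/-- the class of a vertex with respect to `t` -/
def cls (I : SimpleGraph U) (col : U → C) (Q ρ L : ℕ) (t x : U) : Cls C Q ρ L :=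
  (tau I col Q L x,
    if h : ∃ p : I.Walk x t, p.IsPath ∧ p.length ≤ ρ then
      some (⟨h.choose.length, Nat.lt_succ_of_le h.choose_spec.2⟩,
        fun i => tau I col Q L (h.choose.getVert i))
    else none)

theorem cls_path (hLU : LU I g) (hρ : ρ ≤ g) {t x x' : U}
    (h : cls I col Q ρ L t x = cls I col Q ρ L t x') (p : I.Walk x t) (hp : p.IsPath)
    (hl : p.length ≤ ρ) : ∃ p' : I.Walk x' t, p'.IsPath ∧ p'.length = p.length ∧
      ∀ i ≤ p.length, tau I col Q L (p.getVert i) = tau I col Q L (p'.getVert i) := by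
  have hx : ∃ p : I.Walk x t, p.IsPath ∧ p.length ≤ ρ := ⟨p, hp, hl⟩
  have h2 := congrArg Prod.snd h
  rw [cls, cls] at h2
  simp only [dif_pos hx] at h2
  by_cases hx' : ∃ p : I.Walk x' t, p.IsPath ∧ p.length ≤ ρ
  · rw [dif_pos hx', Option.some.injEq, Prod.ext_iff] at h2
    have hp' : hx.choose = p := hLU _ _ _ _ hx.choose_spec.1 hp (hx.choose_spec.2.trans hρ)
      (hl.trans hρ)
    refine ⟨hx'.choose, hx'.choose_spec.1, ?_, ?_⟩
    · have := h2.1
      simp only [Fin.mk.injEq] at this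
      rw [← this, hp']
    · intro i hi
      have := congrFun h2.2 ⟨i, by omega⟩
      simp only [hp'] at this
      exact this
  · rw [dif_neg hx'] at h2
    exact absurd h2 (by simp)

theorem transfer_path (hLU : LU I g) (hρ : ρ ≤ g) {t x x' z : U}
    (h : cls I col Q ρ L t x = cls I col Q ρ L t x') (p : I.Walk x z) (hp : p.IsPath)
    (hl : p.length ≤ ρ) (ht : t ∈ p.support)
    (ht' : ∀ p' : I.Walk x' z, p'.IsPath → p'.length ≤ ρ → t ∈ p'.support) :
    ∃ p' : I.Walk x' z, p'.IsPath ∧ p'.length = p.length ∧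
      ∀ i ≤ p.length, tau I col Q L (p.getVert i) = tau I col Q L (p'.getVert i) := by
  classical
  have hspec := p.take_spec ht
  set p₁ := p.takeUntil t ht
  set p₂ := p.dropUntil t ht
  have hp1 : p₁.IsPath := hp.takeUntil ht
  have hp2 : p₂.IsPath := hp.dropUntil ht
  have hlen : p₁.length + p₂.length = p.length := by
    rw [← SimpleGraph.Walk.length_append, hspec]
  obtain ⟨q, hq1, hq2, hq3⟩ := cls_path hLU hρ h p₁ hp1 (by omega)
  have hb := (q.append p₂).length_bypass_le_length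
  rw [SimpleGraph.Walk.length_append] at hb
  have hbp := (q.append p₂).bypass_isPath
  have htb := ht' _ hbp (by omega)
  set b := (q.append p₂).bypass
  have hbs := b.take_spec htb
  have hbl : (b.takeUntil t htb).length + (b.dropUntil t htb).length = b.length := by
    rw [← SimpleGraph.Walk.length_append, hbs]
  have e1 : b.takeUntil t htb = q := hLU _ _ _ _ (hbp.takeUntil htb) hq1 (by omega) (by omega)
  have e2 : b.dropUntil t htb = p₂ := hLU _ _ _ _ (hbp.dropUntil htb) hp2 (by omega) (by omega)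
  rw [e1, e2] at hbs
  refine ⟨q.append p₂, ?_, ?_, ?_⟩
  · rw [hbs]; exact hbp
  · rw [SimpleGraph.Walk.length_append]
    omega
  · intro i hi
    rw [← hspec, SimpleGraph.Walk.getVert_append, SimpleGraph.Walk.getVert_append, hq2]
    by_cases hi1 : i < p₁.length
    · rw [if_pos hi1, if_pos hi1]
      exact hq3 i (by omega)
    · rw [if_neg hi1, if_neg hi1]

variable {V B : Type} {m : ℕ}

theorem same_sat [Finite V] [Finite B] {I : SimpleGraph (V ⊕ B)} {P : Fin m → Set V}
    (hLU : LU I g) (φ : Fml m) (hφ : IsFO φ) {k : ℕ}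
    (hk : rank φ ≤ k) (hg : rho k ≤ g)
    (hQ : siz k (rho k + 1) ≤ Q) {t : V ⊕ B} {x x' z : V}
    (h : cls I (colOf P) Q (rho k) (lev k) t (.inl x) =
      cls I (colOf P) Q (rho k) (lev k) t (.inl x'))
    (ht : ∀ p : I.Walk (.inl x) (.inl z), p.IsPath → p.length ≤ rho k → t ∈ p.support)
    (ht' : ∀ p : I.Walk (.inl x') (.inl z), p.IsPath → p.length ≤ rho k → t ∈ p.support) :
    (Sat (graphOf I) P φ (asg x z) ↔ Sat (graphOf I) P φ (asg x' z)) ∧
    (Sat (graphOf I) P φ (asg z x) ↔ Sat (graphOf I) P φ (asg z x')) := by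
  have hglob : Glob I I (colOf P) (colOf P) Q k := fun _ _ _ _ _ => Iff.rfl
  by_cases hex : ∃ p : I.Walk (.inl x) (.inl z), p.IsPath ∧ p.length ≤ rho k
  · obtain ⟨p, hp, hl⟩ := hex
    obtain ⟨p', hp', hl', hty⟩ := transfer_path hLU hg h p hp hl (ht p hp hl) ht'
    refine ⟨ef_path hLU hLU φ hφ hk hg hglob hQ p p' hp hp' hl' hl hty,
      ef_path hLU hLU φ hφ hk hg hglob hQ p.reverse p'.reverse hp.reverse hp'.reverse ?_ ?_ ?_⟩
    · rw [SimpleGraph.Walk.length_reverse, SimpleGraph.Walk.length_reverse, hl']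
    · rwa [SimpleGraph.Walk.length_reverse]
    · intro i hi
      rw [SimpleGraph.Walk.getVert_reverse, SimpleGraph.Walk.getVert_reverse, hl']
      exact hty _ (by omega)
  · have hex' : ¬ ∃ p : I.Walk (.inl x') (.inl z), p.IsPath ∧ p.length ≤ rho k := by
      rintro ⟨p, hp, hl⟩
      obtain ⟨p', hp', hl', _⟩ := transfer_path hLU hg h.symm p hp hl (ht' p hp hl) ht
      exact hex ⟨p', hp', by omega⟩
    have hx : tau I (colOf P) Q (lev k) (.inl x) = tau I (colOf P) Q (lev k) (.inl x') :=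
      congrArg Prod.fst h
    refine ⟨ef_far hLU hLU φ hφ hk hg hglob hQ (fun p hp hl => hex ⟨p, hp, hl⟩)
      (fun p hp hl => hex' ⟨p, hp, hl⟩) hx rfl,
      ef_far hLU hLU φ hφ hk hg hglob hQ (fun p hp hl => hex ⟨p.reverse, hp.reverse, by
        rwa [SimpleGraph.Walk.length_reverse]⟩)
      (fun p hp hl => hex' ⟨p.reverse, hp.reverse, by
        rwa [SimpleGraph.Walk.length_reverse]⟩) rfl hx⟩

/-- no four-cycles -/
def K22Free {X : Type} (H : SimpleGraph X) : Prop :=
  ∀ a b c d, a ≠ b → c ≠ d → H.Adj a c → H.Adj a d → H.Adj b c → H.Adj b d → False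

open Classical in
theorem pairs_le {X : Type} [Fintype X] (H : SimpleGraph X) (D : ℕ) (S : Finset X) :
    (∀ S' : Finset X, S' ⊆ S → S'.Nonempty → ∃ v ∈ S', (S'.filter (fun u => H.Adj v u)).card ≤ D) →
    ((S ×ˢ S).filter (fun p => H.Adj p.1 p.2)).card ≤ 2 * D * S.card := by
  induction S using Finset.strongInduction with
  | H S ih =>
    intro hS
    rcases S.eq_empty_or_nonempty with rfl | hne
    · simp
    obtain ⟨v, hv, hd⟩ := hS S subset_rfl hne
    have h1 := ih (S.erase v) (Finset.erase_ssubset hv)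
      (fun S' h => hS S' (h.trans (Finset.erase_subset v S)))
    have hsub : (S ×ˢ S).filter (fun p => H.Adj p.1 p.2) ⊆
        (((S.erase v) ×ˢ (S.erase v)).filter (fun p => H.Adj p.1 p.2) ∪
          (S.filter (fun u => H.Adj v u)).image (fun u => (v, u))) ∪
          (S.filter (fun u => H.Adj v u)).image (fun u => (u, v)) := by
      rintro ⟨a, b⟩ hab
      rw [Finset.mem_filter, Finset.mem_product] at hab
      simp only [Finset.mem_union, Finset.mem_filter, Finset.mem_product, Finset.mem_erase,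
        Finset.mem_image, Prod.mk.injEq]
      obtain ⟨⟨ha, hb⟩, hab⟩ := hab
      simp only at ha hb hab
      by_cases hav : a = v
      · subst hav
        exact Or.inl (Or.inr ⟨b, ⟨hb, hab⟩, rfl, rfl⟩)
      · by_cases hbv : b = v
        · subst hbv
          exact Or.inr ⟨a, ⟨ha, hab.symm⟩, rfl, rfl⟩
        · exact Or.inl (Or.inl ⟨⟨⟨hav, ha⟩, hbv, hb⟩, hab⟩)
    have h2 := (Finset.card_le_card hsub).trans (Finset.card_union_le _ _)
    have h3 := Finset.card_union_le (((S.erase v) ×ˢ (S.erase v)).filter (fun p => H.Adj p.1 p.2))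
      ((S.filter (fun u => H.Adj v u)).image (fun u => (v, u)))
    have h4 := Finset.card_image_le (s := S.filter (fun u => H.Adj v u)) (f := fun u => (v, u))
    have h5 := Finset.card_image_le (s := S.filter (fun u => H.Adj v u)) (f := fun u => (u, v))
    have h6 := Finset.card_erase_add_one hv
    rw [← h6, mul_add, mul_one]
    omega

/-- A first-order transduction of a locally tree-like graph has no dense outputs without
four-cycles. -/
theorem gamma (η : Fml m) (hη : IsFO η) : ∃ D : ℕ, ∀ N : ℕ, ∃ g : ℕ, ∀ {V B : Type} [Finite V]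
    [Finite B] (I : SimpleGraph (V ⊕ B)) (P : Fin m → Set V), LU I g →
    ∀ (H : SimpleGraph (Fin N)) (π : Fin N → V), Function.Injective π →
    (∀ u v, H.Adj u v ↔ u ≠ v ∧ Sat (graphOf I) P η (asg (π u) (π v)) ∧
      Sat (graphOf I) P η (asg (π v) (π u))) → K22Free H →
    {p : Fin N × Fin N | H.Adj p.1 p.2}.ncard ≤ D * N := by
  classical
  obtain ⟨k, hk⟩ : ∃ k, rank η = k := ⟨_, rfl⟩
  obtain ⟨Q, hQ⟩ : ∃ Q, siz k (rho k + 1) = Q := ⟨_, rfl⟩
  obtain ⟨κ, hκ⟩ : ∃ κ, Nat.card (Cls (Option (Set (Fin m))) Q (rho k) (lev k)) = κ := ⟨_, rfl⟩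
  have := Fintype.ofFinite (Cls (Option (Set (Fin m))) Q (rho k) (lev k))
  refine ⟨2 * (2 * κ + 2), fun N => ⟨(N + 2) * rho k + 1, ?_⟩⟩
  intro V B _ _ I P hLU H π hπ hH hK
  have h2 := two_le_rho k
  have hρg : rho k ≤ (N + 2) * rho k + 1 := by
    have : 1 * rho k ≤ (N + 2) * rho k := Nat.mul_le_mul_right _ (by omega)
    omega
  have hset : {p : Fin N × Fin N | H.Adj p.1 p.2}.ncard =
      (((Finset.univ : Finset (Fin N)) ×ˢ (Finset.univ : Finset (Fin N))).filter
        (fun p => H.Adj p.1 p.2)).card := by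
    rw [← Set.ncard_coe_finset]
    congr 1
    ext p
    simp
  rw [hset]
  have hcard : (Finset.univ : Finset (Fin N)).card = N := by simp
  conv_rhs => rw [← hcard]
  refine pairs_le H (2 * κ + 2) Finset.univ ?_
  intro S _ hS
  by_contra hcon
  push Not at hcon
  obtain ⟨v₀, hv₀⟩ := hS
  have hκ1 : 1 ≤ κ := by
    rcases Nat.eq_zero_or_pos κ with h0 | h0
    · exfalso
      rw [h0, Nat.card_eq_fintype_card] at hκ
      have := Fintype.card_eq_zero_iff.1 hκ
      exact this.elim (cls I (colOf P) Q (rho k) (lev k) (.inl (π v₀)) (.inl (π v₀)))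
    · exact h0
  have hSκ : κ < S.card := by
    have h1 := hcon v₀ hv₀
    have h3 := Finset.card_filter_le S (fun u => H.Adj v₀ u)
    omega
  obtain ⟨t, R, hRS, hsep, hR1, hR2⟩ := sep_small (ρ := rho k) hLU
    (fun x : Fin N => (Sum.inl (π x) : V ⊕ B)) (fun a b h => hπ (Sum.inl.inj h)) S hκ1 hSκ
    (by rw [Nat.card_eq_fintype_card, Fintype.card_fin])
  obtain ⟨q, hq, q', hq', hne, hcls⟩ := Finset.exists_ne_map_eq_of_card_lt_of_maps_to
    (s := R) (t := (Finset.univ : Finset (Cls (Option (Set (Fin m))) Q (rho k) (lev k))))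
    (f := fun x => cls I (colOf P) Q (rho k) (lev k) t (.inl (π x)))
    (by rw [Finset.card_univ, ← Nat.card_eq_fintype_card, hκ]; exact hR1)
    (fun x _ => Finset.mem_coe.2 (Finset.mem_univ _))
  have hkey : ∀ z ∈ S, z ∉ R → H.Adj q z → H.Adj q' z := by
    intro z hz hzR hadj
    obtain ⟨h3, h4⟩ := same_sat hLU η hη (k := k) hk.le hρg hQ.le hcls
      (fun p hp hl => hsep q hq z hz hzR p hp hl) (fun p hp hl => hsep q' hq' z hz hzR p hp hl)
    rw [hH] at hadj ⊢
    refine ⟨fun h => hzR (h ▸ hq'), h3.1 hadj.2.1, h4.1 hadj.2.2⟩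
  have hdeg := hcon q (hRS hq)
  have hsplit : (S.filter (fun u => H.Adj q u)).card ≤
      R.card + ((S.filter (fun u => H.Adj q u)) \ R).card := by
    have h3 := Finset.card_le_card_sdiff_add_card (s := S.filter (fun u => H.Adj q u)) (t := R)
    omega
  have h2' : 1 < ((S.filter (fun u => H.Adj q u)) \ R).card := by omega
  obtain ⟨z, hz, z', hz', hzz⟩ := Finset.one_lt_card.1 h2'
  rw [Finset.mem_sdiff, Finset.mem_filter] at hz hz'
  exact hK q q' z z' hne hzz hz.1.2 hz'.1.2 (hkey z hz.1.1 hz.2 hz.1.2)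
    (hkey z' hz'.1.1 hz'.2 hz'.1.2)

end Pool.Agent.H71.MT
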