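import Pool.Agent.H71.MT.Alpha2
import Pool.Agent.H71.MT.Build

set_option autoImplicit false

/-!
# FO+MOD transductions versus FO transductions
-/

noncomputable section

namespace Pool.Agent.H71.MT

/-- a code for formulas -/
def code {m : ℕ} : Fml m → ℕ
  | .eq i j => Nat.pair 0 (Nat.pair i j)
  | .edge i j => Nat.pair 1 (Nat.pair i j)
  | .col k i => Nat.pair 2 (Nat.pair k i)
  | .neg φ => Nat.pair 3 (code φ)
  | .conj φ ψ => Nat.pair 4 (Nat.pair (code φ) (code ψ))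
  | .ex i φ => Nat.pair 5 (Nat.pair i (code φ))
  | .modEx a b i φ => Nat.pair 6 (Nat.pair a (Nat.pair b (Nat.pair i (code φ))))

theorem code_inj {m : ℕ} (φ : Fml m) : ∀ ψ : Fml m, code φ = code ψ → φ = ψ := by
  induction φ with
  | eq i j =>
    intro ψ h
    cases ψ <;> simp [code, Nat.pair_eq_pair] at h ⊢
    exact h
  | edge i j =>
    intro ψ h
    cases ψ <;> simp [code, Nat.pair_eq_pair] at h ⊢
    exact h
  | col k i =>
    intro ψ h
    cases ψ <;> simp [code, Nat.pair_eq_pair] at h ⊢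
    exact ⟨Fin.ext h.1, h.2⟩
  | neg φ ih =>
    intro ψ h
    cases ψ <;> simp [code, Nat.pair_eq_pair] at h ⊢
    exact ih _ h
  | conj φ ψ ih1 ih2 =>
    intro ψ h
    cases ψ <;> simp [code, Nat.pair_eq_pair] at h ⊢
    exact ⟨ih1 _ h.1, ih2 _ h.2⟩
  | ex i φ ih =>
    intro ψ h
    cases ψ <;> simp [code, Nat.pair_eq_pair] at h ⊢
    exact ⟨h.1, ih _ h.2⟩
  | modEx a b i φ ih =>
    intro ψ h
    cases ψ <;> simp [code, Nat.pair_eq_pair] at h ⊢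
    exact ⟨h.1, h.2.1, h.2.2.1, ih _ h.2.2.2⟩

instance (m : ℕ) : Countable (Fml m) :=
  Function.Injective.countable (f := code) fun φ ψ h => code_inj φ ψ h

instance : Countable Transd := by
  have : Function.Injective (fun T : Transd => (⟨T.m, (T.ν, T.η)⟩ : Σ m, Fml m × Fml m)) := by
    rintro ⟨m, ν, η⟩ ⟨m', ν', η'⟩ h
    simp only [Sigma.mk.injEq] at h
    obtain ⟨rfl, h⟩ := h
    simp only [heq_eq_eq, Prod.mk.injEq] at h
    obtain ⟨rfl, rfl⟩ := h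
    rfl
  exact this.countable

instance : Nonempty Transd := ⟨T₀⟩

/-- graphs coming from an incidence graph of large girth -/
def Good (g : ℕ) (G : Σ n : ℕ, SimpleGraph (Fin n)) : Prop :=
  ∃ (B : Type) (_ : Finite B) (I : SimpleGraph (Fin G.1 ⊕ B)), LU I g ∧ graphOf I = G.2

theorem Good.mono {g g' : ℕ} (h : g' ≤ g) {G : Σ n : ℕ, SimpleGraph (Fin n)} (hG : Good g G) :
    Good g' G := by
  obtain ⟨B, hB, I, hI, h'⟩ := hG
  exact ⟨B, hB, I, hI.mono h, h'⟩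

theorem real_of_iso {V : Type} {N : ℕ} {H : SimpleGraph (Fin N)} {T : Transd} {G : SimpleGraph V}
    {P : Fin T.m → Set V} (e : H ≃g T.out G P) : ∃ π : Fin N → V, Function.Injective π ∧
      ∀ u v, H.Adj u v ↔ u ≠ v ∧ Sat G P T.η (asg (π u) (π v)) ∧
        Sat G P T.η (asg (π v) (π u)) := by
  refine ⟨fun u => (e u).1, fun u v h => e.injective (Subtype.ext h), fun u v => ?_⟩
  rw [← e.map_adj_iff]
  change (e u ≠ e v ∧ _) ↔ _
  rw [e.injective.ne_iff]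

theorem stage_aux (T : Transd) (hT : IsFO T.η) (n₀ g₀ : ℕ) :
    ∃ (G H : Σ n : ℕ, SimpleGraph (Fin n)) (γ : ℕ), n₀ < H.1 ∧ H.1 ≤ G.1 ∧
      (∃ P : Fin T₀.m → Set (Fin G.1), Nonempty (H.2 ≃g T₀.out G.2 P)) ∧ Good g₀ G ∧
      (∀ P : Fin T.m → Set (Fin G.1), IsEmpty (H.2 ≃g T.out G.2 P)) ∧
      ∀ G' : (Σ n : ℕ, SimpleGraph (Fin n)), Good γ G' → ∀ P : Fin T.m → Set (Fin G'.1),
        IsEmpty (H.2 ≃g T.out G'.2 P) := by
  obtain ⟨J, C, g₁, hJ0, hJ, hg₁, hα⟩ := alpha T.η hT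
  obtain ⟨D, hD⟩ := gamma T.η hT
  obtain ⟨s₀, hs₀⟩ := build J (max C (2 * (D + 1))) (max g₀ g₁)
  set s := max s₀ (n₀ + 1) with hs
  have hs1 : 1 ≤ s := (by omega : 1 ≤ n₀ + 1).trans (le_max_right _ _)
  obtain ⟨β, hβ, S, hS, hM⟩ := hs₀ s (le_max_left _ _)
  have hN : 1 ≤ 2 ^ s := Nat.one_le_two_pow
  obtain ⟨W, ε, hno, hhv⟩ := hα s hs1 β S (hS.mono (le_max_right _ _))
    (le_trans (Nat.mul_le_mul_right _ (Nat.mul_le_mul_right _ (le_max_left _ _))) hM)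
  obtain ⟨γ, hγ⟩ := hD (2 ^ s)
  refine ⟨⟨2 ^ s + 2 ^ s, S.G W ε⟩, ⟨2 ^ s, S.H ε⟩, γ, ?_, ?_, ⟨_, hS.produces
    (hg₁.trans (le_max_right _ _)) hJ W ε⟩, ?_, ?_, ?_⟩
  · change n₀ < 2 ^ s
    have h1 : n₀ + 1 ≤ s := le_max_right _ _
    have h2 : s < 2 ^ s := Nat.lt_two_pow_self
    omega
  · change 2 ^ s ≤ 2 ^ s + 2 ^ s
    omega
  · exact ⟨β, inferInstance, bip (S.pres W ε), (hS.mono (le_max_left _ _)).lu_pres W ε, rfl⟩
  · intro P
    constructor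
    intro e
    obtain ⟨π, hπ⟩ := real_of_iso e
    exact hno ⟨P, π, hπ⟩
  · intro G' hG' P
    constructor
    intro e
    obtain ⟨B, _, I, hI, hGI⟩ := hG'
    obtain ⟨π, hπ1, hπ2⟩ := real_of_iso e
    rw [← hGI] at hπ2
    have h1 := hγ I P hI (S.H ε) π hπ1 hπ2 (hS.k22 (hg₁.trans (le_max_right _ _)) ε)
    have h2 := hS.pairs (hg₁.trans (le_max_right _ _)) ε
    have h3 : 2 * (D + 1) * 2 ^ s ≤ Fintype.card β := by
      calc 2 * (D + 1) * 2 ^ s ≤ 2 * (D + 1) * s * 2 ^ s :=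
            Nat.mul_le_mul_right _ (Nat.le_mul_of_pos_right _ (by omega))
        _ ≤ max C (2 * (D + 1)) * s * 2 ^ s :=
            Nat.mul_le_mul_right _ (Nat.mul_le_mul_right _ (le_max_right _ _))
        _ ≤ _ := hM
    have h4 : 2 * (D + 1) * 2 ^ s = 2 * (D * 2 ^ s) + 2 * 2 ^ s := by ring
    omega

theorem stage (T : Transd) (n₀ g₀ : ℕ) :
    ∃ (G H : Σ n : ℕ, SimpleGraph (Fin n)) (γ : ℕ), n₀ < H.1 ∧ H.1 ≤ G.1 ∧
      (∃ P : Fin T₀.m → Set (Fin G.1), Nonempty (H.2 ≃g T₀.out G.2 P)) ∧ Good g₀ G ∧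
      (IsFO T.η → (∀ P : Fin T.m → Set (Fin G.1), IsEmpty (H.2 ≃g T.out G.2 P)) ∧
      ∀ G' : (Σ n : ℕ, SimpleGraph (Fin n)), Good γ G' → ∀ P : Fin T.m → Set (Fin G'.1),
        IsEmpty (H.2 ≃g T.out G'.2 P)) := by
  by_cases hT : IsFO T.η
  · obtain ⟨G, H, γ, h1, h2, h3, h4, h5, h6⟩ := stage_aux T hT n₀ g₀
    exact ⟨G, H, γ, h1, h2, h3, h4, fun _ => ⟨h5, h6⟩⟩
  · obtain ⟨G, H, γ, h1, h2, h3, h4, _, _⟩ := stage_aux ⟨0, .eq 0 0, .eq 0 0⟩ trivial n₀ g₀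
    exact ⟨G, H, γ, h1, h2, h3, h4, fun h => absurd h hT⟩

theorem main : ∃ 𝒞 𝒟 : GraphClass, 𝒞.Infinite ∧ 𝒟.Infinite ∧
    (∃ T : Transd, IsFOMod T.ν ∧ IsFOMod T.η ∧ T.Produces 𝒞 𝒟) ∧
    ¬ ∃ T : Transd, IsFO T.ν ∧ IsFO T.η ∧ T.Produces 𝒞 𝒟 := by
  obtain ⟨f, hf⟩ := exists_surjective_nat Transd
  choose G H γ h1 h2 h3 h4 h5 using stage
  let st : ℕ → ℕ × ℕ := fun n => Nat.rec (0, 0) (fun j p =>
    (max p.1 (G (f j) p.1 p.2).1, max p.2 (γ (f j) p.1 p.2))) n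
  have hst : ∀ j, st (j + 1) = (max (st j).1 (G (f j) (st j).1 (st j).2).1,
    max (st j).2 (γ (f j) (st j).1 (st j).2)) := fun j => rfl
  let Gs : ℕ → Σ n : ℕ, SimpleGraph (Fin n) := fun j => G (f j) (st j).1 (st j).2
  let Hs : ℕ → Σ n : ℕ, SimpleGraph (Fin n) := fun j => H (f j) (st j).1 (st j).2
  have hmono : ∀ k j, k < j → (Gs k).1 ≤ (st j).1 ∧ γ (f k) (st k).1 (st k).2 ≤ (st j).2 := by
    intro k j hkj
    induction j, hkj using Nat.le_induction with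
    | base =>
      rw [Nat.succ_eq_add_one, hst]
      exact ⟨le_max_right _ _, le_max_right _ _⟩
    | succ j _ ih =>
      rw [hst]
      exact ⟨ih.1.trans (le_max_left _ _), ih.2.trans (le_max_left _ _)⟩
  have hlt : ∀ k j, k < j → (Gs k).1 < (Hs j).1 := fun k j hkj =>
    lt_of_le_of_lt (hmono k j hkj).1 (h1 _ _ _)
  have hle : ∀ j, (Hs j).1 ≤ (Gs j).1 := fun j => h2 _ _ _
  have hGinj : Function.Injective Gs := by
    intro i j hij
    by_contra hne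
    rcases Nat.lt_or_gt_of_ne hne with h | h
    · have h6 := hlt i j h
      have h7 := hle j
      rw [hij] at h6
      omega
    · have h6 := hlt j i h
      have h7 := hle i
      rw [hij] at h7
      omega
  have hHinj : Function.Injective Hs := by
    intro i j hij
    by_contra hne
    rcases Nat.lt_or_gt_of_ne hne with h | h
    · have h6 := hlt i j h
      have h7 := hle i
      rw [hij] at h7
      omega
    · have h6 := hlt j i h
      have h7 := hle j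
      rw [hij] at h6
      omega
  refine ⟨Set.range Gs, Set.range Hs, Set.infinite_range_of_injective hGinj,
    Set.infinite_range_of_injective hHinj, ⟨T₀, trivial, ⟨trivial, by norm_num, trivial,
      trivial⟩, ?_⟩, ?_⟩
  · rintro _ ⟨j, rfl⟩
    obtain ⟨P, hP⟩ := h3 (f j) (st j).1 (st j).2
    exact ⟨Gs j, ⟨j, rfl⟩, P, hP⟩
  · rintro ⟨T, _, hT, hprod⟩
    obtain ⟨j, rfl⟩ := hf T
    obtain ⟨_, ⟨k, rfl⟩, P, ⟨e⟩⟩ := hprod (Hs j) ⟨j, rfl⟩
    obtain ⟨h6, h7⟩ := h5 (f j) (st j).1 (st j).2 hT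
    rcases Nat.lt_trichotomy k j with hkj | hkj | hkj
    · -- too small
      obtain ⟨π, hπ, _⟩ := real_of_iso e
      have h8 := Fintype.card_le_of_injective π hπ
      rw [Fintype.card_fin, Fintype.card_fin] at h8
      have := hlt k j hkj
      omega
    · subst hkj
      exact (h6 P).false e
    · exact (h7 (Gs k) ((h4 _ _ _).mono (hmono j k hkj).2) P).false e

end Pool.Agent.H71.MT
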