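import Pool.Agent.H71.MT.EF

set_option autoImplicit false

/-!
# Positions built from paths
-/

noncomputable section

namespace Pool.Agent.H71.MT

variable {U U' C : Type} {I : SimpleGraph U} {I' : SimpleGraph U'} {col : U → C}
  {col' : U' → C} {Q : ℕ} {ρ L g : ℕ}

theorem segment {x y : U} (p : I.Walk x y) (hp : p.IsPath) {i j : ℕ} (hij : i ≤ j)
    (hj : j ≤ p.length) : ∃ q : I.Walk (p.getVert i) (p.getVert j), q.IsPath ∧
      q.length = j - i ∧ ∀ z ∈ q.support, ∃ k ≤ p.length, p.getVert k = z := by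
  have h1 : (p.drop i).getVert (j - i) = p.getVert j := by
    rw [SimpleGraph.Walk.drop_getVert]
    congr 1
    omega
  refine ⟨((p.drop i).take (j - i)).copy rfl h1, ?_, ?_, ?_⟩
  · rw [SimpleGraph.Walk.isPath_copy]
    exact (hp.drop i).take _
  · rw [SimpleGraph.Walk.length_copy, SimpleGraph.Walk.take_length, SimpleGraph.Walk.drop_length]
    omega
  · intro z hz
    rw [SimpleGraph.Walk.support_copy] at hz
    obtain ⟨n, hn1, hn2⟩ := SimpleGraph.Walk.mem_support_iff_exists_getVert.1 hz
    rw [SimpleGraph.Walk.take_getVert, SimpleGraph.Walk.drop_getVert] at hn1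
    rw [SimpleGraph.Walk.take_length, SimpleGraph.Walk.drop_length] at hn2
    exact ⟨_, by omega, hn1⟩

theorem clo_path {x y : U} (p : I.Walk x y) (hp : p.IsPath) (hLU : LU I g) (hpρ : p.length ≤ ρ)
    (hρ : ρ ≤ g) : Clo I (fun i : Fin (p.length + 1) => p.getVert i) (fun _ => 0) ρ := by
  have key : ∀ i j : Fin (p.length + 1), (i : ℕ) ≤ j →
      ∀ q : I.Walk (p.getVert i) (p.getVert j), q.IsPath → q.length ≤ ρ →
      ∀ z ∈ q.support, ∃ k : Fin (p.length + 1), p.getVert k = z := by
    intro i j hij q hq hl z hz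
    obtain ⟨r, hr1, hr2, hr3⟩ := segment p hp hij (by omega)
    have : q = r := hLU _ _ _ _ hq hr1 (by omega) (by omega)
    rw [this] at hz
    obtain ⟨k, hk1, hk2⟩ := hr3 z hz
    exact ⟨⟨k, by omega⟩, hk2⟩
  intro i j q hq hl z hz
  rcases le_total (i : ℕ) j with h | h
  · exact key i j h q hq (by simpa using hl) z hz
  · exact key j i h q.reverse hq.reverse (by
      rw [SimpleGraph.Walk.length_reverse]; simpa using hl) z (by
      rw [SimpleGraph.Walk.support_reverse]; exact List.mem_reverse.2 hz)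

theorem adj_path {x y : U} (p : I.Walk x y) (hp : p.IsPath) (hLU : LU I g) (hpg : p.length ≤ g)
    (hg1 : 1 ≤ g) {i j : ℕ} (hi : i ≤ p.length) (hj : j ≤ p.length) :
    I.Adj (p.getVert i) (p.getVert j) ↔ (j = i + 1 ∨ i = j + 1) := by
  have key : ∀ i j : ℕ, i ≤ j → j ≤ p.length → I.Adj (p.getVert i) (p.getVert j) → j = i + 1 := by
    intro i j hij hj hadj
    obtain ⟨r, hr1, hr2, hr3⟩ := segment p hp hij hj
    have he : (SimpleGraph.Walk.cons hadj SimpleGraph.Walk.nil).IsPath := by
      rw [SimpleGraph.Walk.cons_isPath_iff]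
      refine ⟨SimpleGraph.Walk.IsPath.nil, ?_⟩
      simp only [SimpleGraph.Walk.support_nil, List.mem_singleton]
      exact hadj.ne
    have := hLU _ _ _ _ hr1 he (by omega) (by
      change 1 ≤ g
      exact hg1)
    rw [this] at hr2
    change 1 = j - i at hr2
    omega
  constructor
  · intro h
    rcases le_total i j with h' | h'
    · exact Or.inl (key i j h' hj h)
    · exact Or.inr (key j i h' hi h.symm)
  · rintro (rfl | rfl)
    · exact p.adj_getVert_succ (by omega)
    · exact (p.adj_getVert_succ (by omega)).symm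

theorem pos_path {x y : U} {x' y' : U'} (p : I.Walk x y) (p' : I'.Walk x' y') (hp : p.IsPath)
    (hp' : p'.IsPath) (hlen : p'.length = p.length) (hLU : LU I g) (hLU' : LU I' g)
    (hpρ : p.length ≤ ρ) (hρ : ρ ≤ g) (hg1 : 1 ≤ g)
    (hty : ∀ i ≤ p.length, tau I col Q L (p.getVert i) = tau I' col' Q L (p'.getVert i)) :
    Pos I I' col col' Q (fun i : Fin (p.length + 1) => p.getVert i)
      (fun i : Fin (p.length + 1) => p'.getVert i) (fun _ => 0) ρ L := by
  refine ⟨?_, ?_, ?_, clo_path p hp hLU hpρ hρ, ?_⟩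
  · intro i j
    constructor
    · intro h
      have := hp.getVert_injOn (by simp only [Set.mem_ofPred_eq]; omega)
        (by simp only [Set.mem_ofPred_eq]; omega) h
      rw [this]
    · intro h
      have := hp'.getVert_injOn (by simp only [Set.mem_ofPred_eq]; omega)
        (by simp only [Set.mem_ofPred_eq]; omega) h
      rw [this]
  · intro i j
    rw [adj_path p hp hLU (by omega) hg1 (by omega) (by omega),
      adj_path p' hp' hLU' (by omega) hg1 (by omega) (by omega)]
  · intro i
    exact hty i (by omega)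
  · have h := clo_path p' hp' hLU' (by omega) hρ
    intro i j q hq hl z hz
    obtain ⟨k, hk⟩ := h ⟨i, by omega⟩ ⟨j, by omega⟩ q hq hl z hz
    exact ⟨⟨k, by omega⟩, hk⟩

theorem clo_far {x y : U} (hxy : ∀ p : I.Walk x y, p.IsPath → ¬ p.length ≤ ρ) :
    Clo I (fun i : Bool => if i then x else y) (fun _ => 0) ρ := by
  have k1 : ∀ (z : U) (p : I.Walk z z), p.IsPath → ∀ v ∈ p.support, v = z := by
    intro z p hp v hv
    have h1 : p = SimpleGraph.Walk.nil := SimpleGraph.Walk.isPath_iff_eq_nil.1 hp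
    rw [h1] at hv
    simpa using hv
  intro i j
  cases i <;> cases j <;> intro p hp hl z hz
  · exact ⟨false, (k1 _ p hp z hz).symm⟩
  · exact absurd (by rw [SimpleGraph.Walk.length_reverse]; simpa using hl)
      (hxy p.reverse hp.reverse)
  · exact absurd (by simpa using hl) (hxy p hp)
  · exact ⟨true, (k1 _ p hp z hz).symm⟩

theorem pos_far {x y : U} {x' y' : U'} (hxy : ∀ p : I.Walk x y, p.IsPath → ¬ p.length ≤ ρ)
    (hxy' : ∀ p : I'.Walk x' y', p.IsPath → ¬ p.length ≤ ρ) (hρ : 1 ≤ ρ)
    (hx : tau I col Q L x = tau I' col' Q L x') (hy : tau I col Q L y = tau I' col' Q L y') :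
    Pos I I' col col' Q (fun i : Bool => if i then x else y)
      (fun i : Bool => if i then x' else y') (fun _ => 0) ρ L := by
  have ne : ∀ {W : Type} {J : SimpleGraph W} {x y : W}
      (_ : ∀ p : J.Walk x y, p.IsPath → ¬ p.length ≤ ρ), x ≠ y := by
    rintro W J x y h rfl
    exact h SimpleGraph.Walk.nil SimpleGraph.Walk.IsPath.nil (Nat.zero_le _)
  have na : ∀ {W : Type} {J : SimpleGraph W} {x y : W}
      (_ : ∀ p : J.Walk x y, p.IsPath → ¬ p.length ≤ ρ), ¬ J.Adj x y := by
    intro W J x y h hadj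
    refine h (SimpleGraph.Walk.cons hadj SimpleGraph.Walk.nil) ?_ hρ
    rw [SimpleGraph.Walk.cons_isPath_iff]
    refine ⟨SimpleGraph.Walk.IsPath.nil, ?_⟩
    simp only [SimpleGraph.Walk.support_nil, List.mem_singleton]
    exact hadj.ne
  refine ⟨?_, ?_, ?_, clo_far hxy, clo_far hxy'⟩
  · intro i j
    cases i <;> cases j
    · exact ⟨fun _ => rfl, fun _ => rfl⟩
    · exact ⟨fun h => absurd h.symm (ne hxy), fun h => absurd h.symm (ne hxy')⟩
    · exact ⟨fun h => absurd h (ne hxy), fun h => absurd h (ne hxy')⟩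
    · exact ⟨fun _ => rfl, fun _ => rfl⟩
  · intro i j
    cases i <;> cases j
    · exact ⟨fun h => absurd h (I.loopless.irrefl _), fun h => absurd h (I'.loopless.irrefl _)⟩
    · exact ⟨fun h => absurd h.symm (na hxy), fun h => absurd h.symm (na hxy')⟩
    · exact ⟨fun h => absurd h (na hxy), fun h => absurd h (na hxy')⟩
    · exact ⟨fun h => absurd h (I.loopless.irrefl _), fun h => absurd h (I'.loopless.irrefl _)⟩
  · intro i
    cases i
    · exact hy
    · exact hx

variable {V V' B B' : Type} {m : ℕ}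

/-- Locality for formulas in two variables, along a short path. -/
theorem ef_path [Finite V] [Finite V'] [Finite B] [Finite B']
    {I : SimpleGraph (V ⊕ B)} {I' : SimpleGraph (V' ⊕ B')} {P : Fin m → Set V}
    {P' : Fin m → Set V'} (hLU : LU I g) (hLU' : LU I' g) (φ : Fml m) (hφ : IsFO φ) {k : ℕ}
    (hk : rank φ ≤ k) (hg : rho k ≤ g) (hglob : Glob I I' (colOf P) (colOf P') Q k)
    (hQ : siz k (rho k + 1) ≤ Q) {x y : V} {x' y' : V'}
    (p : I.Walk (.inl x) (.inl y)) (p' : I'.Walk (.inl x') (.inl y')) (hp : p.IsPath)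
    (hp' : p'.IsPath) (hlen : p'.length = p.length) (hpρ : p.length ≤ rho k)
    (hty : ∀ i ≤ p.length, tau I (colOf P) Q (lev k) (p.getVert i) =
      tau I' (colOf P') Q (lev k) (p'.getVert i)) :
    Sat (graphOf I) P φ (asg x y) ↔ Sat (graphOf I') P' φ (asg x' y') := by
  have h2 := two_le_rho k
  have hpos := pos_path (Q := Q) (L := lev k) (col := colOf P) (col' := colOf P') p p' hp hp' hlen
    hLU hLU' hpρ hg (by omega) hty
  refine ef hLU hLU' φ hφ k hk hg hglob _ _ hpos ?_ _ _
    (fun n => if n = 0 then 0 else Fin.last _) ?_ ?_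
  · refine (siz_mono k ?_).trans hQ
    rw [Nat.card_eq_fintype_card, Fintype.card_fin]
    omega
  · intro n
    by_cases hn : n = 0
    · simp [hn, asg]
    · simp [hn, asg]
  · intro n
    by_cases hn : n = 0
    · simp [hn, asg]
    · simp only [hn, if_false, Fin.val_last, asg]
      rw [← hlen, SimpleGraph.Walk.getVert_length]

/-- Locality for formulas in two variables, for far away elements. -/
theorem ef_far [Finite V] [Finite V'] [Finite B] [Finite B']
    {I : SimpleGraph (V ⊕ B)} {I' : SimpleGraph (V' ⊕ B')} {P : Fin m → Set V}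
    {P' : Fin m → Set V'} (hLU : LU I g) (hLU' : LU I' g) (φ : Fml m) (hφ : IsFO φ) {k : ℕ}
    (hk : rank φ ≤ k) (hg : rho k ≤ g) (hglob : Glob I I' (colOf P) (colOf P') Q k)
    (hQ : siz k (rho k + 1) ≤ Q) {x y : V} {x' y' : V'}
    (hxy : ∀ p : I.Walk (.inl x) (.inl y), p.IsPath → ¬ p.length ≤ rho k)
    (hxy' : ∀ p : I'.Walk (.inl x') (.inl y'), p.IsPath → ¬ p.length ≤ rho k)
    (hx : tau I (colOf P) Q (lev k) (.inl x) = tau I' (colOf P') Q (lev k) (.inl x'))
    (hy : tau I (colOf P) Q (lev k) (.inl y) = tau I' (colOf P') Q (lev k) (.inl y')) :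
    Sat (graphOf I) P φ (asg x y) ↔ Sat (graphOf I') P' φ (asg x' y') := by
  have h2 := two_le_rho k
  have hpos := pos_far (Q := Q) (L := lev k) (col := colOf P) (col' := colOf P') hxy hxy'
    (by omega) hx hy
  refine ef hLU hLU' φ hφ k hk hg hglob _ _ hpos ?_ _ _
    (fun n => if n = 0 then true else false) ?_ ?_
  · refine (siz_mono k ?_).trans hQ
    rw [Nat.card_eq_fintype_card, Fintype.card_bool]
    omega
  · intro n
    by_cases hn : n = 0
    · simp [hn, asg]
    · simp [hn, asg]
  · intro n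
    by_cases hn : n = 0
    · simp [hn, asg]
    · simp [hn, asg]

end Pool.Agent.H71.MT
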