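import Pool.Agent.H71.MT.Sys

set_option autoImplicit false

/-!
# The removed incidences are almost invisible for first-order transductions
-/

noncomputable section

namespace Pool.Agent.H71.MT

variable {N J : ℕ} {β : Type} {g m Q L ρ : ℕ}

theorem getVert_transfer {V : Type} {G H : SimpleGraph V} {u v : V} (p : G.Walk u v)
    (hp : ∀ e ∈ p.edges, e ∈ H.edgeSet) (n : ℕ) : (p.transfer H hp).getVert n = p.getVert n := by
  rw [SimpleGraph.Walk.getVert_eq_getD_support, SimpleGraph.Walk.getVert_eq_getD_support,
    SimpleGraph.Walk.support_transfer]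

/-- elements of a block with few elements of the same type -/
def Rare {T : Type} (S : Sys N J β) (c : Fin (N + N) → T) (Q : ℕ) (k : β) : Set (Fin J) :=
  {w | {w' | c (Fin.natAdd N (S.b k w')) = c (Fin.natAdd N (S.b k w))}.ncard ≤ Q}

/-- elements of a block with incidence on a relevant path -/
def OnPath (S : Sys N J β) (π : Fin N → Fin (N + N)) (ρ : ℕ) (k : β) : Set (Fin J) :=
  {w | ∃ k₀, ∃ p : (bip S.mem).Walk (.inl (π (S.x k₀))) (.inl (π (S.y k₀))), p.IsPath ∧
    p.length ≤ ρ ∧ s(.inl (Fin.natAdd N (S.b k w)), .inr k) ∈ p.edges}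

theorem tau_all [Finite β] {S : Sys N J β} {W : β → Fin J} {ε ε' : β → Bool}
    {P : Fin m → Set (Fin (N + N))} (hinj : ∀ k, Function.Injective (S.b k))
    (hc : ∀ v, tau (bip (S.pres W ε)) (colOf P) Q L (.inl v) =
      tau (bip (S.pres W ε')) (colOf P) Q L (.inl v))
    (hact : ∀ k, ε k ≠ ε' k →
      W k ∉ Rare S (fun v => tau (bip (S.pres W ε)) (colOf P) Q L (.inl v)) Q k) :
    ∀ i ≤ L, ∀ z, tau (bip (S.pres W ε)) (colOf P) Q i z =
      tau (bip (S.pres W ε')) (colOf P) Q i z := by
  intro i
  induction i with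
  | zero => intro _ z; rfl
  | succ i ih =>
    intro hi z
    cases z with
    | inl v => exact tau_mono hi (hc v)
    | inr k =>
      rw [tau_succ_iff]
      refine ⟨ih (by omega) _, fun t => ?_⟩
      by_cases hε : ε k = ε' k
      · have : {y | (bip (S.pres W ε)).Adj (.inr k) y ∧ tau (bip (S.pres W ε)) (colOf P) Q i y = t}
            = {y | (bip (S.pres W ε')).Adj (.inr k) y ∧
              tau (bip (S.pres W ε')) (colOf P) Q i y = t} := by
          ext y
          cases y with
          | inl v =>
            simp only [Set.mem_ofPred_eq, bip_rl, Sys.pres]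
            rw [ih (by omega), hε]
          | inr k' => exact ⟨fun h => absurd h.1 (fun h => h), fun h => absurd h.1 (fun h => h)⟩
        rw [this]
      · -- both sides agree up to the removed element
        have hrare := hact k hε
        simp only [Rare, Set.mem_ofPred_eq, not_le] at hrare
        have hco : ∀ v, tau (bip (S.pres W ε)) (colOf P) Q i (.inl v) =
            tau (bip (S.pres W ε')) (colOf P) Q i (.inl v) := fun v => ih (by omega) _
        set R : Set (Fin (N + N) ⊕ β) := {y | ∃ v, y = .inl v ∧ S.mem v k ∧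
          tau (bip (S.pres W ε)) (colOf P) Q i (.inl v) = t} \ {.inl (Fin.natAdd N (S.b k (W k)))}
          with hR
        have h0 : ∀ ε'' : β → Bool, (ε'' = ε ∨ ε'' = ε') →
            R ⊆ {y | (bip (S.pres W ε'')).Adj (.inr k) y ∧
              tau (bip (S.pres W ε'')) (colOf P) Q i y = t} ∧
            {y | (bip (S.pres W ε'')).Adj (.inr k) y ∧
              tau (bip (S.pres W ε'')) (colOf P) Q i y = t} ⊆
              insert (.inl (Fin.natAdd N (S.b k (W k)))) R := by
          intro ε'' hε''
          have htau : ∀ v, tau (bip (S.pres W ε'')) (colOf P) Q i (.inl v) =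
              tau (bip (S.pres W ε)) (colOf P) Q i (.inl v) := by
            intro v
            rcases hε'' with rfl | rfl
            · rfl
            · exact (hco v).symm
          constructor
          · rintro y ⟨⟨v, rfl, h1, h2⟩, h3⟩
            refine ⟨?_, by rw [htau]; exact h2⟩
            rw [bip_rl]
            rcases h1 with h1 | h1 | ⟨j, h1⟩
            · exact Or.inl h1
            · exact Or.inr (Or.inl h1)
            · refine Or.inr (Or.inr ⟨j, h1, ?_⟩)
              rintro ⟨h4, _⟩
              apply h3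
              rw [Set.mem_singleton_iff, h1, h4]
          · intro y hy
            by_cases hy1 : y = .inl (Fin.natAdd N (S.b k (W k)))
            · exact Or.inl hy1
            · right
              cases y with
              | inl v =>
                refine ⟨⟨v, rfl, ?_, ?_⟩, hy1⟩
                · exact Sys.pres_mem (bip_rl.1 hy.1)
                · rw [← htau]; exact hy.2
              | inr k' => exact absurd hy.1 (fun h => h)
        by_cases ht : tau (bip (S.pres W ε)) (colOf P) Q i (.inl (Fin.natAdd N (S.b k (W k)))) = t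
        · -- the class is abundant
          have hRQ : Q ≤ R.ncard := by
            have h1 : (fun w => (Sum.inl (Fin.natAdd N (S.b k w)) : Fin (N + N) ⊕ β)) ''
                ({w' | tau (bip (S.pres W ε)) (colOf P) Q L (.inl (Fin.natAdd N (S.b k w'))) =
                  tau (bip (S.pres W ε)) (colOf P) Q L (.inl (Fin.natAdd N (S.b k (W k))))} \
                  {W k}) ⊆ R := by
              rintro _ ⟨w, ⟨hw1, hw2⟩, rfl⟩
              refine ⟨⟨_, rfl, Or.inr (Or.inr ⟨w, rfl⟩), ?_⟩, ?_⟩
              · rw [← ht]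
                exact tau_mono (by omega) hw1
              · rw [Set.mem_singleton_iff]
                intro h2
                exact hw2 (hinj k (Fin.natAdd_injective N N (Sum.inl.inj h2)))
            have h2 := Set.ncard_le_ncard h1 (Set.toFinite _)
            rw [Set.ncard_image_of_injective _ (fun w w' hw =>
              hinj k (Fin.natAdd_injective N N (Sum.inl.inj hw)))] at h2
            have h3 := Set.pred_ncard_le_ncard_sdiff_singleton
              {w' | tau (bip (S.pres W ε)) (colOf P) Q L (.inl (Fin.natAdd N (S.b k w'))) =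
                  tau (bip (S.pres W ε)) (colOf P) Q L (.inl (Fin.natAdd N (S.b k (W k))))} (W k)
                  
            omega
          have h4 := Set.ncard_le_ncard (h0 ε (Or.inl rfl)).1 (Set.toFinite _)
          have h5 := Set.ncard_le_ncard (h0 ε' (Or.inr rfl)).1 (Set.toFinite _)
          omega
        · have h6 : ∀ ε'' : β → Bool, (ε'' = ε ∨ ε'' = ε') →
              {y | (bip (S.pres W ε'')).Adj (.inr k) y ∧
              tau (bip (S.pres W ε'')) (colOf P) Q i y = t} = R := by
            intro ε'' hε''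
            apply Set.Subset.antisymm
            · intro y hy
              rcases (h0 ε'' hε'').2 hy with h7 | h7
              · exfalso
                apply ht
                rw [← hy.2, h7]
                rcases hε'' with rfl | rfl
                · rfl
                · exact hco _
              · exact h7
            · exact (h0 ε'' hε'').1
          rw [h6 ε (Or.inl rfl), h6 ε' (Or.inr rfl)]

/-- `π` realizes `H` inside the output of a transduction with edge formula `η` -/
def Real (S : Sys N J β) (η : Fml m) (W : β → Fin J) (ε : β → Bool)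
    (P : Fin m → Set (Fin (N + N))) (π : Fin N → Fin (N + N)) : Prop :=
  Function.Injective π ∧ ∀ u v, (S.H ε).Adj u v ↔ u ≠ v ∧
    Sat (S.G W ε) P η (asg (π u) (π v)) ∧ Sat (S.G W ε) P η (asg (π v) (π u))

theorem path_transfer {S : Sys N J β} {W : β → Fin J} {ε ε' : β → Bool}
    {π : Fin N → Fin (N + N)} (hact : ∀ k, W k ∈ OnPath S π ρ k → ε k = ε' k) {k₀ : β}
    (p : (bip (S.pres W ε)).Walk (.inl (π (S.x k₀))) (.inl (π (S.y k₀)))) (hp : p.IsPath)
    (hl : p.length ≤ ρ) : ∀ e ∈ p.edges, e ∈ (bip (S.pres W ε')).edgeSet := by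
  have hle : bip (S.pres W ε) ≤ bip S.mem := bip_mono fun _ _ => Sys.pres_mem
  have key : ∀ v k, S.pres W ε v k → s(.inl v, .inr k) ∈ p.edges → S.pres W ε' v k := by
    intro v k h1 h2
    rcases h1 with h1 | h1 | ⟨j, h1, h3⟩
    · exact Or.inl h1
    · exact Or.inr (Or.inl h1)
    · refine Or.inr (Or.inr ⟨j, h1, ?_⟩)
      rintro ⟨rfl, h4⟩
      apply h3
      refine ⟨rfl, ?_⟩
      rw [← h4]
      apply hact
      refine ⟨k₀, p.mapLe hle, hp.mapLe hle, by simpa using hl, ?_⟩
      subst h1
      simpa using h2
  intro e he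
  have he' := SimpleGraph.Walk.edges_subset_edgeSet p he
  induction e using Sym2.ind with
  | _ a b =>
    rw [SimpleGraph.mem_edgeSet] at he' ⊢
    rcases a with v | k <;> rcases b with v' | k'
    · exact he'
    · exact key v k' he' he
    · exact key v' k he' (by rw [Sym2.eq_swap]; exact he)
    · exact he'

theorem same_eps [Finite β] {S : Sys N J β} (hS : S.Nice g) (hg : 4 ≤ g) (η : Fml m)
    (hη : IsFO η) {q : ℕ} (hq : rank η ≤ q) (hqg : rho q ≤ g) (hQ : siz q (rho q + 1) ≤ Q)
    {W : β → Fin J} {ε ε' : β → Bool} {P : Fin m → Set (Fin (N + N))}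
    {π : Fin N → Fin (N + N)} (h1 : Real S η W ε P π) (h2 : Real S η W ε' P π)
    (hc : ∀ v, tau (bip (S.pres W ε)) (colOf P) Q (lev q) (.inl v) =
      tau (bip (S.pres W ε')) (colOf P) Q (lev q) (.inl v))
    (hglob : Glob (bip (S.pres W ε)) (bip (S.pres W ε')) (colOf P) (colOf P) Q q)
    (hact : ∀ k, (W k ∈ Rare S (fun v => tau (bip (S.pres W ε)) (colOf P) Q (lev q) (.inl v)) Q k
      ∨ W k ∈ OnPath S π (rho q) k) → ε k = ε' k) (k₀ : β) (hk1 : ε k₀ = true)
    (hk2 : ε' k₀ = false) : False := by
  have hLU := hS.lu_pres W ε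
  have hLU' := hS.lu_pres W ε'
  have hty := tau_all hS.inj hc (fun k hk hr => hk (hact k (Or.inl hr))) (lev q) le_rfl
  have hadj : (S.H ε).Adj (S.x k₀) (S.y k₀) := ⟨hS.ne k₀, k₀, hk1, Or.inl ⟨rfl, rfl⟩⟩
  have hnadj : ¬ (S.H ε').Adj (S.x k₀) (S.y k₀) := by
    rintro ⟨_, k, hk, h⟩
    have : k₀ = k := by
      refine lu2 hS.lu (by omega) (fun h' => hS.ne k₀ (Fin.castAdd_injective N N h'))
        (Sys.mem_castAdd.2 (Or.inl rfl)) (Sys.mem_castAdd.2 (Or.inr rfl))
        (Sys.mem_castAdd.2 ?_) (Sys.mem_castAdd.2 ?_)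
      · rcases h with h | h
        · exact Or.inl h.1
        · exact Or.inr h.1
      · rcases h with h | h
        · exact Or.inr h.2
        · exact Or.inl h.2
    rw [← this, hk2] at hk
    exact absurd hk (by simp)
  have hact1 : ∀ k, W k ∈ OnPath S π (rho q) k → ε k = ε' k := fun k hk => hact k (Or.inr hk)
  have hact2 : ∀ k, W k ∈ OnPath S π (rho q) k → ε' k = ε k := fun k hk => (hact1 k hk).symm
  have hsat : (Sat (S.G W ε) P η (asg (π (S.x k₀)) (π (S.y k₀))) ↔
      Sat (S.G W ε') P η (asg (π (S.x k₀)) (π (S.y k₀)))) ∧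
      (Sat (S.G W ε) P η (asg (π (S.y k₀)) (π (S.x k₀))) ↔
      Sat (S.G W ε') P η (asg (π (S.y k₀)) (π (S.x k₀)))) := by
    by_cases hex : ∃ p : (bip (S.pres W ε)).Walk (.inl (π (S.x k₀))) (.inl (π (S.y k₀))),
        p.IsPath ∧ p.length ≤ rho q
    · obtain ⟨p, hp, hl⟩ := hex
      have he := path_transfer hact1 p hp hl
      have hg' : ∀ i, (p.transfer _ he).getVert i = p.getVert i := getVert_transfer p he
      have hlen : (p.transfer _ he).length = p.length := SimpleGraph.Walk.length_transfer _ _
      refine ⟨ef_path hLU hLU' η hη hq hqg hglob hQ p (p.transfer _ he) hp (hp.transfer he) hlen hl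
        ?_, ef_path hLU hLU' η hη hq hqg hglob hQ p.reverse (p.transfer _ he).reverse hp.reverse
          (hp.transfer he).reverse ?_ ?_ ?_⟩
      · intro i _
        rw [hg']
        exact hty _
      · rw [SimpleGraph.Walk.length_reverse, SimpleGraph.Walk.length_reverse, hlen]
      · rwa [SimpleGraph.Walk.length_reverse]
      · intro i _
        rw [SimpleGraph.Walk.getVert_reverse, SimpleGraph.Walk.getVert_reverse, hlen, hg']
        exact hty _
    · have hex' : ¬ ∃ p : (bip (S.pres W ε')).Walk (.inl (π (S.x k₀))) (.inl (π (S.y k₀))),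
          p.IsPath ∧ p.length ≤ rho q := by
        rintro ⟨p, hp, hl⟩
        have he := path_transfer hact2 p hp hl
        exact hex ⟨p.transfer _ he, hp.transfer he, by
          rwa [SimpleGraph.Walk.length_transfer]⟩
      exact ⟨ef_far hLU hLU' η hη hq hqg hglob hQ (fun p hp hl => hex ⟨p, hp, hl⟩)
        (fun p hp hl => hex' ⟨p, hp, hl⟩) (hty _) (hty _),
        ef_far hLU hLU' η hη hq hqg hglob hQ (fun p hp hl => hex ⟨p.reverse, hp.reverse, by
          rwa [SimpleGraph.Walk.length_reverse]⟩)
        (fun p hp hl => hex' ⟨p.reverse, hp.reverse, by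
          rwa [SimpleGraph.Walk.length_reverse]⟩) (hty _) (hty _)⟩
  apply hnadj
  rw [h2.2]
  have h3 := (h1.2 _ _).1 hadj
  exact ⟨h3.1, hsat.1.1 h3.2.1, hsat.2.1 h3.2.2⟩

end Pool.Agent.H71.MT
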