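import Pool.Agent.H71.MT.Paths

set_option autoImplicit false

/-!
# Small separated sets in locally tree-like graphs
-/

noncomputable section

namespace Pool.Agent.H71.MT

variable {U X : Type} {I : SimpleGraph U} {ρ g : ℕ}

/-- all short paths from `R` to the rest of `S` go through `t` -/
def Sep (I : SimpleGraph U) (ρ : ℕ) (π : X → U) (S : Finset X) (t : U) (R : Finset X) : Prop :=
  ∀ q ∈ R, ∀ z ∈ S, z ∉ R → ∀ p : I.Walk (π q) (π z), p.IsPath → p.length ≤ ρ → t ∈ p.support

/-- the nearness graph -/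
def near (I : SimpleGraph U) (ρ : ℕ) (π : X → U) (t : U) (R : Finset X) : SimpleGraph X where
  Adj a b := a ≠ b ∧ a ∈ R ∧ b ∈ R ∧ ∃ w : I.Walk (π a) (π b), t ∉ w.support ∧ w.length ≤ ρ
  symm := ⟨fun a b ⟨h1, h2, h3, w, h4, h5⟩ => ⟨h1.symm, h3, h2, w.reverse, by
    rwa [SimpleGraph.Walk.support_reverse, List.mem_reverse], by
    rwa [SimpleGraph.Walk.length_reverse]⟩⟩
  loopless := ⟨fun _ h => h.1 rfl⟩

theorem near_walk {π : X → U} {t : U} {R : Finset X} {a b : X} (w : (near I ρ π t R).Walk a b) :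
    π a ≠ t → ∃ w' : I.Walk (π a) (π b), t ∉ w'.support ∧ w'.length ≤ ρ * w.length := by
  induction w with
  | nil =>
    intro h
    exact ⟨SimpleGraph.Walk.nil, by simpa using h.symm, by simp⟩
  | cons hadj p ih =>
    intro h
    have hadj' := hadj
    obtain ⟨_, _, _, w1, h1, h2⟩ := hadj'
    have h3 : π _ ≠ t := fun h' => h1 (by rw [← h']; exact w1.end_mem_support)
    obtain ⟨w2, h4, h5⟩ := ih h3
    refine ⟨w1.append w2, ?_, ?_⟩
    · rw [SimpleGraph.Walk.mem_support_append_iff, not_or]
      exact ⟨h1, h4⟩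
    · rw [SimpleGraph.Walk.length_append, SimpleGraph.Walk.length_cons, mul_add, mul_one]
      omega

theorem last_unique (hLU : LU I g) {t s s' : U} (hs : I.Adj t s) (hs' : I.Adj t s')
    (w : I.Walk s s') (hw : t ∉ w.support) (hwg : w.length + 1 ≤ g) : s = s' := by
  classical
  have h1 : (SimpleGraph.Walk.cons hs w.bypass).IsPath := by
    rw [SimpleGraph.Walk.cons_isPath_iff]
    exact ⟨w.bypass_isPath, fun h => hw (w.support_bypass_subset_support h)⟩
  have h2 : (SimpleGraph.Walk.cons hs' SimpleGraph.Walk.nil).IsPath := by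
    rw [SimpleGraph.Walk.cons_isPath_iff]
    refine ⟨SimpleGraph.Walk.IsPath.nil, ?_⟩
    simp only [SimpleGraph.Walk.support_nil, List.mem_singleton]
    exact hs'.ne
  have hb := w.length_bypass_le_length
  have h3 := hLU _ _ _ _ h1 h2 (by rw [SimpleGraph.Walk.length_cons]; omega) (by
    change 1 ≤ g
    omega)
  have h4 := congrArg SimpleGraph.Walk.length h3
  rw [SimpleGraph.Walk.length_cons] at h4
  change _ = 1 at h4
  exact SimpleGraph.Walk.eq_of_length_eq_zero (p := w.bypass) (by omega)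

theorem path_head {t x : U} (p : I.Walk t x) (hp : p.IsPath) (htx : t ≠ x) :
    ∃ (s : U) (h : I.Adj t s) (p' : I.Walk s x), p'.IsPath ∧ t ∉ p'.support ∧
      p = SimpleGraph.Walk.cons h p' := by
  cases p with
  | nil => exact absurd rfl htx
  | cons h p' =>
    rw [SimpleGraph.Walk.cons_isPath_iff] at hp
    exact ⟨_, h, p', hp.1, hp.2, rfl⟩

theorem sep_small [Finite X] (hLU : LU I g) (π : X → U) (hπ : Function.Injective π)
    (S : Finset X) {κ : ℕ} (hκ : 1 ≤ κ) (hS : κ < S.card) (hg : (Nat.card X + 2) * ρ + 1 ≤ g) :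
    ∃ (t : U) (R : Finset X), R ⊆ S ∧ Sep I ρ π S t R ∧ κ < R.card ∧ R.card ≤ 2 * κ := by
  classical
  have := Fintype.ofFinite X
  -- a minimal set
  have hex : ∃ n, ∃ R : Finset X, R.card = n ∧ R ⊆ S ∧ κ < R.card ∧ ∃ t, Sep I ρ π S t R := by
    obtain ⟨x, hx⟩ := Finset.card_pos.1 (by omega : 0 < S.card)
    exact ⟨_, S, rfl, subset_rfl, hS, π x, fun q _ z hz hz' => absurd hz hz'⟩
  obtain ⟨R, hR1, hRS, hRκ, hRt⟩ := Nat.find_spec hex
  have hmin : ∀ R' : Finset X, R' ⊆ R → R' ≠ R → (∃ t, Sep I ρ π S t R') → R'.card ≤ κ := by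
    intro R' h1 h2 h3
    by_contra hcon
    have h4 := Finset.card_lt_card (Finset.ssubset_iff_subset_ne.2 ⟨h1, h2⟩)
    have h5 := Nat.find_min' hex ⟨R', rfl, h1.trans hRS, by omega, h3⟩
    omega
  -- components
  have hcomp : ∀ t, Sep I ρ π S t R → ∀ q ∈ R,
      (∃ q' ∈ R, ¬ (near I ρ π t R).Reachable q q') → R.card ≤ 2 * κ := by
    intro t ht q hq ⟨q₁, hq₁, hq₁'⟩
    set K := R.filter (fun q' => (near I ρ π t R).Reachable q q') with hK
    have hqK : q ∈ K := Finset.mem_filter.2 ⟨hq, SimpleGraph.Reachable.refl q⟩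
    have hKR : K ⊆ R := Finset.filter_subset _ _
    have hstep : ∀ a ∈ K, ∀ b ∈ R, (∃ w : I.Walk (π a) (π b), t ∉ w.support ∧ w.length ≤ ρ) →
        b ∈ K := by
      intro a ha b hb hw
      rw [hK, Finset.mem_filter] at ha ⊢
      refine ⟨hb, ?_⟩
      by_cases hab : a = b
      · rw [← hab]; exact ha.2
      · exact ha.2.trans (SimpleGraph.Adj.reachable ⟨hab, ha.1, hb, hw⟩)
    have h1 : K.card ≤ κ := by
      refine hmin K hKR ?_ ⟨t, ?_⟩
      · intro h
        rw [← h, hK, Finset.mem_filter] at hq₁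
        exact hq₁' hq₁.2
      · intro a ha z hz hzK p hp hl
        by_contra htp
        by_cases hzR : z ∈ R
        · exact hzK (hstep a ha z hzR ⟨p, htp, hl⟩)
        · exact htp (ht a (hKR ha) z hz hzR p hp hl)
    have h2 : (R \ K).card ≤ κ := by
      refine hmin _ Finset.sdiff_subset ?_ ⟨t, ?_⟩
      · intro h
        have : q ∈ R \ K := by rw [h]; exact hq
        exact (Finset.mem_sdiff.1 this).2 hqK
      · intro a ha z hz hzK p hp hl
        by_contra htp
        rw [Finset.mem_sdiff] at ha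
        by_cases hzR : z ∈ R
        · have hzK' : z ∈ K := by
            by_contra h
            exact hzK (Finset.mem_sdiff.2 ⟨hzR, h⟩)
          exact ha.2 (hstep z hzK' a ha.1 ⟨p.reverse, by
            rwa [SimpleGraph.Walk.support_reverse, List.mem_reverse], by
            rwa [SimpleGraph.Walk.length_reverse]⟩)
        · exact htp (ht a ha.1 z hz hzR p hp hl)
    have h3 := Finset.card_sdiff_add_card_eq_card hKR
    omega
  -- the case `t ∈ π '' R`
  have hin : ∀ q₀ ∈ R, Sep I ρ π S (π q₀) R → R.card ≤ 2 * κ := by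
    intro q₀ hq₀ ht
    obtain ⟨q, hq, hne⟩ := Finset.exists_mem_ne (by omega : 1 < R.card) q₀
    refine hcomp _ ht q hq ⟨q₀, hq₀, ?_⟩
    rintro ⟨w⟩
    obtain ⟨w', h1, _⟩ := near_walk w (fun h => hne (hπ h))
    exact h1 w'.end_mem_support
  have hmain : ∀ d t, Sep I ρ π S t R → Rch I (π '' R) d t → R.card ≤ 2 * κ := by
    intro d
    induction d using Nat.strong_induction_on with
    | _ d ih =>
      intro t ht hd
      by_cases hd' : ∃ d' < d, Rch I (π '' R) d' t
      · obtain ⟨d', h1, h2⟩ := hd'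
        exact ih d' h1 t ht h2
      push Not at hd'
      obtain ⟨_, ⟨q₁, hq₁, rfl⟩, w, hw⟩ := hd
      rw [Finset.mem_coe] at hq₁
      by_cases htR : ∃ q ∈ R, π q = t
      · obtain ⟨q, hq, rfl⟩ := htR
        exact hin q hq ht
      push Not at htR
      by_cases hconn : ∃ q' ∈ R, ¬ (near I ρ π t R).Reachable q₁ q'
      · exact hcomp t ht q₁ hq₁ hconn
      push Not at hconn
      by_cases hdρ : ρ < d
      · -- no short paths from `R` to `t`
        refine hin q₁ hq₁ ?_
        intro q hq z hz hzR p hp hl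
        exfalso
        have htp := ht q hq z hz hzR p hp hl
        have h1 := p.length_takeUntil_le_length htp
        exact hd' (p.takeUntil t htp).length (by omega)
          ⟨_, ⟨q, by exact hq, rfl⟩, p.takeUntil t htp, le_rfl⟩
      -- move `t`
      have hb := w.length_bypass_le_length
      obtain ⟨s, hs, p₁, hp1, hp2, hp3⟩ := path_head w.bypass.reverse w.bypass_isPath.reverse
        (fun h => htR q₁ hq₁ h.symm)
      have hp4 := congrArg SimpleGraph.Walk.length hp3
      rw [SimpleGraph.Walk.length_cons, SimpleGraph.Walk.length_reverse] at hp4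
      refine ih p₁.length (by omega) s ?_ ⟨π q₁, ⟨q₁, by exact hq₁, rfl⟩, p₁.reverse, by
        rw [SimpleGraph.Walk.length_reverse]⟩
      intro q hq z hz hzR p hp hl
      have htp := ht q hq z hz hzR p hp hl
      have h1 := p.length_takeUntil_le_length htp
      obtain ⟨s', hs', p₂, hp1', hp2', hp3'⟩ := path_head (p.takeUntil t htp).reverse
        (hp.takeUntil htp).reverse (fun h => htR q hq h.symm)
      have hp4' := congrArg SimpleGraph.Walk.length hp3'
      rw [SimpleGraph.Walk.length_cons, SimpleGraph.Walk.length_reverse] at hp4'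
      obtain ⟨wn⟩ := hconn q hq
      obtain ⟨w', hw1, hw2⟩ := near_walk wn.bypass (htR q₁ hq₁)
      have hlt := wn.bypass_isPath.length_lt
      rw [← Nat.card_eq_fintype_card] at hlt
      have hw3 : w'.length ≤ ρ * Nat.card X := hw2.trans (Nat.mul_le_mul_left ρ hlt.le)
      have hss : s = s' := by
        refine last_unique hLU hs hs' (p₁.append (w'.append p₂.reverse)) ?_ ?_
        · rw [SimpleGraph.Walk.mem_support_append_iff, SimpleGraph.Walk.mem_support_append_iff,
            SimpleGraph.Walk.support_reverse, List.mem_reverse]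
          simp only [not_or]
          exact ⟨hp2, hw1, hp2'⟩
        · rw [SimpleGraph.Walk.length_append, SimpleGraph.Walk.length_append,
            SimpleGraph.Walk.length_reverse]
          rw [add_mul, mul_comm (Nat.card X)] at hg
          omega
      subst hss
      apply p.support_takeUntil_subset_support htp
      rw [← List.mem_reverse, ← SimpleGraph.Walk.support_reverse, hp3']
      simp
  obtain ⟨t, ht⟩ := hRt
  refine ⟨t, R, hRS, ht, hRκ, ?_⟩
  obtain ⟨q, hq⟩ := Finset.card_pos.1 (by omega : 0 < R.card)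
  by_cases hr : ∃ d, Rch I (π '' R) d t
  · obtain ⟨d, hd⟩ := hr
    exact hmain d t ht hd
  · refine hin q hq ?_
    intro q' hq' z hz hzR p hp hl
    exfalso
    have htp := ht q' hq' z hz hzR p hp hl
    exact hr ⟨_, _, ⟨q', by exact hq', rfl⟩, p.takeUntil t htp, le_rfl⟩

end Pool.Agent.H71.MT
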