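import Pool.Agent.H71.MT.Gamma

set_option autoImplicit false

/-!
# Block systems and the modulo-counting transduction
-/

noncomputable section

namespace Pool.Agent.H71.MT

variable {V B U : Type} {g : ℕ}

/-- incidence graph of a relation -/
def bip (r : V → B → Prop) : SimpleGraph (V ⊕ B) where
  Adj
    | .inl v, .inr k => r v k
    | .inr k, .inl v => r v k
    | _, _ => False
  symm := ⟨by rintro (v | k) (v' | k') h <;> exact h⟩
  loopless := ⟨by rintro (v | k) h <;> exact h⟩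

theorem bip_lr {r : V → B → Prop} {v : V} {k : B} : (bip r).Adj (.inl v) (.inr k) ↔ r v k :=
  Iff.rfl

theorem bip_rl {r : V → B → Prop} {v : V} {k : B} : (bip r).Adj (.inr k) (.inl v) ↔ r v k :=
  Iff.rfl

theorem bip_mono {r r' : V → B → Prop} (h : ∀ v k, r v k → r' v k) : bip r ≤ bip r' := by
  rintro (v | k) (v' | k') h'
  · exact h'
  · exact h _ _ h'
  · exact h _ _ h'
  · exact h'

theorem LU.mono_graph {I I' : SimpleGraph U} (h : I ≤ I') (hLU : LU I' g) : LU I g := by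
  intro x y p q hp hq hpl hql
  have h1 : p.mapLe h = q.mapLe h := by
    refine hLU _ _ _ _ (hp.mapLe h) (hq.mapLe h) ?_ ?_
    · simpa using hpl
    · simpa using hql
  exact SimpleGraph.Walk.map_injective_of_injective (f := SimpleGraph.Hom.ofLE h)
    Function.injective_id x y h1

theorem LU.mono {I : SimpleGraph U} {g' : ℕ} (h : g' ≤ g) (hLU : LU I g) : LU I g' :=
  fun x y p q hp hq hpl hql => hLU x y p q hp hq (hpl.trans h) (hql.trans h)

/-- the path of length two -/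
def walk2 {r : V → B → Prop} {u v : V} {k : B} (hu : r u k) (hv : r v k) :
    (bip r).Walk (.inl u) (.inl v) :=
  SimpleGraph.Walk.cons (bip_lr.2 hu) (SimpleGraph.Walk.cons (bip_rl.2 hv)
    SimpleGraph.Walk.nil)

theorem walk2_isPath {r : V → B → Prop} {u v : V} {k : B} (hu : r u k) (hv : r v k)
    (huv : u ≠ v) : (walk2 hu hv).IsPath := by
  rw [walk2, SimpleGraph.Walk.cons_isPath_iff, SimpleGraph.Walk.cons_isPath_iff]
  exact ⟨⟨SimpleGraph.Walk.IsPath.nil, by simp⟩, by simpa using huv⟩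

/-- the path of length four -/
def walk4 {r : V → B → Prop} {u z v : V} {k l : B} (hu : r u k) (hz : r z k) (hz' : r z l)
    (hv : r v l) : (bip r).Walk (.inl u) (.inl v) :=
  SimpleGraph.Walk.cons (bip_lr.2 hu) (SimpleGraph.Walk.cons (bip_rl.2 hz) (walk2 hz' hv))

theorem walk4_isPath {r : V → B → Prop} {u z v : V} {k l : B} (hu : r u k) (hz : r z k)
    (hz' : r z l) (hv : r v l) (huv : u ≠ v) (huz : u ≠ z) (hzv : z ≠ v) (hkl : k ≠ l) :
    (walk4 hu hz hz' hv).IsPath := by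
  rw [walk4, SimpleGraph.Walk.cons_isPath_iff, SimpleGraph.Walk.cons_isPath_iff]
  refine ⟨⟨walk2_isPath _ _ hzv, ?_⟩, ?_⟩
  · simpa [walk2] using hkl
  · simp [walk2, huz, huv]

theorem lu2 {r : V → B → Prop} (hLU : LU (bip r) g) (hg : 2 ≤ g) {u v : V} {k l : B}
    (huv : u ≠ v) (h1 : r u k) (h2 : r v k) (h3 : r u l) (h4 : r v l) : k = l := by
  have h := hLU _ _ _ _ (walk2_isPath h1 h2 huv) (walk2_isPath h3 h4 huv) hg hg
  have h' := congrArg SimpleGraph.Walk.support h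
  simpa [walk2] using h'

theorem lu24 {r : V → B → Prop} (hLU : LU (bip r) g) (hg : 4 ≤ g) {u v z : V} {k k1 k2 : B}
    (huv : u ≠ v) (huz : u ≠ z) (hzv : z ≠ v) (h1 : r u k) (h2 : r v k) (h3 : r u k1)
    (h4 : r z k1) (h5 : r z k2) (h6 : r v k2) : k1 = k := by
  by_cases h : k1 = k2
  · subst h
    exact lu2 hLU (by omega) huv h3 h6 h1 h2
  · have h7 := hLU _ _ _ _ (walk2_isPath h1 h2 huv) (walk4_isPath h3 h4 h5 h6 huv huz hzv h)
      ((by omega : 2 ≤ g)) hg
    have h8 := congrArg SimpleGraph.Walk.length h7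
    change 2 = 4 at h8
    omega

theorem lu44 {r : V → B → Prop} (hLU : LU (bip r) g) (hg : 4 ≤ g) {u v z z' : V}
    {k l k' l' : B} (huv : u ≠ v) (huz : u ≠ z) (hzv : z ≠ v) (huz' : u ≠ z') (hzv' : z' ≠ v)
    (hkl : k ≠ l) (hkl' : k' ≠ l') (h1 : r u k) (h2 : r z k) (h3 : r z l)
    (h4 : r v l) (h1' : r u k') (h2' : r z' k') (h3' : r z' l') (h4' : r v l') : z = z' := by
  have h := hLU _ _ _ _ (walk4_isPath h1 h2 h3 h4 huv huz hzv hkl)
    (walk4_isPath h1' h2' h3' h4' huv huz' hzv' hkl') hg hg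
  have h' := congrArg SimpleGraph.Walk.support h
  simp only [walk4, walk2, SimpleGraph.Walk.support_cons, List.cons.injEq, Sum.inl.injEq] at h'
  exact h'.2.2.1

/-- A system of blocks: each block has two points in the first part and `J` points in the second
part. -/
structure Sys (N J : ℕ) (β : Type) where
  x : β → Fin N
  y : β → Fin N
  b : β → Fin J → Fin N

variable {N J : ℕ} {β : Type}

/-- membership in a block -/
def Sys.mem (S : Sys N J β) (v : Fin (N + N)) (k : β) : Prop :=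
  v = Fin.castAdd N (S.x k) ∨ v = Fin.castAdd N (S.y k) ∨ ∃ j, v = Fin.natAdd N (S.b k j)

/-- membership in a block, after the removal of some incidences -/
def Sys.pres (S : Sys N J β) (W : β → Fin J) (ε : β → Bool) (v : Fin (N + N)) (k : β) : Prop :=
  v = Fin.castAdd N (S.x k) ∨ v = Fin.castAdd N (S.y k) ∨
    ∃ j, v = Fin.natAdd N (S.b k j) ∧ ¬ (j = W k ∧ ε k = false)

theorem Sys.pres_mem {S : Sys N J β} {W : β → Fin J} {ε : β → Bool} {v : Fin (N + N)} {k : β}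
    (h : S.pres W ε v k) : S.mem v k := by
  rcases h with h | h | ⟨j, h, _⟩
  · exact Or.inl h
  · exact Or.inr (Or.inl h)
  · exact Or.inr (Or.inr ⟨j, h⟩)

/-- nondegenerate system -/
structure Sys.Nice (S : Sys N J β) (g : ℕ) : Prop where
  ne : ∀ k, S.x k ≠ S.y k
  inj : ∀ k, Function.Injective (S.b k)
  lu : LU (bip S.mem) g

/-- the graph `G` -/
abbrev Sys.G (S : Sys N J β) (W : β → Fin J) (ε : β → Bool) : SimpleGraph (Fin (N + N)) :=
  graphOf (bip (S.pres W ε))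

/-- the graph `H` -/
def Sys.H (S : Sys N J β) (ε : β → Bool) : SimpleGraph (Fin N) where
  Adj u v := u ≠ v ∧ ∃ k, ε k = true ∧ ((u = S.x k ∧ v = S.y k) ∨ (u = S.y k ∧ v = S.x k))
  symm := ⟨fun _ _ ⟨h, k, hk, h'⟩ => ⟨h.symm, k, hk, by tauto⟩⟩
  loopless := ⟨fun _ h => h.1 rfl⟩

theorem castAdd_ne_natAdd (a b : Fin N) : Fin.castAdd N a ≠ Fin.natAdd N b := by
  intro h
  have := congrArg Fin.val h
  simp only [Fin.val_castAdd, Fin.val_natAdd] at this
  omega

theorem Sys.pres_castAdd {S : Sys N J β} {W : β → Fin J} {ε : β → Bool} {a : Fin N} {k : β} :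
    S.pres W ε (Fin.castAdd N a) k ↔ a = S.x k ∨ a = S.y k := by
  constructor
  · rintro (h | h | ⟨j, h, _⟩)
    · exact Or.inl (Fin.castAdd_injective N N h)
    · exact Or.inr (Fin.castAdd_injective N N h)
    · exact absurd h (castAdd_ne_natAdd _ _)
  · rintro (rfl | rfl)
    · exact Or.inl rfl
    · exact Or.inr (Or.inl rfl)

theorem Sys.mem_castAdd {S : Sys N J β} {a : Fin N} {k : β} :
    S.mem (Fin.castAdd N a) k ↔ a = S.x k ∨ a = S.y k := by
  constructor
  · rintro (h | h | ⟨j, h⟩)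
    · exact Or.inl (Fin.castAdd_injective N N h)
    · exact Or.inr (Fin.castAdd_injective N N h)
    · exact absurd h (castAdd_ne_natAdd _ _)
  · rintro (rfl | rfl)
    · exact Or.inl rfl
    · exact Or.inr (Or.inl rfl)

theorem Sys.Nice.lu_pres {S : Sys N J β} {g : ℕ} (h : S.Nice g) (W : β → Fin J)
    (ε : β → Bool) : LU (bip (S.pres W ε)) g :=
  h.lu.mono_graph (bip_mono fun _ _ => Sys.pres_mem)

theorem Sys.Nice.adj_iff {S : Sys N J β} {g : ℕ} (h : S.Nice g) {W : β → Fin J}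
    {ε : β → Bool} {u v : Fin N} : (S.G W ε).Adj (Fin.castAdd N u) (Fin.castAdd N v) ↔
      ∃ k, ((u = S.x k ∧ v = S.y k) ∨ (u = S.y k ∧ v = S.x k)) := by
  constructor
  · rintro ⟨hne, k, h1, h2⟩
    rw [bip_lr, Sys.pres_castAdd] at h1 h2
    have hne' : u ≠ v := fun h => hne (by rw [h])
    refine ⟨k, ?_⟩
    rcases h1 with h1 | h1 <;> rcases h2 with h2 | h2
    · exact absurd (h1.trans h2.symm) hne'
    · exact Or.inl ⟨h1, h2⟩
    · exact Or.inr ⟨h1, h2⟩
    · exact absurd (h1.trans h2.symm) hne'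
  · rintro ⟨k, ⟨rfl, rfl⟩ | ⟨rfl, rfl⟩⟩
    · exact ⟨fun h' => h.ne k (Fin.castAdd_injective N N h'), k, Sys.pres_castAdd.2 (Or.inl rfl),
        Sys.pres_castAdd.2 (Or.inr rfl)⟩
    · exact ⟨fun h' => h.ne k (Fin.castAdd_injective N N h').symm, k,
        Sys.pres_castAdd.2 (Or.inr rfl), Sys.pres_castAdd.2 (Or.inl rfl)⟩

theorem Sys.Nice.common {S : Sys N J β} {g : ℕ} (h : S.Nice g) (hg : 4 ≤ g) {W : β → Fin J}
    {ε : β → Bool} (k : β) : {z | (S.G W ε).Adj (Fin.castAdd N (S.x k)) z ∧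
      (S.G W ε).Adj (Fin.castAdd N (S.y k)) z} =
      (fun j => Fin.natAdd N (S.b k j)) '' {j | ¬ (j = W k ∧ ε k = false)} := by
  have hx : S.pres W ε (Fin.castAdd N (S.x k)) k := Sys.pres_castAdd.2 (Or.inl rfl)
  have hy : S.pres W ε (Fin.castAdd N (S.y k)) k := Sys.pres_castAdd.2 (Or.inr rfl)
  have hxy : Fin.castAdd N (S.x k) ≠ Fin.castAdd N (S.y k) :=
    fun h' => h.ne k (Fin.castAdd_injective N N h')
  ext z
  constructor
  · rintro ⟨⟨h1, k1, h2, h3⟩, ⟨h4, k2, h5, h6⟩⟩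
    rw [bip_lr] at h2 h3 h5 h6
    have hk := lu24 (h.lu_pres W ε) hg hxy h1 h4.symm hx hy h2 h3 h6 h5
    subst hk
    rcases h3 with h3 | h3 | ⟨j, h3, h7⟩
    · exact absurd h3.symm h1
    · exact absurd h3.symm h4
    · exact ⟨j, h7, h3.symm⟩
  · rintro ⟨j, hj, rfl⟩
    have hz : S.pres W ε (Fin.natAdd N (S.b k j)) k := Or.inr (Or.inr ⟨j, rfl, hj⟩)
    exact ⟨⟨castAdd_ne_natAdd _ _, k, hx, hz⟩, ⟨castAdd_ne_natAdd _ _, k, hy, hz⟩⟩

theorem Sys.Nice.common_card {S : Sys N J β} {g : ℕ} (h : S.Nice g) (hg : 4 ≤ g)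
    (hJ : Even J) {W : β → Fin J} {ε : β → Bool} (k : β) :
    {z | (S.G W ε).Adj (Fin.castAdd N (S.x k)) z ∧
      (S.G W ε).Adj (Fin.castAdd N (S.y k)) z}.ncard ≡ 0 [MOD 2] ↔ ε k = true := by
  rw [h.common hg k, Set.ncard_image_of_injective]
  · cases hε : ε k with
    | false =>
      have h1 : {j : Fin J | ¬ (j = W k ∧ false = false)} = {W k}ᶜ := by
        ext j
        simp
      rw [h1, Set.ncard_compl, Set.ncard_singleton, Nat.card_eq_fintype_card, Fintype.card_fin]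
      have hJ1 : 0 < J := Fin.pos (W k)
      obtain ⟨l, rfl⟩ := hJ
      constructor
      · intro h2
        have h3 : (l + l - 1) % 2 = 0 % 2 := h2
        omega
      · intro h2
        exact absurd h2 (by simp)
    | true =>
      have h1 : {j : Fin J | ¬ (j = W k ∧ true = false)} = Set.univ := by
        ext j
        simp
      rw [h1, Set.ncard_univ, Nat.card_eq_fintype_card, Fintype.card_fin]
      obtain ⟨l, rfl⟩ := hJ
      constructor
      · intro _
        rfl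
      · intro _
        change (l + l) % 2 = 0 % 2
        omega
  · intro i j hij
    exact h.inj k (Fin.natAdd_injective N N hij)

/-- the modulo-counting transduction: coloured vertices, adjacent with an even number of common
neighbours -/
def T₀ : Transd where
  m := 1
  ν := .col 0 0
  η := .conj (.edge 0 1) (.modEx 0 2 2 (.conj (.edge 0 2) (.edge 1 2)))

theorem sat_η {V : Type} (G : SimpleGraph V) (P : Fin T₀.m → Set V) (u v : V) :
    Sat G P T₀.η (asg u v) ↔ G.Adj u v ∧ {z | G.Adj u z ∧ G.Adj v z}.ncard ≡ 0 [MOD 2] := by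
  simp [T₀, Sat, asg, Function.update]

theorem Sys.Nice.produces {S : Sys N J β} {g : ℕ} (h : S.Nice g) (hg : 4 ≤ g)
    (hJ : Even J) (W : β → Fin J) (ε : β → Bool) :
    Nonempty (S.H ε ≃g T₀.out (S.G W ε) (fun _ => Set.range (Fin.castAdd N))) := by
  have hkey : ∀ u v : Fin N, (S.H ε).Adj u v ↔
      Sat (S.G W ε) (fun _ => Set.range (Fin.castAdd N)) T₀.η
        (asg (Fin.castAdd N u) (Fin.castAdd N v)) := by
    intro u v
    rw [sat_η, h.adj_iff]
    constructor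
    · rintro ⟨_, k, hk, ⟨rfl, rfl⟩ | ⟨rfl, rfl⟩⟩
      · exact ⟨⟨k, Or.inl ⟨rfl, rfl⟩⟩, (h.common_card hg hJ k).2 hk⟩
      · refine ⟨⟨k, Or.inr ⟨rfl, rfl⟩⟩, ?_⟩
        simp only [and_comm (a := (S.G W ε).Adj (Fin.castAdd N (S.y k)) _)]
        exact (h.common_card hg hJ k).2 hk
    · rintro ⟨⟨k, ⟨rfl, rfl⟩ | ⟨rfl, rfl⟩⟩, h2⟩
      · exact ⟨h.ne k, k, (h.common_card hg hJ k).1 h2, Or.inl ⟨rfl, rfl⟩⟩
      · simp only [and_comm (a := (S.G W ε).Adj (Fin.castAdd N (S.y k)) _)] at h2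
        exact ⟨(h.ne k).symm, k, (h.common_card hg hJ k).1 h2, Or.inr ⟨rfl, rfl⟩⟩
  let f : Fin N → {v : Fin (N + N) // Sat (S.G W ε) (fun _ => Set.range (Fin.castAdd N)) T₀.ν
      (asg v v)} := fun u => ⟨Fin.castAdd N u, ⟨u, rfl⟩⟩
  have hf : Function.Bijective f := by
    constructor
    · intro u v huv
      exact Fin.castAdd_injective N N (congrArg Subtype.val huv)
    · rintro ⟨v, ⟨u, hu⟩⟩
      exact ⟨u, Subtype.ext hu⟩
  refine ⟨⟨Equiv.ofBijective f hf, ?_⟩⟩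
  intro u v
  change (f u ≠ f v ∧ _ ∧ _) ↔ _
  constructor
  · rintro ⟨_, h2, _⟩
    exact (hkey u v).2 h2
  · intro h2
    exact ⟨fun h3 => h2.1 (hf.1 h3), (hkey u v).1 h2, (hkey v u).1 h2.symm⟩

theorem Sys.Nice.k22 {S : Sys N J β} {g : ℕ} (h : S.Nice g) (hg : 4 ≤ g) (ε : β → Bool) :
    K22Free (S.H ε) := by
  intro a b c d hab hcd hac had hbc hbd
  have key : ∀ {a b c : Fin N}, a ≠ b → (S.H ε).Adj a c → (S.H ε).Adj b c →
      ∃ k l, k ≠ l ∧ S.mem (Fin.castAdd N a) k ∧ S.mem (Fin.castAdd N c) k ∧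
        S.mem (Fin.castAdd N c) l ∧ S.mem (Fin.castAdd N b) l := by
    rintro a b c hab ⟨h1, k, _, h2⟩ ⟨h3, l, _, h4⟩
    refine ⟨k, l, ?_, ?_, ?_, ?_, ?_⟩
    · rintro rfl
      apply hab
      rcases h2 with ⟨h5, h6⟩ | ⟨h5, h6⟩ <;> rcases h4 with ⟨h7, h8⟩ | ⟨h7, h8⟩
      · rw [h5, h7]
      · exact absurd (h6.symm.trans h8).symm (h.ne k)
      · exact absurd (h6.symm.trans h8) (h.ne k)
      · rw [h5, h7]
    all_goals rw [Sys.mem_castAdd]; tauto
  obtain ⟨k, l, hkl, h1, h2, h3, h4⟩ := key hab hac hbc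
  obtain ⟨k', l', hkl', h1', h2', h3', h4'⟩ := key hab had hbd
  have inj : ∀ {a b : Fin N}, a ≠ b → Fin.castAdd N a ≠ Fin.castAdd N b :=
    fun h h' => h (Fin.castAdd_injective N N h')
  exact inj hcd (lu44 h.lu hg (inj hab) (inj hac.1) (inj hbc.1.symm) (inj had.1) (inj hbd.1.symm)
    hkl hkl' h1 h2 h3 h4 h1' h2' h3' h4')

theorem Sys.Nice.pairs [Finite β] {S : Sys N J β} {g : ℕ} (h : S.Nice g) (hg : 4 ≤ g)
    (ε : β → Bool) :
    {k | ε k = true}.ncard ≤ {p : Fin N × Fin N | (S.H ε).Adj p.1 p.2}.ncard := by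
  refine Set.ncard_le_ncard_of_injOn (fun k => (S.x k, S.y k)) ?_ ?_
  · intro k hk
    exact ⟨h.ne k, k, hk, Or.inl ⟨rfl, rfl⟩⟩
  · intro k hk l hl hkl
    simp only [Prod.mk.injEq] at hkl
    refine lu2 h.lu (by omega) (fun h' => h.ne k (Fin.castAdd_injective N N h'))
      (Sys.mem_castAdd.2 (Or.inl rfl)) (Sys.mem_castAdd.2 (Or.inr rfl))
      (Sys.mem_castAdd.2 (Or.inl hkl.1)) (Sys.mem_castAdd.2 (Or.inr hkl.2))

end Pool.Agent.H71.MT
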