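import Pool.Agent.H71.MT.Defs

set_option autoImplicit false

/-!
# Local types in coloured graphs
-/

noncomputable section

namespace Pool.Agent.H71.MT

/-- local types -/
def Ty (C : Type) (Q : ℕ) : ℕ → Type
  | 0 => C
  | i + 1 => Ty C Q i × (Ty C Q i → Fin (Q + 1))

instance instFiniteTy {C : Type} [Finite C] (Q : ℕ) : ∀ i, Finite (Ty C Q i)
  | 0 => inferInstanceAs (Finite C)
  | i + 1 =>
    have := instFiniteTy (C := C) Q i
    inferInstanceAs (Finite (Ty C Q i × (Ty C Q i → Fin (Q + 1))))

variable {U U' C : Type}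

/-- the local type of a vertex, with counts capped at `Q` -/
def tau (I : SimpleGraph U) (col : U → C) (Q : ℕ) : ∀ i, U → Ty C Q i
  | 0, x => col x
  | i + 1, x => (tau I col Q i x,
      fun t => ⟨min Q {y | I.Adj x y ∧ tau I col Q i y = t}.ncard, by omega⟩)

theorem tau_succ_iff {I : SimpleGraph U} {I' : SimpleGraph U'} {col : U → C} {col' : U' → C}
    {Q i : ℕ} {x : U} {x' : U'} : tau I col Q (i + 1) x = tau I' col' Q (i + 1) x' ↔
      tau I col Q i x = tau I' col' Q i x' ∧
      ∀ t, min Q {y | I.Adj x y ∧ tau I col Q i y = t}.ncard =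
        min Q {y | I'.Adj x' y ∧ tau I' col' Q i y = t}.ncard := by
  constructor
  · intro h
    have h1 : ((tau I col Q i x, fun t => ⟨min Q {y | I.Adj x y ∧ tau I col Q i y = t}.ncard,
      by omega⟩) : Ty C Q i × (Ty C Q i → Fin (Q + 1))) =
      (tau I' col' Q i x', fun t => ⟨min Q {y | I'.Adj x' y ∧ tau I' col' Q i y = t}.ncard,
      by omega⟩) := h
    rw [Prod.ext_iff] at h1
    refine ⟨h1.1, fun t => ?_⟩
    have h2 := congrFun h1.2 t
    simpa using h2
  · rintro ⟨h1, h2⟩
    change ((tau I col Q i x, fun t => ⟨min Q {y | I.Adj x y ∧ tau I col Q i y = t}.ncard,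
      by omega⟩) : Ty C Q i × (Ty C Q i → Fin (Q + 1))) =
      (tau I' col' Q i x', fun t => ⟨min Q {y | I'.Adj x' y ∧ tau I' col' Q i y = t}.ncard,
      by omega⟩)
    refine Prod.ext h1 (funext fun t => ?_)
    apply Fin.ext
    exact h2 t

theorem tau_mono {I : SimpleGraph U} {I' : SimpleGraph U'} {col : U → C} {col' : U' → C}
    {Q i j : ℕ} {x : U} {x' : U'} (hij : i ≤ j) (h : tau I col Q j x = tau I' col' Q j x') :
    tau I col Q i x = tau I' col' Q i x' := by
  induction j, hij using Nat.le_induction with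
  | base => exact h
  | succ j _ ih => exact ih (tau_succ_iff.1 h).1

/-- local uniqueness of short paths -/
def LU (I : SimpleGraph U) (g : ℕ) : Prop :=
  ∀ (x y : U) (p q : I.Walk x y), p.IsPath → q.IsPath → p.length ≤ g → q.length ≤ g → p = q

/-- `z` can be reached from `S` in at most `n` steps -/
def Rch (I : SimpleGraph U) (S : Set U) (n : ℕ) (z : U) : Prop :=
  ∃ s ∈ S, ∃ w : I.Walk s z, w.length ≤ n

theorem Rch.mono {I : SimpleGraph U} {S : Set U} {n m : ℕ} {z : U} (h : Rch I S n z)
    (hnm : n ≤ m) : Rch I S m z := by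
  obtain ⟨s, hs, w, hw⟩ := h
  exact ⟨s, hs, w, hw.trans hnm⟩

theorem Rch.adj {I : SimpleGraph U} {S : Set U} {n : ℕ} {y z : U} (h : Rch I S n y)
    (hyz : I.Adj y z) : Rch I S (n + 1) z := by
  obtain ⟨s, hs, w, hw⟩ := h
  refine ⟨s, hs, w.concat hyz, ?_⟩
  rw [SimpleGraph.Walk.length_concat]
  omega

theorem Rch.walk {I : SimpleGraph U} {S : Set U} {n : ℕ} {y z : U} (h : Rch I S n y)
    (w : I.Walk y z) : Rch I S (n + w.length) z := by
  obtain ⟨s, hs, w', hw'⟩ := h
  refine ⟨s, hs, w'.append w, ?_⟩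
  rw [SimpleGraph.Walk.length_append]
  omega

theorem Rch.zero {I : SimpleGraph U} {S : Set U} {z : U} : Rch I S 0 z ↔ z ∈ S := by
  constructor
  · rintro ⟨s, hs, w, hw⟩
    cases w with
    | nil => exact hs
    | cons h p => simp at hw
  · intro h
    exact ⟨z, h, SimpleGraph.Walk.nil, le_rfl⟩

theorem Rch.of_mem {I : SimpleGraph U} {S : Set U} {z : U} (n : ℕ) (h : z ∈ S) : Rch I S n z :=
  ⟨z, h, SimpleGraph.Walk.nil, Nat.zero_le _⟩

theorem Rch.succ {I : SimpleGraph U} {S : Set U} {n : ℕ} {z : U} (h : Rch I S (n + 1) z) :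
    Rch I S n z ∨ ∃ y, Rch I S n y ∧ I.Adj y z := by
  obtain ⟨s, hs, w, hw⟩ := h
  rcases Nat.lt_or_ge n w.length with h1 | h1
  · right
    have hlen : w.length = n + 1 := by omega
    have hr : w.reverse.length = n + 1 := by rw [SimpleGraph.Walk.length_reverse, hlen]
    generalize w.reverse = r at hr
    cases r with
    | nil => simp at hr
    | cons h p =>
      rw [SimpleGraph.Walk.length_cons] at hr
      refine ⟨_, ⟨s, hs, p.reverse, ?_⟩, h.symm⟩
      rw [SimpleGraph.Walk.length_reverse]
      omega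
  · exact Or.inl ⟨s, hs, w, h1⟩

/-- closedness under short paths -/
def Clo {ι : Type} (I : SimpleGraph U) (a : ι → U) (δ : ι → ℕ) (ρ : ℕ) : Prop :=
  ∀ i j (p : I.Walk (a i) (a j)), p.IsPath → p.length + δ i + δ j ≤ ρ →
    ∀ z ∈ p.support, ∃ k, a k = z

/-- A position of the game. -/
structure Pos {ι : Type} (I : SimpleGraph U) (I' : SimpleGraph U') (col : U → C)
    (col' : U' → C) (Q : ℕ) (a : ι → U) (b : ι → U') (δ : ι → ℕ) (ρ L : ℕ) : Prop where
  eq_iff : ∀ i j, a i = a j ↔ b i = b j
  adj_iff : ∀ i j, I.Adj (a i) (a j) ↔ I'.Adj (b i) (b j)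
  ty : ∀ i, tau I col Q (L - δ i) (a i) = tau I' col' Q (L - δ i) (b i)
  cl : Clo I a δ ρ
  cl' : Clo I' b δ ρ

variable {ι : Type} {I : SimpleGraph U} {I' : SimpleGraph U'} {col : U → C}
  {col' : U' → C} {Q : ℕ} {a : ι → U} {b : ι → U'} {δ : ι → ℕ} {ρ L g : ℕ}

theorem Pos.symm (h : Pos I I' col col' Q a b δ ρ L) : Pos I' I col' col Q b a δ ρ L :=
  ⟨fun i j => (h.eq_iff i j).symm, fun i j => (h.adj_iff i j).symm, fun i => (h.ty i).symm,
    h.cl', h.cl⟩

theorem Pos.relax (h : Pos I I' col col' Q a b δ ρ L) {D ρ' L' : ℕ} (hD : ∀ k, δ k ≤ D)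
    (hρ : ρ' + 2 * D ≤ ρ) (hL : L' + D ≤ L) :
    Pos I I' col col' Q a b (fun _ => 0) ρ' L' := by
  refine ⟨h.eq_iff, h.adj_iff, fun i => ?_, ?_, ?_⟩
  · have := hD i
    exact tau_mono (by omega) (h.ty i)
  · intro i j p hp hl
    have := hD i
    have := hD j
    exact h.cl i j p hp (by simp only [add_zero] at hl; omega)
  · intro i j p hp hl
    have := hD i
    have := hD j
    exact h.cl' i j p hp (by simp only [add_zero] at hl; omega)

theorem Clo.step (h : Clo I a δ ρ) (hLU : LU I g) (hg : ρ ≤ g) (hg1 : 1 ≤ g) {i : ι} {y : U}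
    (hy : ∀ k, a k ≠ y) (hadj : I.Adj (a i) y) :
    Clo I (fun o : Option ι => o.elim y a) (fun o => o.elim (δ i + 1) δ) ρ := by
  classical
  have key : ∀ k (p : I.Walk y (a k)), p.IsPath → p.length + (δ i + 1) + δ k ≤ ρ →
      ∀ z ∈ p.support, z = y ∨ ∃ k, a k = z := by
    intro k p hp hl z hz
    by_cases hi : a i ∈ p.support
    · have h1 := hp.takeUntil hi
      have h2 := hp.dropUntil hi
      have hsplit := p.take_spec hi
      have hlen : p.length = (p.takeUntil (a i) hi).length + (p.dropUntil (a i) hi).length := by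
        conv_lhs => rw [← hsplit]
        rw [SimpleGraph.Walk.length_append]
      let e : I.Walk y (a i) := SimpleGraph.Walk.cons hadj.symm SimpleGraph.Walk.nil
      have he : e.IsPath := by
        rw [SimpleGraph.Walk.cons_isPath_iff]
        refine ⟨SimpleGraph.Walk.IsPath.nil, ?_⟩
        simp only [SimpleGraph.Walk.support_nil, List.mem_singleton]
        exact fun h => hy i h.symm
      have heq : p.takeUntil (a i) hi = e := hLU _ _ _ _ h1 he (by omega) (by
        change 1 ≤ g
        exact hg1)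
      have hl1 : (p.takeUntil (a i) hi).length = 1 := by rw [heq]; rfl
      have hz' : z ∈ (p.takeUntil (a i) hi).support ∨ z ∈ (p.dropUntil (a i) hi).support := by
        rw [← SimpleGraph.Walk.mem_support_append_iff, hsplit]
        exact hz
      rcases hz' with hz' | hz'
      · rw [heq] at hz'
        have : z = y ∨ z = a i := by simpa [e] using hz'
        rcases this with h | h
        · exact Or.inl h
        · exact Or.inr ⟨i, h.symm⟩
      · exact Or.inr (h i k _ h2 (by omega) z hz')
    · exfalso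
      have hp' : (SimpleGraph.Walk.cons hadj p).IsPath := by
        rw [SimpleGraph.Walk.cons_isPath_iff]
        exact ⟨hp, hi⟩
      obtain ⟨k', hk'⟩ := h i k (SimpleGraph.Walk.cons hadj p) hp' (by
        rw [SimpleGraph.Walk.length_cons]; omega) y (by simp)
      exact hy k' hk'
  have key3 : ∀ k (p : I.Walk (a k) y), p.IsPath → p.length + δ k + (δ i + 1) ≤ ρ →
      ∀ z ∈ p.support, z = y ∨ ∃ k, a k = z := by
    intro k p hp hl z hz
    refine key k p.reverse hp.reverse ?_ z ?_
    · rw [SimpleGraph.Walk.length_reverse]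
      omega
    · rw [SimpleGraph.Walk.support_reverse]
      exact List.mem_reverse.2 hz
  have key4 : ∀ (p : I.Walk y y), p.IsPath → ∀ z ∈ p.support, z = y := by
    intro p hp z hz
    have h1 : p = SimpleGraph.Walk.nil := SimpleGraph.Walk.isPath_iff_eq_nil.1 hp
    rw [h1] at hz
    simpa using hz
  have key2 : ∀ z, (z = y ∨ ∃ k, a k = z) → ∃ o : Option ι, o.elim y a = z := by
    rintro z (rfl | ⟨k, hk⟩)
    · exact ⟨none, rfl⟩
    · exact ⟨some k, hk⟩
  intro o1 o2 p hp hl z hz
  apply key2
  cases o1 with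
  | none =>
    cases o2 with
    | none => exact Or.inl (key4 p hp z hz)
    | some k => exact key k p hp hl z hz
  | some k =>
    cases o2 with
    | none => exact key3 k p hp hl z hz
    | some k' => exact Or.inr (h k k' p hp hl z hz)

theorem Pos.step [Finite ι] [Finite U] [Finite U'] (h : Pos I I' col col' Q a b δ ρ L)
    (hLU : LU I g) (hLU' : LU I' g) (hg : ρ ≤ g) (hg1 : 1 ≤ g) {D : ℕ} (hD : ∀ k, δ k ≤ D)
    (hρ : 2 + 2 * D ≤ ρ) (hQ : Nat.card ι + 1 ≤ Q) {i : ι} {y : U}
    (hy : ∀ k, a k ≠ y) (hadj : I.Adj (a i) y) (hL : δ i + 1 ≤ L)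
    (hnb : ∀ k, I.Adj (a i) (a k) → δ k ≤ δ i + 1) :
    ∃ y' : U', I'.Adj (b i) y' ∧
      Pos I I' col col' Q (fun o : Option ι => o.elim y a) (fun o => o.elim y' b)
        (fun o => o.elim (δ i + 1) δ) ρ L := by
  classical
  obtain ⟨l, hl⟩ : ∃ l, L - δ i = l + 1 := ⟨L - δ i - 1, by omega⟩
  have hl2 : L - (δ i + 1) = l := by omega
  have hty := h.ty i
  rw [hl, tau_succ_iff] at hty
  set t := tau I col Q l y with ht
  have hcount := hty.2 t
  have hex : ∃ y', I'.Adj (b i) y' ∧ tau I' col' Q l y' = t ∧ ∀ k, b k ≠ y' := by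
    by_contra hcon
    push Not at hcon
    let K : Set ι := {k | I.Adj (a i) (a k) ∧ tau I col Q l (a k) = t}
    have htyK : ∀ k, I.Adj (a i) (a k) → tau I col Q l (a k) = tau I' col' Q l (b k) := by
      intro k hk
      have := hnb k hk
      exact tau_mono (by omega) (h.ty k)
    have hB : {y' | I'.Adj (b i) y' ∧ tau I' col' Q l y' = t} = b '' K := by
      ext y'
      constructor
      · rintro ⟨h1, h2⟩
        obtain ⟨k, hk⟩ := hcon y' h1 h2
        refine ⟨k, ?_, hk⟩
        rw [← hk] at h1 h2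
        have h3 := (h.adj_iff i k).2 h1
        exact ⟨h3, by rw [htyK k h3]; exact h2⟩
      · rintro ⟨k, ⟨h1, h2⟩, rfl⟩
        refine ⟨(h.adj_iff i k).1 h1, ?_⟩
        rw [← htyK k h1]
        exact h2
    have hcard : (a '' K).ncard = (b '' K).ncard := by
      have hch : ∀ z ∈ a '' K, ∃ k ∈ K, a k = z := fun z hz => hz
      choose f hf1 hf2 using hch
      refine Set.ncard_congr (fun z hz => b (f z hz)) (fun z hz => ⟨f z hz, hf1 z hz, rfl⟩) ?_ ?_
      · intro z z' hz hz' hzz
        rw [← hf2 z hz, ← hf2 z' hz']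
        exact (h.eq_iff _ _).2 hzz
      · rintro _ ⟨k, hk, rfl⟩
        refine ⟨a k, ⟨k, hk, rfl⟩, ?_⟩
        rw [← h.eq_iff]
        exact hf2 (a k) ⟨k, hk, rfl⟩
    have hsub : a '' K ⊂ {y | I.Adj (a i) y ∧ tau I col Q l y = t} := by
      rw [Set.ssubset_iff_of_subset]
      · exact ⟨y, ⟨hadj, rfl⟩, by
          rintro ⟨k, _, hk⟩
          exact hy k hk⟩
      · rintro _ ⟨k, ⟨h1, h2⟩, rfl⟩
        exact ⟨h1, h2⟩
    have hlt : (a '' K).ncard < {y | I.Adj (a i) y ∧ tau I col Q l y = t}.ncard :=
      Set.ncard_lt_ncard hsub (Set.toFinite _)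
    have hle : (b '' K).ncard ≤ Nat.card ι := by
      calc (b '' K).ncard ≤ K.ncard := Set.ncard_image_le (Set.toFinite _)
        _ ≤ Nat.card ι := Set.ncard_le_card K
    rw [hB] at hcount
    omega
  obtain ⟨y', hy1, hy2, hy3⟩ := hex
  refine ⟨y', hy1, ?_, ?_, ?_, h.cl.step hLU hg hg1 hy hadj, h.cl'.step hLU' hg hg1 hy3 hy1⟩
  · intro o1 o2
    cases o1 with
    | none =>
      cases o2 with
      | none => exact ⟨fun _ => rfl, fun _ => rfl⟩
      | some k => exact ⟨fun h => absurd h.symm (hy k), fun h => absurd h.symm (hy3 k)⟩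
    | some k =>
      cases o2 with
      | none => exact ⟨fun h => absurd h (hy k), fun h => absurd h (hy3 k)⟩
      | some k' => exact h.eq_iff k k'
  · have key : ∀ k, I.Adj y (a k) ↔ I'.Adj y' (b k) := by
      intro k
      have hk := hD k
      have hi := hD i
      by_cases hik : a i = a k
      · have hik' := (h.eq_iff i k).1 hik
        rw [← hik, ← hik']
        exact ⟨fun _ => hy1.symm, fun _ => hadj.symm⟩
      · have hik' : b i ≠ b k := fun h' => hik ((h.eq_iff i k).2 h')
        constructor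
        · intro hk'
          exfalso
          have hp : (SimpleGraph.Walk.cons hadj (SimpleGraph.Walk.cons hk'
              SimpleGraph.Walk.nil)).IsPath := by
            rw [SimpleGraph.Walk.cons_isPath_iff, SimpleGraph.Walk.cons_isPath_iff]
            refine ⟨⟨SimpleGraph.Walk.IsPath.nil, ?_⟩, ?_⟩
            · simp only [SimpleGraph.Walk.support_nil, List.mem_singleton]
              exact fun h => hy k h.symm
            · simp only [SimpleGraph.Walk.support_cons, SimpleGraph.Walk.support_nil,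
                List.mem_cons, List.not_mem_nil, or_false, not_or]
              exact ⟨hy i, hik⟩
          obtain ⟨k', hk'⟩ := h.cl i k _ hp (by
            simp only [SimpleGraph.Walk.length_cons, SimpleGraph.Walk.length_nil]
            omega) y (by simp)
          exact hy k' hk'
        · intro hk'
          exfalso
          have hp : (SimpleGraph.Walk.cons hy1 (SimpleGraph.Walk.cons hk'
              SimpleGraph.Walk.nil)).IsPath := by
            rw [SimpleGraph.Walk.cons_isPath_iff, SimpleGraph.Walk.cons_isPath_iff]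
            refine ⟨⟨SimpleGraph.Walk.IsPath.nil, ?_⟩, ?_⟩
            · simp only [SimpleGraph.Walk.support_nil, List.mem_singleton]
              exact fun h => hy3 k h.symm
            · simp only [SimpleGraph.Walk.support_cons, SimpleGraph.Walk.support_nil,
                List.mem_cons, List.not_mem_nil, or_false, not_or]
              exact ⟨hy3 i, hik'⟩
          obtain ⟨k', hk'⟩ := h.cl' i k _ hp (by
            simp only [SimpleGraph.Walk.length_cons, SimpleGraph.Walk.length_nil]
            omega) y' (by simp)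
          exact hy3 k' hk'
    intro o1 o2
    cases o1 with
    | none =>
      cases o2 with
      | none => exact ⟨fun h => absurd h (I.loopless.irrefl _), fun h => absurd h (I'.loopless.irrefl _)⟩
      | some k => exact key k
    | some k =>
      cases o2 with
      | none => exact ⟨fun h => ((key k).1 h.symm).symm, fun h => ((key k).2 h.symm).symm⟩
      | some k' => exact h.adj_iff k k'
  · intro o
    cases o with
    | none =>
      change tau I col Q (L - (δ i + 1)) y = tau I' col' Q (L - (δ i + 1)) y'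
      rw [hl2]
      exact hy2.symm
    | some k => exact h.ty k

end Pool.Agent.H71.MT
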